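import Pool.Agent.Lib.MP_fea353_an.Defs

set_option autoImplicit false

namespace Pool.Agent.Lib.MP_fea353_an

open MeasureTheory Set UnitAddTorus Filter Topology
open scoped ContDiff ENNReal ComplexConjugate

instance : IsProbabilityMeasure mu := by unfold mu; infer_instance
instance : mu.IsAddLeftInvariant := by unfold mu; infer_instance
instance : mu.IsAddRightInvariant := by unfold mu; infer_instance
instance : mu.IsAddHaarMeasure := by unfold mu; infer_instance
instance : mu.IsNegInvariant := Measure.IsAddHaarMeasure.isNegInvariant_of_regular _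

/-- Fourier coefficient of a real function. -/
noncomputable def fc (f : T3 → ℝ) (k : Fin 3 → ℤ) : ℂ :=
  mFourierCoeff (fun x => (f x : ℂ)) k

theorem fc_eq (f : T3 → ℝ) (k : Fin 3 → ℤ) :
    fc f k = ∫ x, mFourier (-k) x * (f x : ℂ) ∂mu := rfl

theorem norm_mF (k : Fin 3 → ℤ) (x : T3) : ‖mFourier k x‖ = 1 := by
  simp [mFourier, fourier_apply]

theorem mF_add (k : Fin 3 → ℤ) (x y : T3) :
    mFourier k (x + y) = mFourier k x * mFourier k y := by
  simp [mFourier, fourier_apply, smul_add, AddCircle.toCircle_add, Finset.prod_mul_distrib]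

theorem mF_single (k : Fin 3 → ℤ) (j : Fin 3) (s : ℝ) :
    mFourier k (Pi.single j (s : UnitAddCircle) : T3)
      = Complex.exp (2 * Real.pi * Complex.I * k j * s) := by
  simp only [mFourier, ContinuousMap.coe_mk]
  rw [Finset.prod_eq_single j]
  · rw [Pi.single_eq_same, fourier_coe_apply]; simp
  · intro b _ hb
    rw [Pi.single_eq_of_ne hb, fourier_eval_zero]
  · simp

theorem cont_int {E : Type*} [NormedAddCommGroup E] {f : T3 → E} (hf : Continuous f) :
    Integrable f mu :=
  hf.integrable_of_hasCompactSupport (HasCompactSupport.of_compactSpace f)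

theorem cont_bdd {E : Type*} [NormedAddCommGroup E] {f : T3 → E} (hf : Continuous f) :
    ∃ C, ∀ x, ‖f x‖ ≤ C := by
  obtain ⟨C, hC⟩ := (isCompact_univ.image hf).isBounded.exists_norm_le
  exact ⟨C, fun x => hC _ ⟨x, mem_univ _, rfl⟩⟩

theorem cont_memLp {E : Type*} [NormedAddCommGroup E] {f : T3 → E} (hf : Continuous f)
    (q : ℝ≥0∞) : MemLp f q mu := by
  obtain ⟨C, hC⟩ := cont_bdd hf
  exact MemLp.of_bound hf.aestronglyMeasurable C (Eventually.of_forall hC)

theorem int_mul_cont {f g : T3 → ℝ} (hf : Integrable f mu) (hg : Continuous g) :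
    Integrable (fun x => f x * g x) mu := by
  obtain ⟨C, hC⟩ := cont_bdd hg
  exact hf.mul_bdd hg.aestronglyMeasurable (Eventually.of_forall hC)

theorem cont_mul_int {f g : T3 → ℝ} (hg : Continuous g) (hf : Integrable f mu) :
    Integrable (fun x => g x * f x) mu := by
  simpa only [mul_comm] using int_mul_cont hf hg

theorem int_fc {f : T3 → ℝ} (hf : Integrable f mu) (k : Fin 3 → ℤ) :
    Integrable (fun x => mFourier k x * (f x : ℂ)) mu :=
  (hf.ofReal (𝕜 := ℂ)).bdd_mul (mFourier k).continuous.aestronglyMeasurable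
    (Eventually.of_forall fun x => (norm_mF k x).le)

theorem norm_fc_le (f : T3 → ℝ) (k : Fin 3 → ℤ) : ‖fc f k‖ ≤ ∫ x, |f x| ∂mu := by
  rw [fc_eq]
  refine (norm_integral_le_integral_norm _).trans (le_of_eq ?_)
  simp [norm_mF]

/-- Directional derivative predicate. -/
def HasPD {E : Type*} [NormedAddCommGroup E] [NormedSpace ℝ E] (j : Fin 3) (g g' : T3 → E) :
    Prop :=
  ∀ x, HasDerivAt (fun s : ℝ => g (x + Pi.single j (s : UnitAddCircle))) (g' x) 0

theorem HasPD.at {E : Type*} [NormedAddCommGroup E] [NormedSpace ℝ E] {j : Fin 3}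
    {g g' : T3 → E} (h : HasPD j g g') (x : T3) (s0 : ℝ) :
    HasDerivAt (fun s : ℝ => g (x + Pi.single j (s : UnitAddCircle)))
      (g' (x + Pi.single j (s0 : UnitAddCircle))) s0 := by
  have h1 := h (x + Pi.single j (s0 : UnitAddCircle))
  have h2 : HasDerivAt (fun s : ℝ => g (x + Pi.single j (s0 : UnitAddCircle)
      + Pi.single j ((s - s0 : ℝ) : UnitAddCircle))) (g' (x + Pi.single j (s0 : UnitAddCircle)))
      s0 := by
    have := HasDerivAt.comp_sub_const (f := fun s : ℝ => g (x + Pi.single j (s0 : UnitAddCircle)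
      + Pi.single j (s : UnitAddCircle))) s0 s0 (by simpa using h1)
    exact this
  convert h2 using 3 with s
  rw [add_assoc, ← Pi.single_add, ← AddCircle.coe_add]
  congr 3
  ring

theorem cont_shift (j : Fin 3) :
    Continuous (fun s : ℝ => (Pi.single j (s : UnitAddCircle) : T3)) := by
  refine continuous_pi fun i => ?_
  by_cases h : i = j
  · subst h; simpa using AddCircle.continuous_mk' 1
  · simpa [Pi.single_eq_of_ne h] using continuous_const

theorem integral_pd {E : Type*} [NormedAddCommGroup E] [NormedSpace ℝ E] [CompleteSpace E]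
    {j : Fin 3} {g g' : T3 → E} (h : HasPD j g g') (hg : Continuous g) (hg' : Continuous g') :
    ∫ x, g' x ∂mu = 0 := by
  obtain ⟨C, hC⟩ := cont_bdd hg'
  have key := hasDerivAt_integral_of_dominated_loc_of_deriv_le (μ := mu) (x₀ := (0 : ℝ))
    (F := fun (s : ℝ) (x : T3) => g (x + Pi.single j (s : UnitAddCircle)))
    (F' := fun (s : ℝ) (x : T3) => g' (x + Pi.single j (s : UnitAddCircle)))
    (s := univ) (bound := fun _ => C) univ_mem
    (Eventually.of_forall fun s => (by fun_prop : Continuous _).aestronglyMeasurable)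
    (cont_int (by fun_prop))
    ((by fun_prop : Continuous _).aestronglyMeasurable)
    (Eventually.of_forall fun x s _ => hC _) (integrable_const _)
    (Eventually.of_forall fun x s _ => h.at x s)
  have h2 := key.2
  simp only [integral_add_right_eq_self] at h2
  exact h2.unique (hasDerivAt_const _ _)

theorem hasPD_mF (j : Fin 3) (k : Fin 3 → ℤ) :
    HasPD j (fun x => mFourier k x)
      (fun x => (2 * Real.pi * Complex.I * k j) * mFourier k x) := by
  intro x
  simp only [mF_add, mF_single]
  have h1 : HasDerivAt (fun s : ℝ => (2 * Real.pi * Complex.I * k j * s : ℂ))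
      (2 * Real.pi * Complex.I * k j) 0 := by
    simpa using (Complex.ofRealCLM.hasDerivAt (x := 0)).const_mul
      (2 * Real.pi * Complex.I * k j : ℂ)
  have h2 := (h1.cexp).const_mul (mFourier k x)
  refine h2.congr_deriv ?_
  simp [mul_comm]

theorem HasPD.ofReal {j : Fin 3} {g g' : T3 → ℝ} (h : HasPD j g g') :
    HasPD j (fun x => (g x : ℂ)) (fun x => (g' x : ℂ)) := fun x => (h x).ofReal_comp

theorem fc_pd {j : Fin 3} {g g' : T3 → ℝ} (h : HasPD j g g') (hg : Continuous g)
    (hg' : Continuous g') (k : Fin 3 → ℤ) :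
    fc g' k = (2 * Real.pi * Complex.I * k j) * fc g k := by
  have h1 : HasPD j (fun x => mFourier (-k) x * (g x : ℂ))
      (fun x => (2 * Real.pi * Complex.I * (-k) j) * mFourier (-k) x * (g x : ℂ)
        + mFourier (-k) x * (g' x : ℂ)) := by
    intro x
    have := (hasPD_mF j (-k) x).mul (h.ofReal x)
    refine HasDerivAt.congr_deriv this ?_
    simp
  have h2 := integral_pd h1 (by fun_prop) (by fun_prop)
  rw [integral_add (cont_int (by fun_prop)) (cont_int (by fun_prop))] at h2
  simp only [mul_assoc, integral_const_mul, ← fc_eq] at h2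
  simp only [Pi.neg_apply, Int.cast_neg] at h2
  linear_combination h2

theorem hasSum_prod {f g : T3 → ℝ} (hf : MemLp f 2 mu) (hg : MemLp g 2 mu) :
    HasSum (fun k => conj (fc f k) * fc g k) ((∫ x, f x * g x ∂mu : ℝ) : ℂ) := by
  have hf' : MemLp (fun x => (f x : ℂ)) 2 mu := hf.ofReal (K := ℂ)
  have hg' : MemLp (fun x => (g x : ℂ)) 2 mu := hg.ofReal (K := ℂ)
  have h := hasSum_prod_mFourierCoeff (d := Fin 3) (hf'.toLp _) (hg'.toLp _)
  have e : ∀ {u : T3 → ℝ} (hu : MemLp (fun x => (u x : ℂ)) 2 mu) (k : Fin 3 → ℤ),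
      mFourierCoeff (hu.toLp _ : T3 → ℂ) k = fc u k := by
    intro u hu k
    rw [fc_eq]
    refine integral_congr_ae (μ := mu) ?_
    filter_upwards [hu.coeFn_toLp] with x hx
    rw [hx, smul_eq_mul]
  have e2 : (fun k => conj (fc f k) * fc g k) = fun k => conj (mFourierCoeff (hf'.toLp _ : T3 → ℂ) k)
      * mFourierCoeff (hg'.toLp _ : T3 → ℂ) k := by
    ext k
    rw [e hf', e hg']
  have e3 : ((∫ x, f x * g x ∂mu : ℝ) : ℂ)
      = ∫ x, conj ((hf'.toLp _ : T3 → ℂ) x) * (hg'.toLp _ : T3 → ℂ) x ∂mu := by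
    rw [← integral_complex_ofReal]
    refine integral_congr_ae (μ := mu) ?_
    filter_upwards [hf'.coeFn_toLp, hg'.coeFn_toLp] with x hx hy
    rw [hx, hy]
    simp
  rw [e2, e3]
  exact h

theorem hasSum_sq {f : T3 → ℝ} (hf : MemLp f 2 mu) :
    HasSum (fun k => ‖fc f k‖ ^ 2) (∫ x, f x ^ 2 ∂mu) := by
  have h := Complex.hasSum_re (hasSum_prod hf hf)
  simp only [Complex.ofReal_re] at h
  convert h using 1
  · ext k
    rw [Complex.conj_mul', ← Complex.ofReal_pow, Complex.ofReal_re]
  · simp [sq]

/-- A divergence free field (in Fourier variables) is orthogonal to gradients. -/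
theorem div_pair {v : Fin 3 → T3 → ℝ} (hv : ∀ j, MemLp (v j) 2 mu)
    (hd : ∀ k : Fin 3 → ℤ, ∑ j, (k j : ℂ) * fc (v j) k = 0)
    {g : T3 → ℝ} {g' : Fin 3 → T3 → ℝ} (h : ∀ j, HasPD j g (g' j)) (hg : Continuous g)
    (hg' : ∀ j, Continuous (g' j)) : ∑ j, ∫ x, v j x * g' j x ∂mu = 0 := by
  have h1 := hasSum_sum (s := Finset.univ) fun j _ => hasSum_prod (hv j) (cont_memLp (hg' j) 2)
  have h2 : (fun k => ∑ j, conj (fc (v j) k) * fc (g' j) k) = fun _ => 0 := by
    ext k
    simp only [fc_pd (h _) hg (hg' _)]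
    have h3 := congrArg (starRingEnd ℂ) (hd k)
    simp only [map_sum, map_mul, map_intCast, map_zero] at h3
    calc _ = (2 * Real.pi * Complex.I * fc g k) * ∑ j, (k j : ℂ) * conj (fc (v j) k) := by
          rw [Finset.mul_sum]; refine Finset.sum_congr rfl fun j _ => by ring
      _ = 0 := by rw [h3, mul_zero]
  rw [h2] at h1
  have h4 := h1.unique hasSum_zero
  exact_mod_cast h4

theorem fc_shift (f : T3 → ℝ) (h : T3) (k : Fin 3 → ℤ) :
    fc (fun x => f (x + h)) k = mFourier k h * fc f k := by
  rw [fc_eq, fc_eq, ← integral_const_mul,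
    ← integral_add_right_eq_self (μ := mu)
      (fun x => mFourier k h * (mFourier (-k) x * (f x : ℂ))) h]
  congr 1
  ext x
  have : mFourier k h * mFourier (-k) h = 1 := by
    rw [← mFourier_add]; simp [mFourier_zero]
  rw [mF_add]
  linear_combination (-(mFourier (-k) x * (f (x + h) : ℂ))) * this

theorem fc_sub {f g : T3 → ℝ} (hf : Integrable f mu) (hg : Integrable g mu) (k : Fin 3 → ℤ) :
    fc (fun x => f x - g x) k = fc f k - fc g k := by
  rw [fc_eq, fc_eq, fc_eq, ← integral_sub (int_fc hf _) (int_fc hg _)]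
  congr 1
  ext x
  push_cast
  ring

theorem memLp_shift {f : T3 → ℝ} {q : ℝ≥0∞} (hf : MemLp f q mu) (h : T3) :
    MemLp (fun x => f (x + h)) q mu :=
  hf.comp_measurePreserving (measurePreserving_add_right mu h)

theorem hasSum_shift {f : T3 → ℝ} (hf : MemLp f 2 mu) (h : T3) :
    HasSum (fun k => ‖mFourier k h - 1‖ ^ 2 * ‖fc f k‖ ^ 2)
      (∫ x, (f (x + h) - f x) ^ 2 ∂mu) := by
  have h1 := hasSum_sq ((memLp_shift hf h).sub hf)
  have h2 : ∀ k, fc ((fun x => f (x + h)) - f) k = (mFourier k h - 1) * fc f k := by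
    intro k
    have := fc_sub ((memLp_shift hf h).integrable (by norm_num)) (hf.integrable (by norm_num)) k
    rw [fc_shift] at this
    rw [sub_mul, one_mul, ← this]
    rfl
  simpa only [h2, norm_mul, mul_pow, Pi.sub_apply] using h1

/-- Convolution on the torus. -/
noncomputable def conv (W f : T3 → ℝ) (x : T3) : ℝ := ∫ y, W (x - y) * f y ∂mu

theorem cont_conv {W f : T3 → ℝ} (hW : Continuous W) (hf : Integrable f mu) :
    Continuous (conv W f) := by
  obtain ⟨C, hC⟩ := cont_bdd hW
  refine continuous_of_dominated (bound := fun y => C * ‖f y‖) (fun x => ?_) (fun x => ?_)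
    (hf.norm.const_mul C) (Eventually.of_forall fun y => by fun_prop)
  · exact (cont_mul_int (by fun_prop) hf).aestronglyMeasurable
  · refine Eventually.of_forall fun y => ?_
    rw [norm_mul]
    exact mul_le_mul_of_nonneg_right (hC _) (norm_nonneg _)

theorem hasPD_conv {j : Fin 3} {W W' f : T3 → ℝ} (h : HasPD j W W') (hW : Continuous W)
    (hW' : Continuous W') (hf : Integrable f mu) : HasPD j (conv W f) (conv W' f) := by
  intro x
  obtain ⟨C, hC⟩ := cont_bdd hW'
  have key := hasDerivAt_integral_of_dominated_loc_of_deriv_le (μ := mu) (x₀ := (0 : ℝ))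
    (F := fun (s : ℝ) (y : T3) => W (x - y + Pi.single j (s : UnitAddCircle)) * f y)
    (F' := fun (s : ℝ) (y : T3) => W' (x - y + Pi.single j (s : UnitAddCircle)) * f y)
    (s := univ) (bound := fun y => C * ‖f y‖) univ_mem
    (Eventually.of_forall fun s => (cont_mul_int (by fun_prop) hf).aestronglyMeasurable)
    (cont_mul_int (by fun_prop) hf)
    ((cont_mul_int (by fun_prop) hf).aestronglyMeasurable)
    (Eventually.of_forall fun y s _ => by
      rw [norm_mul]
      exact mul_le_mul_of_nonneg_right (hC _) (norm_nonneg _)) (hf.norm.const_mul C)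
    (Eventually.of_forall fun y s _ => (h.at (x - y) s).mul_const _)
  have h2 := key.2
  simp only [AddCircle.coe_zero, Pi.single_zero, add_zero] at h2
  simp only [conv, add_sub_right_comm]
  exact h2

theorem fc_conv {W f : T3 → ℝ} (hW : Continuous W) (hf : Integrable f mu) (k : Fin 3 → ℤ) :
    fc (conv W f) k = fc W k * fc f k := by
  obtain ⟨C, hC⟩ := cont_bdd hW
  have hint : Integrable (Function.uncurry fun (x y : T3) =>
      mFourier (-k) x * ((W (x - y) : ℂ) * (f y : ℂ))) (mu.prod mu) := by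
    have h1 : Integrable (fun z : T3 × T3 => ((f z.2 : ℝ) : ℂ)) (mu.prod mu) :=
      (hf.ofReal (𝕜 := ℂ)).comp_snd mu
    have h2 := h1.bdd_mul (f := fun z : T3 × T3 => mFourier (-k) z.1 * (W (z.1 - z.2) : ℂ))
      (c := C) (by fun_prop : Continuous _).aestronglyMeasurable
      (Eventually.of_forall fun z => by simpa [norm_mF] using hC _)
    refine h2.congr (Eventually.of_forall fun z => ?_)
    simp [Function.uncurry, mul_assoc]
  calc fc (conv W f) k
      = ∫ x, ∫ y, mFourier (-k) x * ((W (x - y) : ℂ) * (f y : ℂ)) ∂mu ∂mu := by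
        rw [fc_eq]
        congr 1
        ext x
        rw [integral_const_mul, conv, ← integral_complex_ofReal]
        simp
    _ = ∫ y, ∫ x, mFourier (-k) x * ((W (x - y) : ℂ) * (f y : ℂ)) ∂mu ∂mu :=
        integral_integral_swap hint
    _ = ∫ y, fc W k * (mFourier (-k) y * (f y : ℂ)) ∂mu := by
        congr 1
        ext y
        rw [← integral_add_right_eq_self (μ := mu) _ y, fc_eq, ← integral_mul_const]
        congr 1
        ext x
        rw [mF_add, add_sub_cancel_right]
        ring
    _ = _ := by rw [integral_const_mul, ← fc_eq]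

end Pool.Agent.Lib.MP_fea353_an
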