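import Mathlib

set_option autoImplicit false

namespace Pool.Agent.Lib.MP_fea353_an

open MeasureTheory Set
open scoped ContDiff ENNReal

/-- The flat torus `ℝ³ / ℤ³`. -/
abbrev T3 : Type := UnitAddTorus (Fin 3)

/-- Lebesgue measure (Haar measure of total mass one) on the torus. -/
noncomputable def mu : Measure T3 := Measure.pi fun _ => AddCircle.haarAddCircle

/-- Lebesgue measure on the space-time cylinder `(0, T) × 𝕋³`. -/
noncomputable def st (T : ℝ) : Measure (ℝ × T3) := (volume.restrict (Ioo 0 T)).prod mu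

/-- The derivative of `g` in the `j`-th coordinate direction at `x`. -/
noncomputable def pd (j : Fin 3) (g : T3 → ℝ) (x : T3) : ℝ :=
  deriv (fun s : ℝ => g (x + Pi.single j (s : UnitAddCircle))) 0

/-- Test functions: smooth on `ℝ × 𝕋³`, with time support in a compact part of `(0, T)`. -/
def IsTest (T : ℝ) (ψ : ℝ → T3 → ℝ) : Prop :=
  ContDiff ℝ ∞ (fun z : ℝ × (Fin 3 → ℝ) => ψ z.1 fun i => (z.2 i : UnitAddCircle)) ∧
    ∃ a b : ℝ, 0 < a ∧ b < T ∧ ∀ t, t ∉ Icc a b → ψ t = 0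

/-- Distributional solutions of the incompressible Euler equations on `(0, T) × 𝕋³`, with
square integrable velocity `v` and integrable pressure `p`. -/
structure WeakEuler (T : ℝ) (v : ℝ → T3 → Fin 3 → ℝ) (p : ℝ → T3 → ℝ) : Prop where
  memL2 : ∀ i, MemLp (fun z : ℝ × T3 => v z.1 z.2 i) 2 (st T)
  pInt : Integrable (fun z : ℝ × T3 => p z.1 z.2) (st T)
  divFree : ∀ ψ, IsTest T ψ → ∫ z, ∑ j, v z.1 z.2 j * pd j (ψ z.1) z.2 ∂(st T) = 0
  momentum : ∀ ψ, IsTest T ψ → ∀ i,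
    ∫ z, (v z.1 z.2 i * deriv (fun t => ψ t z.2) z.1
      + ∑ j, v z.1 z.2 i * v z.1 z.2 j * pd j (ψ z.1) z.2
      + p z.1 z.2 * pd i (ψ z.1) z.2) ∂(st T) = 0

/-- The square of the `H^s` norm, `∑ₖ (1 + |k|²)^s |f̂(k)|²`, with values in `[0, ∞]`. -/
noncomputable def HsNormSq (s : ℝ) (f : T3 → ℝ) : ℝ≥0∞ :=
  ∑' k : Fin 3 → ℤ, ENNReal.ofReal ((1 + ∑ j, (k j : ℝ) ^ 2) ^ s *
    ‖UnitAddTorus.mFourierCoeff (fun x => (f x : ℂ)) k‖ ^ 2)

/-- Kinetic energy of a velocity field. -/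
noncomputable def energy (u : T3 → Fin 3 → ℝ) : ℝ := 1 / 2 * ∫ x, ∑ i, u x i ^ 2 ∂mu

end Pool.Agent.Lib.MP_fea353_an
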