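import Pool.Agent.Lib.MP_fea353_an.Kernel

set_option autoImplicit false

namespace Pool.Agent.Lib.MP_fea353_an

open MeasureTheory Set UnitAddTorus Filter Topology
open scoped ContDiff ENNReal ComplexConjugate

/-- `|k|²`. -/
noncomputable def qq (k : Fin 3 → ℤ) : ℝ := ∑ j, (k j : ℝ) ^ 2

theorem qq_nonneg (k : Fin 3 → ℤ) : 0 ≤ qq k := Finset.sum_nonneg fun _ _ => sq_nonneg _

/-- Terms of the Sobolev norm. -/
noncomputable def hterm (s : ℝ) (f : T3 → ℝ) (k : Fin 3 → ℤ) : ℝ :=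
  (1 + qq k) ^ s * ‖fc f k‖ ^ 2

theorem hterm_nonneg (s : ℝ) (f : T3 → ℝ) (k : Fin 3 → ℤ) : 0 ≤ hterm s f k := by
  have := qq_nonneg k
  unfold hterm
  positivity

theorem dir_le {s : ℝ} (hs : 0 ≤ s) (i : Fin 3) (k : Fin 3 → ℤ) :
    |(k i : ℝ)| ^ (2 * s) ≤ (1 + qq k) ^ s := by
  rw [Real.rpow_mul (abs_nonneg _)]
  refine Real.rpow_le_rpow (by positivity) ?_ hs
  have : (k i : ℝ) ^ 2 ≤ qq k :=
    Finset.single_le_sum (f := fun j => (k j : ℝ) ^ 2) (fun _ _ => sq_nonneg _) (Finset.mem_univ i)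
  rw [Real.rpow_two, sq_abs]
  linarith

theorem one_le_wt {s : ℝ} (hs : 0 ≤ s) (k : Fin 3 → ℤ) : 1 ≤ (1 + qq k) ^ s :=
  Real.one_le_rpow (by linarith [qq_nonneg k]) hs

/-- The tail functional controlling the commutator. -/
noncomputable def tl (N : ℕ) (f : T3 → ℝ) : ℝ := ∑' k, min (qq k / N) N * ‖fc f k‖ ^ 2

theorem min_le_wt {β : ℝ} (hβ : 1 / 2 ≤ β) {N : ℕ} (hN : 1 ≤ N) (k : Fin 3 → ℤ) :
    min (qq k / N) N ≤ (1 + qq k) ^ β := by
  have h1 : (1 : ℝ) ≤ N := by exact_mod_cast hN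
  have hq := qq_nonneg k
  have h0 : 0 ≤ min (qq k / N) N := le_min (by positivity) (by positivity)
  refine abs_le_of_sq_le_sq' ?_ (by positivity) |>.2
  calc min (qq k / N) N ^ 2 ≤ qq k / N * N := by
        rw [sq]
        exact mul_le_mul (min_le_left _ _) (min_le_right _ _) h0 (by positivity)
    _ = qq k := by field_simp
    _ ≤ (1 + qq k) ^ (1 : ℝ) := by rw [Real.rpow_one]; linarith
    _ ≤ (1 + qq k) ^ (β * 2) := Real.rpow_le_rpow_of_exponent_le (by linarith) (by linarith)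
    _ = _ := by rw [Real.rpow_mul (by linarith), Real.rpow_two]

theorem tl_term_nonneg (N : ℕ) (f : T3 → ℝ) (k : Fin 3 → ℤ) :
    0 ≤ min (qq k / N) N * ‖fc f k‖ ^ 2 := by
  have hq := qq_nonneg k
  exact mul_nonneg (le_min (by positivity) (by positivity)) (by positivity)

theorem tl_nonneg (N : ℕ) (f : T3 → ℝ) : 0 ≤ tl N f := tsum_nonneg (tl_term_nonneg N f)

theorem tl_le {β : ℝ} (hβ : 1 / 2 ≤ β) {N : ℕ} (hN : 1 ≤ N) {f : T3 → ℝ}
    (hf : Summable (hterm β f)) : tl N f ≤ ∑' k, hterm β f k := by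
  have hle : ∀ k, min (qq k / N) N * ‖fc f k‖ ^ 2 ≤ hterm β f k := fun k =>
    mul_le_mul_of_nonneg_right (min_le_wt hβ hN k) (by positivity)
  exact (hf.of_nonneg_of_le (tl_term_nonneg N f) hle).tsum_le_tsum hle hf

theorem tl_tendsto {β : ℝ} (hβ : 1 / 2 ≤ β) {f : T3 → ℝ} (hf : Summable (hterm β f)) :
    Tendsto (fun N => tl N f) atTop (𝓝 0) := by
  have h := tendsto_tsum_of_dominated_convergence (𝓕 := atTop)
    (f := fun (N : ℕ) k => min (qq k / N) N * ‖fc f k‖ ^ 2) (g := fun _ => 0) hf (fun k => ?_) ?_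
  · simpa [tl] using h
  · have h1 : Tendsto (fun N : ℕ => qq k / N * ‖fc f k‖ ^ 2) atTop (𝓝 0) := by
      simpa using (tendsto_const_div_atTop_nhds_zero_nat (qq k)).mul_const (‖fc f k‖ ^ 2)
    exact squeeze_zero (fun N => tl_term_nonneg N f k)
      (fun N => mul_le_mul_of_nonneg_right (min_le_left _ _) (by positivity)) h1
  · filter_upwards [eventually_ge_atTop 1] with N hN k
    rw [Real.norm_of_nonneg (tl_term_nonneg N f k)]
    exact mul_le_mul_of_nonneg_right (min_le_wt hβ hN k) (by positivity)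

theorem incr_le {f : T3 → ℝ} (hf : MemLp f 2 mu) {N : ℕ} (hN : 1 ≤ N) (h : T3) :
    ∫ x, (f (x + h) - f x) ^ 2 ∂mu ≤ 4 * (1 + N ^ 2 * sig h) / N * tl N f := by
  have h1 : (1 : ℝ) ≤ N := by exact_mod_cast hN
  have hs : Summable fun k => min (qq k / N) N * ‖fc f k‖ ^ 2 :=
    ((hasSum_sq hf).summable.mul_left (N : ℝ)).of_nonneg_of_le (tl_term_nonneg N f) fun k =>
      mul_le_mul_of_nonneg_right (min_le_right _ _) (by positivity)
  refine hasSum_le (fun k => ?_) (hasSum_shift hf h) (hs.hasSum.mul_left _)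
  rw [← mul_assoc]
  refine mul_le_mul_of_nonneg_right ?_ (by positivity)
  have hsig := sig_nonneg h
  have hq := qq_nonneg k
  rcases le_total (qq k / N) N with hc | hc
  · rw [min_eq_left hc]
    refine (norm_mF_sub_sq k h).trans ?_
    have : 4 * (1 + N ^ 2 * sig h) / N * (qq k / N) = 4 * qq k * sig h + 4 * qq k / N ^ 2 := by
      field_simp
      ring
    rw [this]
    exact le_add_of_nonneg_right (by positivity)
  · rw [min_eq_right hc, div_mul_cancel₀ _ (by positivity)]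
    have := pow_le_pow_left₀ (norm_nonneg _) (norm_mF_sub_le k h) 2
    nlinarith [mul_nonneg (sq_nonneg (N : ℝ)) hsig]

/-- Dyadic shifts. -/
noncomputable def hh (i : Fin 3) (r : ℕ) : T3 := Pi.single i ((1 / 2 ^ (r + 1) : ℝ) : UnitAddCircle)

theorem norm_hh (i : Fin 3) (r : ℕ) (k : Fin 3 → ℤ) :
    ‖mFourier k (hh i r) - 1‖ ^ 2 = 4 * Real.sin (Real.pi * (|(k i : ℝ)| / 2 ^ (r + 1))) ^ 2 := by
  have e : (2 * Real.pi * Complex.I * k i * (1 / 2 ^ (r + 1) : ℝ) : ℂ)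
      = Complex.I * (2 * (Real.pi * (k i / 2 ^ (r + 1))) : ℝ) := by
    push_cast
    ring
  rw [hh, mF_single, e, Complex.norm_exp_I_mul_ofReal_sub_one, Real.norm_eq_abs, sq_abs,
    mul_div_cancel_left₀ _ two_ne_zero, mul_pow]
  rcases abs_choice (k i : ℝ) with h | h
  · rw [h]; norm_num
  · rw [h, neg_div, mul_neg, Real.sin_neg]; norm_num

theorem wt_lower {β : ℝ} (hβ : 0 < β) (i : Fin 3) (k : Fin 3 → ℤ) {M : ℕ}
    (hM : (k i).natAbs < M) :
    |(k i : ℝ)| ^ (2 * β) ≤ ∑ r ∈ Finset.range M,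
      ((2 : ℝ) ^ (2 * β)) ^ r * ‖mFourier k (hh i r) - 1‖ ^ 2 := by
  obtain ⟨n, hn⟩ : ∃ n, n = (k i).natAbs := ⟨_, rfl⟩
  have hkn : |(k i : ℝ)| = n := by rw [hn, Nat.cast_natAbs, Int.cast_abs]
  rcases Nat.eq_zero_or_pos n with h0 | h0
  · rw [hkn, h0, Nat.cast_zero, Real.zero_rpow (by positivity)]
    positivity
  have l1 : 2 ^ Nat.log 2 n ≤ n := Nat.pow_log_le_self 2 h0.ne'
  have l2 : n < 2 ^ (Nat.log 2 n + 1) := Nat.lt_pow_succ_log_self (by norm_num) n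
  have l3 : Nat.log 2 n < n := Nat.log_lt_self 2 h0.ne'
  obtain ⟨m, hm⟩ : ∃ m, m = Nat.log 2 n := ⟨_, rfl⟩
  rw [← hm] at l1 l2 l3
  have l1' : (2 : ℝ) ^ m ≤ n := by exact_mod_cast l1
  have l2' : (n : ℝ) ≤ 2 ^ (m + 1) := by exact_mod_cast l2.le
  refine le_trans ?_ (Finset.single_le_sum
    (f := fun r => ((2 : ℝ) ^ (2 * β)) ^ r * ‖mFourier k (hh i r) - 1‖ ^ 2)
    (fun _ _ => by positivity) (Finset.mem_range.2 (by omega : m + 1 < M)))
  simp only [norm_hh, hkn]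
  have t1 : (1 : ℝ) / 4 ≤ n / 2 ^ (m + 1 + 1) := by
    rw [div_le_div_iff₀ (by norm_num) (by positivity), pow_succ, pow_succ]
    linarith
  have t2 : (n : ℝ) / 2 ^ (m + 1 + 1) ≤ 1 / 2 := by
    rw [div_le_div_iff₀ (by positivity) (by norm_num), pow_succ]
    linarith
  generalize (n : ℝ) / 2 ^ (m + 1 + 1) = t at t1 t2
  have s1 : 2 / Real.pi * (Real.pi * t) ≤ Real.sin (Real.pi * t) :=
    Real.mul_le_sin (by positivity) (by nlinarith [Real.pi_pos])
  have s2 : 2 / Real.pi * (Real.pi * t) = 2 * t := by field_simp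
  have s3 : 1 ≤ 4 * Real.sin (Real.pi * t) ^ 2 := by nlinarith
  calc (n : ℝ) ^ (2 * β) ≤ ((2 : ℝ) ^ (m + 1)) ^ (2 * β) :=
        Real.rpow_le_rpow (by positivity) l2' (by positivity)
    _ = ((2 : ℝ) ^ (2 * β)) ^ (m + 1) := (Real.rpow_pow_comm (by norm_num) _ _).symm
    _ ≤ _ := le_mul_of_one_le_right (by positivity) s3

theorem wt_upper {β : ℝ} (hβ : 0 < β) (hβ1 : β < 1) : ∃ C : ℝ, 0 ≤ C ∧
    ∀ (i : Fin 3) (k : Fin 3 → ℤ) (M : ℕ), ∑ r ∈ Finset.range M,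
      ((2 : ℝ) ^ (2 * β)) ^ r * ‖mFourier k (hh i r) - 1‖ ^ 2 ≤ C * |(k i : ℝ)| ^ (2 * β) := by
  obtain ⟨a, ha⟩ : ∃ a : ℝ, a = (2 : ℝ) ^ (2 * β) := ⟨_, rfl⟩
  have a1 : 1 < a := ha ▸ Real.one_lt_rpow (by norm_num) (by positivity)
  have a4 : a < 4 := by
    have : (2 : ℝ) ^ (2 * β) < 2 ^ (2 : ℝ) := Real.rpow_lt_rpow_of_exponent_lt (by norm_num)
      (by linarith)
    rw [ha]
    refine this.trans_le (le_of_eq ?_)
    norm_num
  have a1' : 0 < a - 1 := by linarith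
  have a4' : 0 < 1 - a / 4 := by linarith
  refine ⟨a * (4 / (a - 1) + 16 * (1 - a / 4)⁻¹), by positivity, fun i k M => ?_⟩
  obtain ⟨n, hn⟩ : ∃ n, n = (k i).natAbs := ⟨_, rfl⟩
  have hkn : |(k i : ℝ)| = n := by rw [hn, Nat.cast_natAbs, Int.cast_abs]
  simp only [norm_hh, hkn]
  rcases Nat.eq_zero_or_pos n with h0 | h0
  · simp [h0, Real.zero_rpow (by positivity : (2 * β) ≠ 0)]
  have l1 : 2 ^ Nat.log 2 n ≤ n := Nat.pow_log_le_self 2 h0.ne'
  have l2 : n < 2 ^ (Nat.log 2 n + 1) := Nat.lt_pow_succ_log_self (by norm_num) n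
  obtain ⟨m, hm⟩ : ∃ m, m = Nat.log 2 n := ⟨_, rfl⟩
  rw [← hm] at l1 l2
  have l1' : (2 : ℝ) ^ m ≤ n := by exact_mod_cast l1
  have l2' : (n : ℝ) ≤ 2 ^ (m + 1) := by exact_mod_cast l2.le
  have am : a ^ m ≤ (n : ℝ) ^ (2 * β) := by
    rw [ha, Real.rpow_pow_comm (by norm_num)]
    exact Real.rpow_le_rpow (by positivity) l1' (by positivity)
  rw [← ha]
  have a0 : 0 < a := by linarith
  calc _ ≤ ∑ r ∈ Finset.range (m + 1 + M),
        a ^ r * (4 * Real.sin (Real.pi * (n / 2 ^ (r + 1))) ^ 2) :=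
        Finset.sum_le_sum_of_subset_of_nonneg (Finset.range_mono (by omega))
          fun _ _ _ => by positivity
    _ ≤ ∑ r ∈ Finset.range (m + 1), 4 * a ^ r
        + ∑ r ∈ Finset.range M, 16 * a ^ (m + 1) * (a / 4) ^ r := by
        rw [Finset.sum_range_add]
        refine add_le_add (Finset.sum_le_sum fun r _ => ?_) (Finset.sum_le_sum fun r _ => ?_)
        · have := Real.sin_sq_le_one (Real.pi * (n / 2 ^ (r + 1)))
          nlinarith [pow_pos a0 r]
        · have s1 := Real.sin_sq_le_sq (x := Real.pi * (n / 2 ^ (m + 1 + r + 1)))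
          have s2 : Real.pi * (n / 2 ^ (m + 1 + r + 1)) ≤ 2 / 2 ^ r := by
            calc Real.pi * (n / 2 ^ (m + 1 + r + 1))
                ≤ 4 * (2 ^ (m + 1) / 2 ^ (m + 1 + r + 1)) := by
                  gcongr
                  exact Real.pi_le_four
              _ = _ := by field_simp; ring
          have s3 : (Real.pi * (n / 2 ^ (m + 1 + r + 1))) ^ 2 ≤ (2 / 2 ^ r) ^ 2 := by
            have := Real.pi_pos
            gcongr
          calc _ ≤ a ^ (m + 1 + r) * (4 * (2 / 2 ^ r) ^ 2) :=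
                mul_le_mul_of_nonneg_left
                  (mul_le_mul_of_nonneg_left (s1.trans s3) (by norm_num)) (by positivity)
            _ = _ := by
                have : (4 : ℝ) ^ r = (2 ^ r) ^ 2 := by rw [← pow_mul, mul_comm, pow_mul]; norm_num
                rw [div_pow a, this]
                field_simp
                ring
    _ ≤ 4 * (a ^ (m + 1) / (a - 1)) + 16 * a ^ (m + 1) * (1 - a / 4)⁻¹ := by
        rw [← Finset.mul_sum, ← Finset.mul_sum, geom_sum_eq a1.ne']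
        gcongr
        · linarith
        · rw [← tsum_geometric_of_lt_one (by positivity) (by linarith)]
          exact (summable_geometric_of_lt_one (by positivity) (by linarith)).sum_le_tsum _
            fun _ _ => by positivity
    _ = a * (4 / (a - 1) + 16 * (1 - a / 4)⁻¹) * a ^ m := by ring
    _ ≤ _ := by gcongr

/-- Lipschitz functions act boundedly on the directional `H^β` seminorm. -/
theorem exists_comp {β : ℝ} (hβ : 0 < β) (hβ1 : β < 1) : ∃ C : ℝ, 0 ≤ C ∧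
    ∀ (i : Fin 3) (f F : T3 → ℝ) (A : ℝ), MemLp f 2 mu → MemLp F 2 mu →
      (∀ x y, |F x - F y| ≤ 2 * |f x - f y|) →
      HasSum (fun k : Fin 3 → ℤ => |(k i : ℝ)| ^ (2 * β) * ‖fc f k‖ ^ 2) A →
      ∀ S : Finset (Fin 3 → ℤ), ∑ k ∈ S, |(k i : ℝ)| ^ (2 * β) * ‖fc F k‖ ^ 2 ≤ C * A := by
  obtain ⟨C, hC0, hC⟩ := wt_upper hβ hβ1
  refine ⟨4 * C, by positivity, fun i f F A hf hF hL hA S => ?_⟩
  obtain ⟨M, hM⟩ : ∃ M, ∀ k ∈ S, (k i).natAbs < M :=
    ⟨∑ k ∈ S, (k i).natAbs + 1, fun k hk => Nat.lt_succ_of_le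
      (Finset.single_le_sum (f := fun k : Fin 3 → ℤ => (k i).natAbs) (fun _ _ => Nat.zero_le _) hk)⟩
  have hsum : ∀ {g : T3 → ℝ}, MemLp g 2 mu → HasSum (fun k => (∑ r ∈ Finset.range M,
      ((2 : ℝ) ^ (2 * β)) ^ r * ‖mFourier k (hh i r) - 1‖ ^ 2) * ‖fc g k‖ ^ 2)
      (∑ r ∈ Finset.range M, ((2 : ℝ) ^ (2 * β)) ^ r
        * ∫ x, (g (x + hh i r) - g x) ^ 2 ∂mu) := by
    intro g hg
    have := hasSum_sum (s := Finset.range M) fun r _ =>
      (hasSum_shift hg (hh i r)).mul_left (((2 : ℝ) ^ (2 * β)) ^ r)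
    simpa only [Finset.sum_mul, mul_assoc] using this
  calc _ ≤ ∑ k ∈ S, (∑ r ∈ Finset.range M,
        ((2 : ℝ) ^ (2 * β)) ^ r * ‖mFourier k (hh i r) - 1‖ ^ 2) * ‖fc F k‖ ^ 2 :=
        Finset.sum_le_sum fun k hk =>
          mul_le_mul_of_nonneg_right (wt_lower hβ i k (hM k hk)) (by positivity)
    _ ≤ _ := sum_le_hasSum S (fun _ _ => by positivity) (hsum hF)
    _ ≤ ∑ r ∈ Finset.range M, 4 * (((2 : ℝ) ^ (2 * β)) ^ r
        * ∫ x, (f (x + hh i r) - f x) ^ 2 ∂mu) := by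
        refine Finset.sum_le_sum fun r _ => ?_
        rw [mul_left_comm, ← integral_const_mul (4 : ℝ)]
        refine mul_le_mul_of_nonneg_left ?_ (by positivity)
        refine integral_mono ((memLp_shift hF _).sub hF).integrable_sq
          (((memLp_shift hf _).sub hf).integrable_sq.const_mul _) fun x => ?_
        have := pow_le_pow_left₀ (abs_nonneg _) (hL (x + hh i r) x) 2
        rw [mul_pow, sq_abs, sq_abs] at this
        linarith
    _ ≤ 4 * (C * A) := by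
        rw [← Finset.mul_sum]
        refine mul_le_mul_of_nonneg_left ?_ (by norm_num)
        refine hasSum_le (fun k => ?_) (hsum hf) (hA.mul_left C)
        rw [← mul_assoc]
        exact mul_le_mul_of_nonneg_right (hC i k M) (by positivity)
    _ = _ := by ring

end Pool.Agent.Lib.MP_fea353_an
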