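import Pool.Agent.Lib.MP_fea353_an.Weak

set_option autoImplicit false

namespace Pool.Agent.Lib.MP_fea353_an

open MeasureTheory Set UnitAddTorus Filter Topology
open scoped ContDiff ENNReal ComplexConjugate

variable {T : ℝ} {v : ℝ → T3 → Fin 3 → ℝ} {p : ℝ → T3 → ℝ}

theorem WeakEuler.int_energy (h : WeakEuler T v p) :
    Integrable (fun t => energy (v t)) (volume.restrict (Ioo 0 T)) := by
  have h1 : Integrable (fun z : ℝ × T3 => ∑ i, v z.1 z.2 i ^ 2) (st T) :=
    integrable_finsetSum _ fun i _ => (h.memL2 i).integrable_sq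
  exact h1.integral_prod_left.const_mul _

/-- The directional pressure criterion. -/
theorem WeakEuler.core (h : WeakEuler T v p) {γ : ℝ} (hγ : 0 < γ) (hγ1 : γ < 1) {A : ℝ}
    {B : ℝ → ℝ} (hB : Integrable B (volume.restrict (Ioo 0 T)))
    (hae : ∀ᵐ t ∂(volume.restrict (Ioo 0 T)), ∀ i,
      (Summable (hterm (1 / 2) fun x => v t x i) ∧ ∑' k, hterm (1 / 2) (fun x => v t x i) k ≤ A) ∧
      (Summable (dterm γ i fun x => v t x i) ∧ ∑' k, dterm γ i (fun x => v t x i) k ≤ A) ∧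
      (Summable (dterm (1 - γ) i (p t)) ∧ √(∑' k, dterm (1 - γ) i (p t) k) ≤ B t)) :
    ∃ E, ∀ᵐ t ∂(volume.restrict (Ioo 0 T)), energy (v t) = E := by
  refine ae_const_of_test h.int_energy fun φ hφ => ?_
  obtain ⟨C, hC0, hC⟩ := exists_RR hγ hγ1
  obtain ⟨D, hD0, hD⟩ := cont_bdd_Ioo T hφ.cont
  obtain ⟨D', hD0', hD'⟩ := cont_bdd_Ioo T hφ.cont_deriv
  have hp : ∀ᵐ t ∂(volume.restrict (Ioo 0 T)), Integrable (p t) mu := h.pInt.prod_right_ae
  have hRb : ∀ (N : ℕ) (e : ℝ), 0 < e → ∀ᵐ t ∂(volume.restrict (Ioo 0 T)),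
      ‖φ t * RR N e (fun j y => v t y j) (p t)‖ ≤ D * (C * √A * B t) := by
    intro N e he
    filter_upwards [hD, hp, hae, h.ae_memLp] with t h1 h2 h3 h4
    rw [norm_mul]
    exact mul_le_mul h1 ((hC _ _ h4 h2 (fun i => (h3 i).2.1.1) (fun i => (h3 i).2.2.1)).1 N e A _
      he (fun i => (h3 i).2.1.2) (fun i => (h3 i).2.2.2)) (norm_nonneg _) hD0
  have hRm : ∀ (N : ℕ) (e : ℝ), AEStronglyMeasurable
      (fun t => φ t * RR N e (fun j y => v t y j) (p t)) (volume.restrict (Ioo 0 T)) :=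
    fun N e => hφ.cont.aestronglyMeasurable.mul (h.meas_RR N e)
  have hRi : ∀ (N : ℕ) (e : ℝ), 0 < e → Integrable
      (fun t => φ t * RR N e (fun j y => v t y j) (p t)) (volume.restrict (Ioo 0 T)) :=
    fun N e he => ((hB.const_mul _).const_mul _).mono' (hRm N e) (hRb N e he)
  have step1 : ∀ e : ℝ, 0 < e → Tendsto (fun N => ∫ t in Ioo 0 T,
      φ t * (HH N e (fun j y => v t y j) (p t) + RR N e (fun j y => v t y j) (p t)))
      atTop (𝓝 0) := by
    intro e he
    have := tendsto_integral_filter_of_dominated_convergence (μ := volume.restrict (Ioo 0 T))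
      (l := atTop) (F := fun (N : ℕ) t =>
        φ t * (HH N e (fun j y => v t y j) (p t) + RR N e (fun j y => v t y j) (p t)))
      (f := fun _ => 0) (fun _ => D * (600 / e * (3 * A)))
      (Eventually.of_forall fun N => hφ.cont.aestronglyMeasurable.mul
        ((h.int_HH N he).1.add (h.meas_RR N e))) ?_ (integrable_const _) ?_
    · simpa using this
    · filter_upwards [eventually_ge_atTop 1] with N hN
      filter_upwards [hD, hp, hae, h.ae_memLp, h.ae_div] with t h1 h2 h3 h4 h5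
      rw [norm_mul]
      refine mul_le_mul h1 ((HH_add_RR h4 h5 h2 hN he).trans ?_) (norm_nonneg _) hD0
      refine mul_le_mul_of_nonneg_left ?_ (by positivity)
      have := fun i => (tl_le le_rfl hN (h3 i).1.1).trans (h3 i).1.2
      simp only [Fin.sum_univ_three]
      linarith [this 0, this 1, this 2]
    · filter_upwards [hp, hae, h.ae_memLp, h.ae_div] with t h2 h3 h4 h5
      have h6 : Tendsto (fun N => 600 / e * ∑ i, tl N fun x => v t x i) atTop (𝓝 0) := by
        simpa using (tendsto_finsetSum Finset.univ fun i _ =>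
          tl_tendsto le_rfl (h3 i).1.1).const_mul (600 / e)
      have h7 : Tendsto (fun N => HH N e (fun j y => v t y j) (p t)
          + RR N e (fun j y => v t y j) (p t)) atTop (𝓝 0) := by
        refine squeeze_zero_norm' ?_ h6
        filter_upwards [eventually_ge_atTop 1] with N hN using HH_add_RR h4 h5 h2 hN he
      simpa using h7.const_mul (φ t)
  obtain ⟨e, he⟩ : ∃ e : ℕ → ℝ, e = fun m : ℕ => 1 / ((m : ℝ) + 1) := ⟨_, rfl⟩
  have he0 : ∀ m, 0 < e m := fun m => by rw [he]; positivity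
  have he1 : Tendsto e atTop (𝓝 0) := he ▸ tendsto_one_div_add_atTop_nhds_zero_nat
  have hsel : ∀ m : ℕ, ∃ N : ℕ, m ≤ N ∧ ‖∫ t in Ioo 0 T, φ t *
      (HH N (e m) (fun j y => v t y j) (p t) + RR N (e m) (fun j y => v t y j) (p t))‖ ≤ e m := by
    intro m
    have h1 := (step1 (e m) (he0 m)).norm
    rw [norm_zero] at h1
    exact ((eventually_ge_atTop m).and (h1.eventually (ge_mem_nhds (he0 m)))).exists
  choose N hN1 hN2 using hsel
  have hN : Tendsto N atTop atTop := tendsto_atTop_mono hN1 tendsto_id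
  have l1 := squeeze_zero_norm hN2 he1
  have l2 : Tendsto (fun m => ∫ t in Ioo 0 T, φ t * RR (N m) (e m) (fun j y => v t y j) (p t))
      atTop (𝓝 0) := by
    have := tendsto_integral_of_dominated_convergence (μ := volume.restrict (Ioo 0 T))
      (F := fun m t => φ t * RR (N m) (e m) (fun j y => v t y j) (p t)) (f := fun _ => 0)
      (fun t => D * (C * √A * B t)) (fun m => hRm _ _) ((hB.const_mul _).const_mul _)
      (fun m => hRb _ _ (he0 m)) ?_
    · simpa using this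
    filter_upwards [hp, hae, h.ae_memLp] with t h2 h3 h4
    simpa using ((hC _ _ h4 h2 (fun i => (h3 i).2.1.1) (fun i => (h3 i).2.2.1)).2 N e he0
      he1).const_mul (φ t)
  have l3 : Tendsto (fun m => ∫ t in Ioo 0 T, deriv φ t * EE (N m) (e m) (fun j y => v t y j))
      atTop (𝓝 (∫ t in Ioo 0 T, deriv φ t * energy (v t))) := by
    refine tendsto_integral_of_dominated_convergence (fun _ => D' * (2 * A))
      (fun m => hφ.cont_deriv.aestronglyMeasurable.mul (h.int_EE _ (he0 m)).1)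
      (integrable_const _) (fun m => ?_) ?_
    · filter_upwards [hD', hae, h.ae_memLp] with t h1 h3 h4
      rw [norm_mul]
      exact mul_le_mul h1 (EE_le h4 _ (he0 m) fun i =>
        (int_sq_le_hs (by norm_num) (h4 i) (h3 i).1.1).trans (h3 i).1.2) (norm_nonneg _) hD0'
    · filter_upwards [h.ae_memLp] with t h4
      exact (EE_tendsto h4 hN he0 he1).const_mul _
  have l4 : Tendsto (fun m => ∫ t in Ioo 0 T, deriv φ t * EE (N m) (e m) (fun j y => v t y j))
      atTop (𝓝 (0 - 0)) := by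
    refine (l1.sub l2).congr fun m => ?_
    simp only [mul_add]
    rw [integral_add (cont_mul_intT hφ.cont (h.int_HH _ (he0 m))) (hRi _ _ (he0 m)),
      add_sub_cancel_right, h.balance _ (he0 m) hφ]
  simpa using tendsto_nhds_unique l3 l4

theorem hs_eq (s : ℝ) (f : T3 → ℝ) : HsNormSq s f = ∑' k, ENNReal.ofReal (hterm s f k) := rfl

theorem hs_fin {s : ℝ} {f : T3 → ℝ} (h : HsNormSq s f ≠ ⊤) :
    Summable (hterm s f) ∧ ∑' k, hterm s f k = (HsNormSq s f).toReal := by
  rw [hs_eq] at *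
  constructor
  · simpa only [ENNReal.toReal_ofReal (hterm_nonneg _ _ _)] using ENNReal.summable_toReal h
  · rw [ENNReal.tsum_toReal_eq fun _ => ENNReal.ofReal_ne_top]
    simp only [ENNReal.toReal_ofReal (hterm_nonneg _ _ _)]

theorem hs_le {s : ℝ} {f : T3 → ℝ} {C : ℝ≥0∞} (hC : C < ⊤) (h : HsNormSq s f ≤ C) :
    Summable (hterm s f) ∧ ∑' k, hterm s f k ≤ C.toReal := by
  have h1 := hs_fin (h.trans_lt hC).ne
  exact ⟨h1.1, h1.2 ▸ ENNReal.toReal_mono hC.ne h⟩

theorem hterm_mono {s s' : ℝ} (h : s ≤ s') (f : T3 → ℝ) (k : Fin 3 → ℤ) :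
    hterm s f k ≤ hterm s' f k :=
  mul_le_mul_of_nonneg_right
    (Real.rpow_le_rpow_of_exponent_le (by linarith [qq_nonneg k]) h) (by positivity)

theorem sum_le_of_le {a b : (Fin 3 → ℤ) → ℝ} {A : ℝ} (ha : ∀ k, 0 ≤ a k) (hab : ∀ k, a k ≤ b k)
    (hb : Summable b ∧ ∑' k, b k ≤ A) : Summable a ∧ ∑' k, a k ≤ A :=
  ⟨hb.1.of_nonneg_of_le ha hab, ((hb.1.of_nonneg_of_le ha hab).tsum_le_tsum hab hb.1).trans hb.2⟩

theorem meas_hs {F : ℝ → T3 → ℝ} (hF : Integrable (fun z : ℝ × T3 => F z.1 z.2) (st T)) (s : ℝ) :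
    AEMeasurable (fun t => HsNormSq s (F t)) (volume.restrict (Ioo 0 T)) := by
  simp only [hs_eq]
  refine AEMeasurable.tsum fun k => AEMeasurable.ennreal_ofReal ?_
  have h1 : AEStronglyMeasurable (fun z : ℝ × T3 => mFourier (-k) z.2 * (F z.1 z.2 : ℂ)) (st T) :=
    (by fun_prop : Continuous fun z : ℝ × T3 => mFourier (-k) z.2).aestronglyMeasurable.mul
      (hF.ofReal (𝕜 := ℂ)).1
  have h2 : AEStronglyMeasurable (fun t => fc (F t) k) (volume.restrict (Ioo 0 T)) :=
    h1.integral_prod_right'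
  exact ((h2.norm.aemeasurable).pow_const 2).const_mul _

theorem pressure_criterion {β : ℝ} (hβ : 1 / 2 ≤ β) (hβ1 : β < 1) (h : WeakEuler T v p)
    (hv : ∃ C : ℝ≥0∞, C < ⊤ ∧ ∀ᵐ t ∂(volume.restrict (Ioo 0 T)), ∀ i,
      HsNormSq β (fun x => v t x i) ≤ C)
    (hp : ∫⁻ t in Ioo 0 T, HsNormSq (1 - β) (p t) ^ (1 / 2 : ℝ) < ⊤) :
    ∃ E, ∀ᵐ t ∂(volume.restrict (Ioo 0 T)), energy (v t) = E := by
  obtain ⟨C, hC, hv⟩ := hv
  have hm := (meas_hs h.pInt (1 - β)).pow_const (1 / 2 : ℝ)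
  refine h.core (γ := β) (by linarith) hβ1 (A := C.toReal)
    (integrable_toReal_of_lintegral_ne_top hm hp.ne) ?_
  filter_upwards [hv, ae_lt_top' hm hp.ne] with t h1 h2 i
  have h3 := hs_le hC (h1 i)
  have h4 := hs_fin (s := 1 - β) (f := p t) (by
    intro h0
    rw [h0, ENNReal.top_rpow_of_pos (by norm_num)] at h2
    exact lt_irrefl _ h2)
  have h5 := sum_le_of_le (dterm_nonneg (1 - β) i (p t)) (dterm_le (by linarith) i (p t))
    ⟨h4.1, h4.2.le⟩
  refine ⟨sum_le_of_le (hterm_nonneg _ _) (hterm_mono hβ _) h3,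
    sum_le_of_le (dterm_nonneg _ _ _) (dterm_le (by linarith) i _) h3, h5.1, ?_⟩
  rw [← ENNReal.toReal_rpow, ← Real.sqrt_eq_rpow]
  exact Real.sqrt_le_sqrt h5.2

end Pool.Agent.Lib.MP_fea353_an
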