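import Pool.Agent.Lib.MP_fea353_an.Fourier

set_option autoImplicit false

namespace Pool.Agent.Lib.MP_fea353_an

open MeasureTheory Set UnitAddTorus Filter Topology
open scoped ContDiff ENNReal ComplexConjugate

noncomputable def cc (j : Fin 3) (x : T3) : ℝ := (1 + (mFourier (Pi.single j 1) x).re) / 2
noncomputable def sn (j : Fin 3) (x : T3) : ℝ := (mFourier (Pi.single j 1) x).im

@[fun_prop] theorem cont_cc (j : Fin 3) : Continuous (cc j) := by unfold cc; fun_prop
@[fun_prop] theorem cont_sn (j : Fin 3) : Continuous (sn j) := by unfold sn; fun_prop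

theorem re_sq_add (k : Fin 3 → ℤ) (x : T3) :
    (mFourier k x).re ^ 2 + (mFourier k x).im ^ 2 = 1 := by
  have h := norm_mF k x
  have h2 := Complex.sq_norm (mFourier k x)
  rw [h, Complex.normSq_apply] at h2
  nlinarith

theorem sn_sq (j : Fin 3) (x : T3) : sn j x ^ 2 = 4 * cc j x * (1 - cc j x) := by
  have := re_sq_add (Pi.single j 1) x
  unfold sn cc
  nlinarith

theorem cc_nonneg (j : Fin 3) (x : T3) : 0 ≤ cc j x := by
  have := re_sq_add (Pi.single j 1) x
  unfold cc
  nlinarith [sq_nonneg (mFourier (Pi.single j 1) x).im]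

theorem cc_le (j : Fin 3) (x : T3) : cc j x ≤ 1 := by
  have := re_sq_add (Pi.single j 1) x
  unfold cc
  nlinarith [sq_nonneg (mFourier (Pi.single j 1) x).im]

theorem hasPD_cc (j : Fin 3) : HasPD j (cc j) (fun x => -Real.pi * sn j x) := by
  intro x
  have h := Complex.reCLM.hasFDerivAt.comp_hasDerivAt (0 : ℝ) (hasPD_mF j (Pi.single j 1) x)
  have h2 := (h.const_add 1).div_const 2
  refine HasDerivAt.congr_deriv h2 ?_
  simp [sn]
  ring

theorem hasPD_sn (j : Fin 3) : HasPD j (sn j) (fun x => 2 * Real.pi * (2 * cc j x - 1)) := by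
  intro x
  have h := Complex.imCLM.hasFDerivAt.comp_hasDerivAt (0 : ℝ) (hasPD_mF j (Pi.single j 1) x)
  refine HasDerivAt.congr_deriv h ?_
  simp [cc]
  ring

theorem cc_shift {j l : Fin 3} (h : l ≠ j) (x : T3) (s : UnitAddCircle) :
    cc l (x + Pi.single j s) = cc l x := by
  simp [cc, mFourier_single, Pi.single_eq_of_ne h]

/-- Monomials in the `cc j`. -/
noncomputable def mono (a : Fin 3 → ℕ) (x : T3) : ℝ := ∏ l, cc l x ^ a l

noncomputable def rest (j : Fin 3) (a : Fin 3 → ℕ) (x : T3) : ℝ :=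
  ∏ l ∈ Finset.univ.erase j, cc l x ^ a l

@[fun_prop] theorem cont_mono (a : Fin 3 → ℕ) : Continuous (mono a) := by unfold mono; fun_prop
@[fun_prop] theorem cont_rest (j : Fin 3) (a : Fin 3 → ℕ) : Continuous (rest j a) := by
  unfold rest; fun_prop

theorem mono_eq (j : Fin 3) (a : Fin 3 → ℕ) (x : T3) : mono a x = cc j x ^ a j * rest j a x :=
  (Finset.mul_prod_erase _ (fun l => cc l x ^ a l) (Finset.mem_univ j)).symm

theorem mono_nonneg (a : Fin 3 → ℕ) (x : T3) : 0 ≤ mono a x :=
  Finset.prod_nonneg fun l _ => pow_nonneg (cc_nonneg l x) _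

theorem rest_nonneg (j : Fin 3) (a : Fin 3 → ℕ) (x : T3) : 0 ≤ rest j a x :=
  Finset.prod_nonneg fun l _ => pow_nonneg (cc_nonneg l x) _

theorem rest_shift (j : Fin 3) (a : Fin 3 → ℕ) (x : T3) (s : UnitAddCircle) :
    rest j a (x + Pi.single j s) = rest j a x :=
  Finset.prod_congr rfl fun l hl => by rw [cc_shift (Finset.ne_of_mem_erase hl)]

theorem rest_update (j : Fin 3) (a : Fin 3 → ℕ) (m : ℕ) (x : T3) :
    rest j (Function.update a j m) x = rest j a x :=
  Finset.prod_congr rfl fun l hl => by rw [Function.update_of_ne (Finset.ne_of_mem_erase hl)]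

theorem hasPD_mono (j : Fin 3) (a : Fin 3 → ℕ) :
    HasPD j (mono a) (fun x => a j * cc j x ^ (a j - 1) * (-Real.pi * sn j x) * rest j a x) := by
  intro x
  simp only [mono_eq j, rest_shift]
  have h := ((hasPD_cc j x).fun_pow (a j)).mul_const (rest j a x)
  refine HasDerivAt.congr_deriv h ?_
  simp

noncomputable def MM (a : Fin 3 → ℕ) : ℝ := ∫ x, mono a x ∂mu

theorem MM_pos (a : Fin 3 → ℕ) : 0 < MM a := by
  refine (cont_mono a).integral_pos_of_hasCompactSupport_nonneg_nonzero (x := 0)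
    (HasCompactSupport.of_compactSpace _) (fun x => mono_nonneg a x) ?_
  simp [mono, cc, mFourier]

theorem int_s_mono (j : Fin 3) (a : Fin 3 → ℕ) :
    ∫ x, (1 - cc j x) * mono a x ∂mu = MM a / (2 * a j + 2) := by
  have h1 : HasPD j (fun x => sn j x * mono a x)
      (fun x => 2 * Real.pi * (mono a x - (2 * a j + 2) * ((1 - cc j x) * mono a x))) := by
    intro x
    have h := (hasPD_sn j x).mul (hasPD_mono j a x)
    refine HasDerivAt.congr_deriv h ?_
    simp only [AddCircle.coe_zero, Pi.single_zero, add_zero, mono_eq j]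
    have e : (a j : ℝ) * cc j x ^ (a j - 1) * cc j x = a j * cc j x ^ a j := by
      rcases Nat.eq_zero_or_pos (a j) with h0 | h0
      · simp [h0]
      · rw [mul_assoc, ← pow_succ, Nat.sub_add_cancel h0]
    have e2 := sn_sq j x
    linear_combination (-Real.pi * rest j a x * (a j * cc j x ^ (a j - 1))) * e2
      + (-4 * Real.pi * rest j a x * (1 - cc j x)) * e
  have h2 := integral_pd h1 (by fun_prop) (by fun_prop)
  rw [integral_const_mul, integral_sub (cont_int (by fun_prop)) (cont_int (by fun_prop)),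
    integral_const_mul] at h2
  have h3 := (mul_eq_zero.1 h2).resolve_left (by positivity)
  rw [eq_div_iff (by positivity)]
  unfold MM
  linarith

theorem cc_mul_mono (j : Fin 3) (a : Fin 3 → ℕ) (x : T3) :
    cc j x * mono a x = mono (Function.update a j (a j + 1)) x := by
  rw [mono_eq j, mono_eq j, rest_update, Function.update_self]
  ring

theorem MM_succ (j : Fin 3) (a : Fin 3 → ℕ) :
    MM (Function.update a j (a j + 1)) = MM a - MM a / (2 * a j + 2) := by
  rw [← int_s_mono, MM, MM, ← integral_sub (cont_int (by fun_prop)) (cont_int (by fun_prop))]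
  congr 1
  ext x
  rw [← cc_mul_mono]
  ring

theorem int_s_le {n : ℕ} (hn : 1 ≤ n) {a : Fin 3 → ℕ} (j : Fin 3) (ha : n ≤ a j + 1) :
    ∫ x, (1 - cc j x) * mono a x ∂mu ≤ MM a / (2 * n) := by
  rw [int_s_mono]
  have : (n : ℝ) ≤ a j + 1 := by exact_mod_cast ha
  have h1 : (1 : ℝ) ≤ n := by exact_mod_cast hn
  exact div_le_div_of_nonneg_left (MM_pos a).le (by positivity) (by linarith)

theorem int_ss_le {n : ℕ} (hn : 1 ≤ n) {a : Fin 3 → ℕ} (j : Fin 3) (ha : n ≤ a j + 1) :
    ∫ x, (1 - cc j x) ^ 2 * mono a x ∂mu ≤ MM a / n ^ 2 := by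
  have e : ∫ x, (1 - cc j x) ^ 2 * mono a x ∂mu = ∫ x, (1 - cc j x) * mono a x ∂mu
      - ∫ x, (1 - cc j x) * mono (Function.update a j (a j + 1)) x ∂mu := by
    rw [← integral_sub (cont_int (by fun_prop)) (cont_int (by fun_prop))]
    congr 1
    ext x
    rw [← cc_mul_mono]
    ring
  rw [e, int_s_mono, int_s_mono, MM_succ, Function.update_self]
  have h0 : (n : ℝ) ≤ a j + 1 := by exact_mod_cast ha
  have h1 : (1 : ℝ) ≤ n := by exact_mod_cast hn
  have hM := MM_pos a
  have e2 : MM a / (2 * a j + 2) - (MM a - MM a / (2 * a j + 2)) / (2 * ((a j + 1 : ℕ) : ℝ) + 2)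
      = MM a / ((2 * a j + 2) * (2 * a j + 4) / 3) := by
    push_cast
    field_simp
    ring
  rw [e2]
  refine div_le_div_of_nonneg_left hM.le (by positivity) ?_
  nlinarith

/-- The weight `σ(h) = ∑ sin²(π h_l)`. -/
noncomputable def sig (x : T3) : ℝ := ∑ l, (1 - cc l x)

@[fun_prop] theorem cont_sig : Continuous sig := by unfold sig; fun_prop

theorem sig_nonneg (x : T3) : 0 ≤ sig x :=
  Finset.sum_nonneg fun l _ => sub_nonneg.2 (cc_le l x)

theorem int_sig_le {n : ℕ} (hn : 1 ≤ n) {a : Fin 3 → ℕ} (ha : ∀ j, n ≤ a j + 1) :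
    ∫ x, sig x * mono a x ∂mu ≤ 3 * (MM a / (2 * n)) := by
  simp only [sig, Finset.sum_mul]
  rw [integral_finsetSum _ fun l _ => cont_int (by fun_prop)]
  refine (Finset.sum_le_sum fun l _ => int_s_le hn l (ha l)).trans ?_
  simp

theorem int_sig2_le {n : ℕ} (hn : 1 ≤ n) {a : Fin 3 → ℕ} (ha : ∀ j, n ≤ a j + 1) :
    ∫ x, sig x ^ 2 * mono a x ∂mu ≤ 9 * (MM a / n ^ 2) := by
  calc ∫ x, sig x ^ 2 * mono a x ∂mu ≤ ∫ x, ∑ l, 3 * ((1 - cc l x) ^ 2 * mono a x) ∂mu := by
        refine integral_mono (cont_int (by fun_prop)) (cont_int (by fun_prop)) fun x => ?_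
        simp only [sig, Fin.sum_univ_three]
        have := mono_nonneg a x
        nlinarith [mul_nonneg this (sq_nonneg (cc 0 x - cc 1 x)),
          mul_nonneg this (sq_nonneg (cc 0 x - cc 2 x)),
          mul_nonneg this (sq_nonneg (cc 1 x - cc 2 x))]
    _ ≤ _ := by
        rw [integral_finsetSum _ fun l _ => cont_int (by fun_prop)]
        simp only [integral_const_mul]
        refine (Finset.sum_le_sum fun l _ =>
          mul_le_mul_of_nonneg_left (int_ss_le hn l (ha l)) (by norm_num)).trans ?_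
        simp only [Finset.sum_const, Finset.card_univ, Fintype.card_fin, nsmul_eq_mul]
        push_cast
        linarith

/-- The smoothing kernel at frequency `N`. -/
noncomputable def KK (N : ℕ) (x : T3) : ℝ := mono (fun _ => N ^ 2) x / MM (fun _ => N ^ 2)

/-- Its derivative in direction `j`. -/
noncomputable def dK (N : ℕ) (j : Fin 3) (x : T3) : ℝ :=
  ((N ^ 2 : ℕ) * cc j x ^ (N ^ 2 - 1) * (-Real.pi * sn j x) * rest j (fun _ => N ^ 2) x)
    / MM (fun _ => N ^ 2)

@[fun_prop] theorem cont_KK (N : ℕ) : Continuous (KK N) := by unfold KK; fun_prop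
@[fun_prop] theorem cont_dK (N : ℕ) (j : Fin 3) : Continuous (dK N j) := by unfold dK; fun_prop

theorem hasPD_KK (N : ℕ) (j : Fin 3) : HasPD j (KK N) (dK N j) := fun x =>
  (hasPD_mono j (fun _ => N ^ 2) x).div_const _

theorem KK_nonneg (N : ℕ) (x : T3) : 0 ≤ KK N x := div_nonneg (mono_nonneg _ _) (MM_pos _).le

theorem int_KK (N : ℕ) : ∫ x, KK N x ∂mu = 1 := by
  unfold KK
  rw [integral_div]
  exact div_self (MM_pos _).ne'

theorem int_KK_sig {N : ℕ} (hN : 1 ≤ N) : ∫ x, KK N x * sig x ∂mu ≤ 2 / N ^ 2 := by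
  have h := int_sig_le (n := N ^ 2) (Nat.one_le_pow _ _ hN) (a := fun _ => N ^ 2)
    (fun _ => Nat.le_succ _)
  have e : ∫ x, KK N x * sig x ∂mu
      = (∫ x, sig x * mono (fun _ => N ^ 2) x ∂mu) / MM (fun _ => N ^ 2) := by
    rw [← integral_div]
    congr 1
    ext x
    unfold KK
    ring
  have hM := MM_pos (fun _ => N ^ 2)
  have h1 : (1 : ℝ) ≤ N := by exact_mod_cast hN
  rw [e, div_le_iff₀ hM]
  refine h.trans ?_
  push_cast
  rw [← mul_div_assoc, div_mul_eq_mul_div, div_le_div_iff₀ (by positivity) (by positivity)]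
  nlinarith [mul_pos hM (by positivity : (0 : ℝ) < N ^ 2)]

theorem int_dK {N : ℕ} (hN : 1 ≤ N) (j : Fin 3) :
    ∫ x, |dK N j x| * (1 + N ^ 2 * sig x) ∂mu ≤ 100 * (N : ℝ) := by
  have hn : 1 ≤ N ^ 2 := Nat.one_le_pow _ _ hN
  have h1 : (1 : ℝ) ≤ N := by exact_mod_cast hN
  obtain ⟨b, hb⟩ : ∃ b : Fin 3 → ℕ, b = Function.update (fun _ => N ^ 2) j (N ^ 2 - 1) :=
    ⟨_, rfl⟩
  have hbj : b j = N ^ 2 - 1 := by simp [hb]
  have hb1 : ∀ l, N ^ 2 ≤ b l + 1 := by
    intro l
    by_cases h : l = j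
    · subst h; omega
    · simp [hb, Function.update_of_ne h]
  have hb2 : Function.update b j (b j + 1) = fun _ => N ^ 2 := by
    rw [hbj, Nat.sub_add_cancel hn, hb, Function.update_idem]
    exact Function.update_eq_self j _
  have hM := MM_pos (fun _ => N ^ 2)
  have hMb := MM_pos b
  have hMM : MM b ≤ 2 * MM (fun _ => N ^ 2) := by
    rw [← hb2, MM_succ]
    have : MM b / (2 * b j + 2) ≤ MM b / 2 :=
      div_le_div_of_nonneg_left hMb.le (by norm_num) (by linarith [Nat.cast_nonneg (α := ℝ) (b j)])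
    linarith
  have hpt : ∀ x, |dK N j x| * (1 + N ^ 2 * sig x) ≤ Real.pi * N ^ 2 / MM (fun _ => N ^ 2) *
      (1 / N * mono b x + 2 * N * (sig x * mono b x) + N ^ 3 * (sig x ^ 2 * mono b x)) := by
    intro x
    have e1 : |dK N j x| = Real.pi * N ^ 2 / MM (fun _ => N ^ 2) * (|sn j x| * mono b x) := by
      rw [mono_eq j b, hbj, hb, rest_update, dK, abs_div, abs_of_pos hM, abs_mul, abs_mul,
        abs_mul, abs_mul, abs_neg, abs_of_pos Real.pi_pos, abs_of_nonneg (rest_nonneg _ _ _),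
        abs_of_nonneg (pow_nonneg (cc_nonneg _ _) _), Nat.abs_cast]
      push_cast
      ring
    have hs : 1 - cc j x ≤ sig x :=
      Finset.single_le_sum (f := fun l => 1 - cc l x) (fun l _ => sub_nonneg.2 (cc_le l x))
        (Finset.mem_univ j)
    have hsig := sig_nonneg x
    have e2 : |sn j x| ≤ 1 / N + N * sig x := by
      refine abs_le_of_sq_le_sq' ?_ (by positivity) |> abs_le.2
      rw [sn_sq]
      have e3 : (1 / N + N * sig x : ℝ) ^ 2 = (1 / N - N * sig x) ^ 2 + 4 * sig x := by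
        field_simp
        ring
      rw [e3]
      nlinarith [sq_nonneg (1 / N - N * sig x : ℝ), cc_nonneg j x, cc_le j x,
        sq_nonneg (1 - cc j x)]
    rw [e1, mul_assoc]
    refine mul_le_mul_of_nonneg_left ?_ (by positivity)
    have hm := mono_nonneg b x
    calc |sn j x| * mono b x * (1 + N ^ 2 * sig x)
        ≤ (1 / N + N * sig x) * mono b x * (1 + N ^ 2 * sig x) := by gcongr
      _ = _ := by field_simp; ring
  refine (integral_mono (cont_int (by fun_prop)) (cont_int (by fun_prop)) hpt).trans ?_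
  rw [integral_const_mul, integral_add (cont_int (by fun_prop)) (cont_int (by fun_prop)),
    integral_add (cont_int (by fun_prop)) (cont_int (by fun_prop)), integral_const_mul,
    integral_const_mul, integral_const_mul]
  have i1 := int_sig_le hn hb1
  have i2 := int_sig2_le hn hb1
  push_cast at i1 i2
  calc _ ≤ Real.pi * N ^ 2 / MM (fun _ => N ^ 2) *
        (1 / N * MM b + 2 * N * (3 * (MM b / (2 * N ^ 2))) + N ^ 3 * (9 * (MM b / (N ^ 2) ^ 2))) := by
        unfold MM at *
        gcongr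
    _ = 13 * Real.pi * N * (MM b / MM (fun _ => N ^ 2)) := by field_simp; ring
    _ ≤ 13 * Real.pi * N * 2 := by
        gcongr
        rwa [div_le_iff₀ hM]
    _ ≤ 100 * N := by nlinarith [Real.pi_lt_d2]

/-- Smooth functions on the torus. -/
def Sm (g : T3 → ℝ) : Prop :=
  ContDiff ℝ ∞ (fun y : Fin 3 → ℝ => g fun i => (y i : UnitAddCircle))

theorem contDiff_mF (k : Fin 3 → ℤ) :
    ContDiff ℝ ∞ (fun y : Fin 3 → ℝ => mFourier k fun i => (y i : UnitAddCircle)) := by
  simp only [mFourier, ContinuousMap.coe_mk, fourier_coe_apply]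
  refine contDiff_prod fun i _ => ?_
  refine (Complex.contDiff_exp (𝕜 := ℝ)).comp ?_
  refine ContDiff.div_const ?_ _
  exact contDiff_const.mul (Complex.ofRealCLM.contDiff.comp (contDiff_apply ℝ ℝ i))

theorem mF_sub (k : Fin 3 → ℤ) (x y : T3) :
    mFourier k (x - y) = mFourier k x * mFourier (-k) y := by
  have h1 : mFourier k (x - y) * mFourier k y = mFourier k x := by rw [← mF_add, sub_add_cancel]
  have h2 : mFourier k y * mFourier (-k) y = 1 := by
    rw [← mFourier_add]; simp [mFourier_zero]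
  linear_combination (mFourier (-k) y) * h1 - (mFourier k (x - y)) * h2

theorem sm_KK (N : ℕ) (x : T3) : Sm fun y => KK N (x - y) := by
  unfold Sm KK mono cc
  refine ContDiff.div_const (contDiff_prod fun l _ => ContDiff.pow ?_ _) _
  refine ContDiff.div_const (contDiff_const.add ?_) _
  simp only [mF_sub]
  exact Complex.reCLM.contDiff.comp (contDiff_const.mul (contDiff_mF _))

theorem hasPD_reflect {j : Fin 3} {W W' : T3 → ℝ} (h : HasPD j W W') (x : T3) :
    HasPD j (fun y => W (x - y)) (fun y => -W' (x - y)) := by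
  intro y
  have h1 := h (x - y)
  have h2 := HasDerivAt.comp_const_sub
    (f := fun s : ℝ => W (x - y + Pi.single j (s : UnitAddCircle))) 0 0 (by simpa using h1)
  convert h2 using 3 with s
  rw [zero_sub, AddCircle.coe_neg, Pi.single_neg]
  abel

theorem norm_fourier_sub_le (m : ℤ) (θ : UnitAddCircle) :
    ‖fourier m θ - 1‖ ≤ |(m : ℝ)| * ‖fourier 1 θ - 1‖ := by
  have hn : ∀ n : ℕ, ‖fourier (n : ℤ) θ - 1‖ ≤ n * ‖fourier 1 θ - 1‖ := by
    intro n
    induction n with
    | zero => simp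
    | succ n ih =>
      have e : fourier ((n + 1 : ℕ) : ℤ) θ - 1
          = fourier (n : ℤ) θ * (fourier 1 θ - 1) + (fourier (n : ℤ) θ - 1) := by
        push_cast
        rw [fourier_add]
        ring
      rw [e]
      refine (norm_add_le _ _).trans ?_
      rw [norm_mul]
      have : ‖fourier (n : ℤ) θ‖ = 1 := by simp [fourier_apply]
      rw [this]
      push_cast
      linarith
  obtain ⟨n, rfl | rfl⟩ := m.eq_nat_or_neg
  · simpa using hn n
  · rw [fourier_neg, ← map_one (starRingEnd ℂ), ← map_sub, Complex.norm_conj]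
    simpa using hn n

theorem norm_e_sub_sq (l : Fin 3) (h : T3) :
    ‖fourier 1 (h l) - 1‖ ^ 2 = 4 * (1 - cc l h) := by
  have h1 := re_sq_add (Pi.single l 1) h
  rw [Complex.sq_norm, Complex.normSq_apply, cc]
  rw [mFourier_single] at *
  simp only [Complex.sub_re, Complex.one_re, Complex.sub_im, Complex.one_im]
  nlinarith

theorem norm_mF_sub_sq (k : Fin 3 → ℤ) (h : T3) :
    ‖mFourier k h - 1‖ ^ 2 ≤ 4 * (∑ j, (k j : ℝ) ^ 2) * sig h := by
  have hu : ∀ l, ‖fourier (k l) (h l)‖ = 1 := fun l => by simp [fourier_apply]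
  have h1 : ‖mFourier k h - 1‖ ≤ ∑ l, |(k l : ℝ)| * ‖fourier 1 (h l) - 1‖ := by
    refine le_trans ?_ (Finset.sum_le_sum fun l _ => norm_fourier_sub_le (k l) (h l))
    simp only [mFourier, ContinuousMap.coe_mk, Fin.prod_univ_three, Fin.sum_univ_three]
    have e : fourier (k 0) (h 0) * fourier (k 1) (h 1) * fourier (k 2) (h 2) - 1
        = (fourier (k 0) (h 0) - 1) * (fourier (k 1) (h 1) * fourier (k 2) (h 2))
          + (fourier (k 1) (h 1) - 1) * fourier (k 2) (h 2) + (fourier (k 2) (h 2) - 1) := by ring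
    rw [e]
    refine (norm_add₃_le).trans ?_
    simp only [norm_mul, hu, mul_one, le_refl]
  refine (pow_le_pow_left₀ (norm_nonneg _) h1 2).trans ?_
  refine (Finset.sum_mul_sq_le_sq_mul_sq _ _ _).trans (le_of_eq ?_)
  simp only [sq_abs, norm_e_sub_sq, sig, ← Finset.mul_sum]
  ring

theorem norm_mF_sub_le (k : Fin 3 → ℤ) (h : T3) : ‖mFourier k h - 1‖ ≤ 2 := by
  refine (norm_sub_le _ _).trans ?_
  rw [norm_mF]
  norm_num

theorem norm_fc_KK (N : ℕ) (k : Fin 3 → ℤ) : ‖fc (KK N) k‖ ≤ 1 := by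
  refine (norm_fc_le _ _).trans (le_of_eq ?_)
  simp only [abs_of_nonneg (KK_nonneg N _), int_KK]

theorem fc_KK_sub {N : ℕ} (hN : 1 ≤ N) (k : Fin 3 → ℤ) :
    ‖fc (KK N) k - 1‖ ≤ (1 + 8 * ∑ j, (k j : ℝ) ^ 2) / N := by
  have h1 : (1 : ℝ) ≤ N := by exact_mod_cast hN
  have e : fc (KK N) k - 1 = ∫ x, (mFourier (-k) x - 1) * (KK N x : ℂ) ∂mu := by
    simp only [sub_mul, one_mul]
    rw [integral_sub (cont_int (by fun_prop)) (cont_int (by fun_prop)), integral_complex_ofReal,
      int_KK, fc_eq]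
    simp
  rw [e]
  refine (norm_integral_le_integral_norm _).trans ?_
  obtain ⟨q, hq⟩ : ∃ q : ℝ, q = ∑ j, (k j : ℝ) ^ 2 := ⟨_, rfl⟩
  have hq0 : 0 ≤ q := hq ▸ Finset.sum_nonneg fun _ _ => sq_nonneg _
  calc _ ≤ ∫ x, (1 / N * KK N x + 4 * q * N * (KK N x * sig x)) ∂mu := by
        refine integral_mono (cont_int (by fun_prop)) (cont_int (by fun_prop)) fun x => ?_
        simp only [norm_mul, Complex.norm_real, Real.norm_eq_abs, abs_of_nonneg (KK_nonneg N _)]
        have h2 := norm_mF_sub_sq (-k) x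
        simp only [Pi.neg_apply, Int.cast_neg, even_two, Even.neg_pow, ← hq] at h2
        have h3 : ‖mFourier (-k) x - 1‖ ≤ 1 / N + N * ‖mFourier (-k) x - 1‖ ^ 2 := by
          generalize ‖mFourier (-k) x - 1‖ = w
          rw [← sub_nonneg]
          have : 1 / N + N * w ^ 2 - w = ((N * w - 1 / 2) ^ 2 + 3 / 4) / N := by
            field_simp
            ring
          rw [this]
          positivity
        have h4 : ‖mFourier (-k) x - 1‖ ≤ 1 / N + N * (4 * q * sig x) := by
          refine h3.trans ?_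
          gcongr
        nlinarith [mul_le_mul_of_nonneg_right h4 (KK_nonneg N x)]
    _ ≤ 1 / N * 1 + 4 * q * N * (2 / N ^ 2) := by
        rw [integral_add (cont_int (by fun_prop)) (cont_int (by fun_prop)), integral_const_mul,
          integral_const_mul, int_KK]
        gcongr
        exact int_KK_sig hN
    _ = _ := by rw [← hq]; field_simp; ring

end Pool.Agent.Lib.MP_fea353_an
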