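import Mathlib

set_option autoImplicit false

namespace Pool.Agent.Lib.MP_fea353_an

open MeasureTheory Set Filter Topology
open scoped ContDiff

/-- Test functions on `(0, T)`. -/
def Test1 (T : ℝ) (φ : ℝ → ℝ) : Prop :=
  ContDiff ℝ ∞ φ ∧ ∃ a b : ℝ, 0 < a ∧ b < T ∧ ∀ t, t ∉ Icc a b → φ t = 0

theorem Test1.cont {T : ℝ} {φ : ℝ → ℝ} (h : Test1 T φ) : Continuous φ := h.1.continuous

theorem Test1.cont_deriv {T : ℝ} {φ : ℝ → ℝ} (h : Test1 T φ) : Continuous (deriv φ) :=
  h.1.continuous_deriv (by simp)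

theorem Test1.hasDerivAt {T : ℝ} {φ : ℝ → ℝ} (h : Test1 T φ) (t : ℝ) :
    HasDerivAt φ (deriv φ t) t := (h.1.differentiable (by simp) t).hasDerivAt

theorem cont_bdd_Ioo (T : ℝ) {φ : ℝ → ℝ} (h : Continuous φ) :
    ∃ C, 0 ≤ C ∧ ∀ᵐ t ∂(volume.restrict (Ioo 0 T)), ‖φ t‖ ≤ C := by
  obtain ⟨C, hC⟩ := (isCompact_Icc (a := (0 : ℝ)) (b := T)).exists_bound_of_continuousOn
    h.continuousOn
  refine ⟨max C 0, le_max_right _ _, ?_⟩
  filter_upwards [ae_restrict_mem measurableSet_Ioo] with t ht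
  exact (hC t (Ioo_subset_Icc_self ht)).trans (le_max_left _ _)

theorem cont_mul_intT {T : ℝ} {φ f : ℝ → ℝ} (h : Continuous φ)
    (hf : Integrable f (volume.restrict (Ioo 0 T))) :
    Integrable (fun t => φ t * f t) (volume.restrict (Ioo 0 T)) := by
  obtain ⟨C, -, hC⟩ := cont_bdd_Ioo T h
  exact hf.bdd_mul h.aestronglyMeasurable hC

theorem ae_zero_of_test {T : ℝ} {f : ℝ → ℝ} (hf : Integrable f (volume.restrict (Ioo 0 T)))
    (h : ∀ φ, Test1 T φ → ∫ t in Ioo 0 T, φ t * f t = 0) :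
    ∀ᵐ t ∂(volume.restrict (Ioo 0 T)), f t = 0 := by
  rcases le_or_gt T 0 with hT | hT
  · simp [Ioo_eq_empty_of_le hT]
  rw [ae_restrict_iff' measurableSet_Ioo]
  refine isOpen_Ioo.ae_eq_zero_of_integral_contDiff_smul_eq_zero
    (IntegrableOn.locallyIntegrableOn hf) fun g hg hc hs => ?_
  have hK : IsCompact (insert (T / 2) (tsupport g)) := hc.isCompact.insert _
  have hsub : insert (T / 2) (tsupport g) ⊆ Ioo 0 T :=
    insert_subset ⟨by linarith, by linarith⟩ hs
  have hne : (insert (T / 2) (tsupport g)).Nonempty := insert_nonempty _ _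
  have hz : ∀ t, t ∉ Icc (sInf (insert (T / 2) (tsupport g))) (sSup (insert (T / 2) (tsupport g)))
      → g t = 0 := by
    intro t ht
    by_contra hne'
    have hm : t ∈ insert (T / 2) (tsupport g) := mem_insert_of_mem _ (subset_tsupport _ hne')
    exact ht ⟨csInf_le hK.bddBelow hm, le_csSup hK.bddAbove hm⟩
  have h1 := h g ⟨hg, _, _, (hsub (hK.sInf_mem hne)).1, (hsub (hK.sSup_mem hne)).2, hz⟩
  rw [setIntegral_eq_integral_of_forall_compl_eq_zero] at h1
  · exact h1
  · intro t ht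
    rw [image_eq_zero_of_notMem_tsupport fun hm => ht (hs hm), zero_mul]

theorem exists_rho {T : ℝ} (hT : 0 < T) : ∃ ρ, Test1 T ρ ∧ ∫ t in Ioo 0 T, ρ t = 1 := by
  let b : ContDiffBump (T / 2) := ⟨T / 8, T / 4, by positivity, by linarith⟩
  have hz : ∀ t, t ∉ Icc (T / 4) (3 * T / 4) → b.normed volume t = 0 := by
    intro t ht
    by_contra hne
    have : t ∈ Function.support (b.normed volume) := hne
    rw [b.support_normed_eq, Real.ball_eq_Ioo] at this
    have e : b.rOut = T / 4 := rfl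
    rw [e] at this
    exact ht ⟨by linarith [this.1], by linarith [this.2]⟩
  refine ⟨b.normed volume, ⟨b.contDiff_normed, T / 4, 3 * T / 4, by positivity, by linarith, hz⟩, ?_⟩
  rw [setIntegral_eq_integral_of_forall_compl_eq_zero, b.integral_normed]
  intro t ht
  exact hz t fun hm => ht ⟨by linarith [hm.1], by linarith [hm.2]⟩

theorem exists_prim {T : ℝ} (hT : 0 < T) {h : ℝ → ℝ} (hh : Test1 T h)
    (h0 : ∫ t in Ioo 0 T, h t = 0) : ∃ φ, Test1 T φ ∧ deriv φ = h := by
  have hc := hh.cont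
  have hd : deriv (fun u => ∫ x in (0 : ℝ)..u, h x) = h := funext fun t => hc.deriv_integral h 0 t
  obtain ⟨hs, a, b, ha, hb, hz⟩ := hh
  refine ⟨fun u => ∫ x in (0 : ℝ)..u, h x, ⟨?_, a, b, ha, hb, fun t ht => ?_⟩, hd⟩
  · rw [contDiff_infty_iff_deriv, hd]
    exact ⟨fun t => (hc.integral_hasStrictDerivAt 0 t).hasDerivAt.differentiableAt, hs⟩
  · rcases lt_or_ge t a with h1 | h1
    · show ∫ x in (0 : ℝ)..t, h x = 0
      rw [intervalIntegral.integral_congr (g := fun _ => (0 : ℝ))]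
      · simp
      · intro x hx
        refine hz x fun hm => ?_
        rcases mem_uIcc.1 hx with h2 | h2 <;> linarith [hm.1, h2.1, h2.2]
    · have h2 : b < t := by
        by_contra h3
        exact ht ⟨h1, not_lt.1 h3⟩
      have e1 : ∫ x in (0 : ℝ)..T, h x = 0 := by
        rw [intervalIntegral.integral_of_le hT.le, integral_Ioc_eq_integral_Ioo, h0]
      have e2 : ∫ x in T..t, h x = 0 := by
        rw [intervalIntegral.integral_congr (g := fun _ => 0)]
        · simp
        · intro x hx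
          refine hz x fun hm => ?_
          rcases mem_uIcc.1 hx with h2 | h2 <;> linarith [hm.2, h2.1, h2.2]
      show ∫ x in (0 : ℝ)..t, h x = 0
      rw [← intervalIntegral.integral_add_adjacent_intervals (hc.intervalIntegrable 0 T)
        (hc.intervalIntegrable T t), e1, e2, add_zero]

/-- The du Bois-Reymond lemma. -/
theorem ae_const_of_test {T : ℝ} {f : ℝ → ℝ} (hf : Integrable f (volume.restrict (Ioo 0 T)))
    (h : ∀ φ, Test1 T φ → ∫ t in Ioo 0 T, deriv φ t * f t = 0) :
    ∃ c, ∀ᵐ t ∂(volume.restrict (Ioo 0 T)), f t = c := by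
  rcases le_or_gt T 0 with hT | hT
  · exact ⟨0, by simp [Ioo_eq_empty_of_le hT]⟩
  obtain ⟨ρ, hρ, hρ1⟩ := exists_rho hT
  refine ⟨∫ t in Ioo 0 T, ρ t * f t, ?_⟩
  have hone : Integrable (fun _ : ℝ => (1 : ℝ)) (volume.restrict (Ioo 0 T)) := integrable_const _
  have hi : ∀ {g : ℝ → ℝ}, Continuous g → Integrable g (volume.restrict (Ioo 0 T)) :=
    fun hg => by simpa using cont_mul_intT hg hone
  have h1 := ae_zero_of_test (f := fun t => f t - ∫ t in Ioo 0 T, ρ t * f t)
    (hf.sub (integrable_const _)) fun g hg => ?_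
  · filter_upwards [h1] with t ht using sub_eq_zero.1 ht
  have hT1 : Test1 T fun t => g t - (∫ t in Ioo 0 T, g t) * ρ t := by
    obtain ⟨hs, a, b, ha, hb, hz⟩ := hg
    obtain ⟨hs', a', b', ha', hb', hz'⟩ := hρ
    refine ⟨hs.sub (contDiff_const.mul hs'), min a a', max b b', lt_min ha ha', max_lt hb hb',
      fun t ht => ?_⟩
    beta_reduce
    rw [hz t fun hm => ht ⟨(min_le_left _ _).trans hm.1, hm.2.trans (le_max_left _ _)⟩,
      hz' t fun hm => ht ⟨(min_le_right _ _).trans hm.1, hm.2.trans (le_max_right _ _)⟩]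
    simp
  obtain ⟨φ, hφ, hd⟩ := exists_prim hT hT1 (by
    rw [integral_sub (hi hg.cont) ((hi hρ.cont).const_mul _), integral_const_mul, hρ1]
    simp)
  have h2 := h φ hφ
  rw [hd] at h2
  simp only [sub_mul, mul_assoc] at h2
  rw [integral_sub (cont_mul_intT hg.cont hf) ((cont_mul_intT hρ.cont hf).const_mul _),
    integral_const_mul] at h2
  simp only [mul_sub]
  rw [integral_sub (cont_mul_intT hg.cont hf) ((hi hg.cont).mul_const _), integral_mul_const, h2]

theorem ibp_ac {T : ℝ} (hT : 0 < T) {W w φ : ℝ → ℝ} (hW : AbsolutelyContinuousOnInterval W 0 T)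
    (hw : ∀ᵐ t ∂(volume.restrict (Ioo 0 T)), HasDerivAt W (w t) t) (hφ : Test1 T φ) :
    ∫ t in Ioo 0 T, deriv φ t * W t = -∫ t in Ioo 0 T, φ t * w t := by
  have h1 : AbsolutelyContinuousOnInterval φ 0 T :=
    (hφ.1.of_le (by simp)).contDiffOn.absolutelyContinuousOnInterval
  have h2 := h1.integral_mul_deriv_eq_deriv_mul hW
  obtain ⟨-, a, b, ha, hb, hz⟩ := hφ
  rw [hz 0 fun hm => by linarith [hm.1], hz T fun hm => by linarith [hm.2],
    intervalIntegral.integral_of_le hT.le, intervalIntegral.integral_of_le hT.le,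
    integral_Ioc_eq_integral_Ioo, integral_Ioc_eq_integral_Ioo] at h2
  have h3 : ∫ t in Ioo 0 T, φ t * w t = ∫ t in Ioo 0 T, φ t * deriv W t := by
    refine integral_congr_ae ?_
    filter_upwards [hw] with t ht
    rw [ht.deriv]
  rw [h3, h2]
  ring

theorem ac_comp {T : ℝ} {W b : ℝ → ℝ} {L : ℝ} (hW : AbsolutelyContinuousOnInterval W 0 T)
    (hb : ∀ x y, |b x - b y| ≤ L * |x - y|) :
    AbsolutelyContinuousOnInterval (fun t => b (W t)) 0 T := by
  unfold AbsolutelyContinuousOnInterval at *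
  refine squeeze_zero (fun E => Finset.sum_nonneg fun _ _ => dist_nonneg) (fun E => ?_)
    (by simpa using hW.const_mul L)
  rw [Finset.mul_sum]
  exact Finset.sum_le_sum fun i _ => hb _ _

/-- Chain rule for weak derivatives in one variable. -/
theorem weak_chain {T : ℝ} {f g b τ : ℝ → ℝ} {L : ℝ}
    (hf : Integrable f (volume.restrict (Ioo 0 T))) (hg : Integrable g (volume.restrict (Ioo 0 T)))
    (h : ∀ φ, Test1 T φ → ∫ t in Ioo 0 T, deriv φ t * f t = ∫ t in Ioo 0 T, φ t * g t)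
    (hb : ∀ s, HasDerivAt b (τ s) s) (hL : ∀ s, |τ s| ≤ L) {φ : ℝ → ℝ} (hφ : Test1 T φ) :
    ∫ t in Ioo 0 T, deriv φ t * b (f t) = ∫ t in Ioo 0 T, φ t * (τ (f t) * g t) := by
  rcases le_or_gt T 0 with hT | hT
  · simp [Ioo_eq_empty_of_le hT]
  have hgi : IntervalIntegrable g volume 0 T := by
    rw [intervalIntegrable_iff_integrableOn_Ioo_of_le hT.le]
    exact hg
  obtain ⟨F, hF⟩ : ∃ F : ℝ → ℝ, F = fun t => ∫ s in (0 : ℝ)..t, g s := ⟨_, rfl⟩
  have hac : AbsolutelyContinuousOnInterval F 0 T :=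
    hF ▸ hgi.absolutelyContinuousOnInterval_intervalIntegral left_mem_uIcc
  have hder : ∀ᵐ t ∂(volume.restrict (Ioo 0 T)), HasDerivAt F (g t) t := by
    rw [ae_restrict_iff' measurableSet_Ioo, hF]
    filter_upwards [hgi.ae_hasDerivAt_integral] with t ht hm
    exact ht (by rw [uIcc_of_le hT.le]; exact Ioo_subset_Icc_self hm) 0 left_mem_uIcc
  have hFi : Integrable F (volume.restrict (Ioo 0 T)) := by
    have := hac.continuousOn.integrableOn_compact (μ := volume) isCompact_uIcc
    rw [uIcc_of_le hT.le] at this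
    exact this.mono_set Ioo_subset_Icc_self
  obtain ⟨c, hc⟩ := ae_const_of_test (f := fun t => f t + F t) (hf.add hFi) fun ψ hψ => by
    simp only [mul_add]
    rw [integral_add (cont_mul_intT hψ.cont_deriv hf) (cont_mul_intT hψ.cont_deriv hFi), h ψ hψ,
      ibp_ac hT hac hder hψ]
    ring
  have hlip : ∀ x y, |b x - b y| ≤ L * |x - y| := fun x y =>
    Convex.norm_image_sub_le_of_norm_hasDerivWithin_le (s := univ)
      (fun s _ => (hb s).hasDerivWithinAt) (fun s _ => hL s) convex_univ (mem_univ y) (mem_univ x)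
  have hac2 : AbsolutelyContinuousOnInterval (fun t => b (c - F t)) 0 T :=
    ac_comp (b := fun s => b (c - s)) (L := L) hac fun x y => by
      refine (hlip _ _).trans (le_of_eq ?_)
      rw [sub_sub_sub_cancel_left, abs_sub_comm]
  have h3 := ibp_ac hT hac2 (w := fun t => τ (c - F t) * -g t) (by
    filter_upwards [hder] with t ht
    exact (hb _).comp t (ht.const_sub c)) hφ
  calc _ = ∫ t in Ioo 0 T, deriv φ t * b (c - F t) := by
        refine integral_congr_ae ?_
        filter_upwards [hc] with t ht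
        rw [← ht, add_sub_cancel_right]
    _ = _ := by
        rw [h3, ← integral_neg]
        refine integral_congr_ae ?_
        filter_upwards [hc] with t ht
        rw [← ht, add_sub_cancel_right]
        ring

end Pool.Agent.Lib.MP_fea353_an
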