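import Pool.Agent.Lib.MP_fea353_an.Tri

set_option autoImplicit false

namespace Pool.Agent.Lib.MP_fea353_an

open Filter Topology
open scoped ComplexConjugate

/-- Japanese bracket. -/
noncomputable def JJ (k : Fin 3 → ℤ) : ℝ := √(1 + qq k)

/-- Vertical Japanese bracket. -/
noncomputable def J3 (k : Fin 3 → ℤ) : ℝ := √(1 + (k 2 : ℝ) ^ 2)

theorem JJ_sq (k : Fin 3 → ℤ) : JJ k ^ 2 = 1 + qq k := Real.sq_sqrt (by linarith [qq_nonneg k])

theorem one_le_JJ (k : Fin 3 → ℤ) : 1 ≤ JJ k := Real.one_le_sqrt.2 (by linarith [qq_nonneg k])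

theorem one_le_J3 (k : Fin 3 → ℤ) : 1 ≤ J3 k := Real.one_le_sqrt.2 (by nlinarith [sq_nonneg (k 2 : ℝ)])

theorem sq_le_qq (k : Fin 3 → ℤ) (j : Fin 3) : (k j : ℝ) ^ 2 ≤ qq k :=
  Finset.single_le_sum (f := fun j => (k j : ℝ) ^ 2) (fun _ _ => sq_nonneg _) (Finset.mem_univ j)

theorem abs_le_JJ (k : Fin 3 → ℤ) (j : Fin 3) : |(k j : ℝ)| ≤ JJ k :=
  Real.abs_le_sqrt (by linarith [sq_le_qq k j])

theorem J3_le_JJ (k : Fin 3 → ℤ) : J3 k ≤ JJ k := Real.sqrt_le_sqrt (by linarith [sq_le_qq k 2])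

theorem J3_le (k : Fin 3 → ℤ) : J3 k ≤ 1 + |(k 2 : ℝ)| := by
  refine Real.sqrt_le_iff.2 ⟨by positivity, ?_⟩
  rw [← sq_abs (k 2 : ℝ)]
  nlinarith [abs_nonneg (k 2 : ℝ)]

theorem JJ_rpow_sq (k : Fin 3 → ℤ) (x : ℝ) : (JJ k ^ x) ^ 2 = (1 + qq k) ^ x := by
  have h : 0 ≤ JJ k := by linarith [one_le_JJ k]
  rw [← JJ_sq, ← Real.rpow_two, ← Real.rpow_two, ← Real.rpow_mul h, ← Real.rpow_mul h, mul_comm]

theorem JJ_tri {k l m : Fin 3 → ℤ} (h : qq k ≤ 2 * qq l + 2 * qq m) :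
    JJ k ≤ 2 * max (JJ l) (JJ m) := by
  have h1 := one_le_JJ l
  have h2 := one_le_JJ m
  have h3 : JJ l ≤ max (JJ l) (JJ m) := le_max_left _ _
  have h4 : JJ m ≤ max (JJ l) (JJ m) := le_max_right _ _
  refine (abs_le_of_sq_le_sq' ?_ (by linarith)).2
  have h5 : JJ l ^ 2 ≤ max (JJ l) (JJ m) ^ 2 := by gcongr
  have h6 : JJ m ^ 2 ≤ max (JJ l) (JJ m) ^ 2 := by gcongr
  rw [JJ_sq] at h5 h6
  rw [JJ_sq, mul_pow]
  linarith

theorem qq_tri1 (k m : Fin 3 → ℤ) : qq (k + m) ≤ 2 * qq k + 2 * qq m := by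
  simp only [qq, Fin.sum_univ_three, Pi.add_apply, Int.cast_add]
  nlinarith [sq_nonneg ((k 0 : ℝ) - m 0), sq_nonneg ((k 1 : ℝ) - m 1), sq_nonneg ((k 2 : ℝ) - m 2)]

theorem qq_tri2 (k m : Fin 3 → ℤ) : qq m ≤ 2 * qq k + 2 * qq (k + m) := by
  simp only [qq, Fin.sum_univ_three, Pi.add_apply, Int.cast_add]
  nlinarith [sq_nonneg (2 * (k 0 : ℝ) + m 0), sq_nonneg (2 * (k 1 : ℝ) + m 1),
    sq_nonneg (2 * (k 2 : ℝ) + m 2)]

theorem geom_le {x y t : ℝ} (hx : 0 ≤ x) (hy : 0 ≤ y) (ht : 0 ≤ t) (ht1 : t ≤ 1) :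
    x ^ (1 - t) * y ^ t ≤ x + y := by
  refine (Real.geom_mean_le_arith_mean2_weighted (by linarith) ht hx hy (by ring)).trans ?_
  nlinarith

/-- Interpolated anisotropic weight. -/
theorem weight_le {J y α b t : ℝ} (hJ : 1 ≤ J) (hy : 0 ≤ y) (ht : 0 ≤ t) (ht1 : t ≤ 1) {c : ℝ}
    (hc : c ≤ b * (1 - t) - (1 - α) * t) : J ^ c * y ^ t ≤ J ^ b + J ^ (α - 1) * y := by
  have hJ0 : 0 < J := by linarith
  refine le_trans ?_ (geom_le (by positivity) (by positivity) ht ht1)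
  rw [Real.mul_rpow (by positivity) hy, ← Real.rpow_mul hJ0.le, ← Real.rpow_mul hJ0.le,
    ← mul_assoc, ← Real.rpow_add hJ0]
  gcongr
  linarith

variable {a : Fin 3 → (Fin 3 → ℤ) → ℂ}

theorem vert_le (hd : ∀ k : Fin 3 → ℤ, ∑ j, (k j : ℂ) * a j k = 0) (k : Fin 3 → ℤ) :
    |(k 2 : ℝ)| * ‖a 2 k‖ ≤ JJ k * (‖a 0 k‖ + ‖a 1 k‖) := by
  have h := hd k
  simp only [Fin.sum_univ_three] at h
  have e : ((k 2 : ℝ) : ℂ) * a 2 k = -(((k 0 : ℝ) : ℂ) * a 0 k + ((k 1 : ℝ) : ℂ) * a 1 k) := by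
    push_cast
    linear_combination h
  have h2 := lin2 (abs_le_JJ k 0) (abs_le_JJ k 1) (a 0 k) (a 1 k)
  rw [← norm_neg, ← e, norm_mul, Complex.norm_real, Real.norm_eq_abs] at h2
  exact h2

theorem vert_wt (hd : ∀ k : Fin 3 → ℤ, ∑ j, (k j : ℂ) * a j k = 0) (α : ℝ) (k : Fin 3 → ℤ) :
    JJ k ^ (α - 1) * |(k 2 : ℝ)| * ‖a 2 k‖ ≤ JJ k ^ α * (‖a 0 k‖ + ‖a 1 k‖) := by
  have hJ := one_le_JJ k
  calc _ = JJ k ^ (α - 1) * (|(k 2 : ℝ)| * ‖a 2 k‖) := by ring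
    _ ≤ JJ k ^ (α - 1) * (JJ k * (‖a 0 k‖ + ‖a 1 k‖)) :=
        mul_le_mul_of_nonneg_left (vert_le hd k) (by positivity)
    _ = _ := by rw [← mul_assoc, ← Real.rpow_add_one (by linarith), sub_add_cancel]

theorem SB_Y {α A : ℝ} (h0 : SB (fun k => (1 + qq k) ^ α * ‖a 0 k‖ ^ 2) A)
    (h1 : SB (fun k => (1 + qq k) ^ α * ‖a 1 k‖ ^ 2) A) :
    SB (fun k => (JJ k ^ α * (‖a 0 k‖ + ‖a 1 k‖)) ^ 2) (2 * (A + A)) := by
  refine ((h0.add h1).smul (by norm_num)).mono (fun _ => sq_nonneg _) fun k => ?_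
  rw [mul_pow, JJ_rpow_sq]
  have : 0 ≤ (1 + qq k) ^ α := by have := qq_nonneg k; positivity
  nlinarith [mul_nonneg this (sq_nonneg (‖a 0 k‖ - ‖a 1 k‖))]

theorem SB_YU {α b A : ℝ} (h0 : SB (fun k => (1 + qq k) ^ α * ‖a 0 k‖ ^ 2) A)
    (h1 : SB (fun k => (1 + qq k) ^ α * ‖a 1 k‖ ^ 2) A)
    (h2 : SB (fun k => (1 + qq k) ^ b * ‖a 2 k‖ ^ 2) A) :
    SB (fun k => (JJ k ^ α * (‖a 0 k‖ + ‖a 1 k‖) + JJ k ^ b * ‖a 2 k‖) ^ 2) (10 * A) := by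
  have h := ((SB_Y h0 h1).add h2).smul (c := 2) (by norm_num)
  rw [show 2 * (2 * (A + A) + A) = 10 * A by ring] at h
  refine h.mono (fun _ => sq_nonneg _) fun k => ?_
  rw [← JJ_rpow_sq k b, ← mul_pow]
  nlinarith [sq_nonneg (JJ k ^ α * (‖a 0 k‖ + ‖a 1 k‖) - JJ k ^ b * ‖a 2 k‖)]

/-- Directional regularity of each component. -/
theorem SB_dir (hd : ∀ k : Fin 3 → ℤ, ∑ j, (k j : ℂ) * a j k = 0) {α b γ A : ℝ} (hγ : 0 ≤ γ)
    (hγ1 : γ ≤ 1) (hγa : γ ≤ α) (hγb : (1 - α) * γ ≤ b * (1 - γ))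
    (h0 : SB (fun k => (1 + qq k) ^ α * ‖a 0 k‖ ^ 2) A)
    (h1 : SB (fun k => (1 + qq k) ^ α * ‖a 1 k‖ ^ 2) A)
    (h2 : SB (fun k => (1 + qq k) ^ b * ‖a 2 k‖ ^ 2) A) (i : Fin 3) :
    SB (fun k : Fin 3 → ℤ => |(k i : ℝ)| ^ (2 * γ) * ‖a i k‖ ^ 2) (10 * A) := by
  refine (SB_YU h0 h1 h2).mono (fun _ => by positivity) fun k => ?_
  have hJ := one_le_JJ k
  rw [mul_comm 2 γ, Real.rpow_mul (abs_nonneg _), Real.rpow_two, ← mul_pow]
  refine pow_le_pow_left₀ (by positivity) ?_ 2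
  have hh : ∀ j, |(k j : ℝ)| ^ γ ≤ JJ k ^ α := fun j =>
    (Real.rpow_le_rpow (abs_nonneg _) (abs_le_JJ k j) hγ).trans
      (Real.rpow_le_rpow_of_exponent_le hJ hγa)
  have p0 := norm_nonneg (a 0 k)
  have p1 := norm_nonneg (a 1 k)
  have p2 : 0 ≤ JJ k ^ b * ‖a 2 k‖ := by positivity
  have p3 : 0 ≤ JJ k ^ α := by positivity
  fin_cases i
  · have := mul_le_mul_of_nonneg_right (hh 0) p0
    simp only [Fin.zero_eta]
    nlinarith
  · have := mul_le_mul_of_nonneg_right (hh 1) p1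
    simp only [Fin.mk_one]
    nlinarith
  · have e1 := weight_le (α := α) (b := b) (c := 0) hJ (abs_nonneg (k 2 : ℝ)) hγ hγ1 (by linarith)
    rw [Real.rpow_zero, one_mul] at e1
    have e2 := mul_le_mul_of_nonneg_right e1 (norm_nonneg (a 2 k))
    have e3 := vert_wt hd α k
    simp only [Fin.reduceFinMk]
    nlinarith

theorem Z_le (hd : ∀ k : Fin 3 → ℤ, ∑ j, (k j : ℂ) * a j k = 0) {α b θ c : ℝ} (hθ : 0 ≤ θ)
    (hθ1 : θ ≤ 1) (hb : 0 ≤ b) (hbα : b ≤ α) (hα : α ≤ 1) (hc : c ≤ b * (1 - θ) - (1 - α) * θ)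
    (k : Fin 3 → ℤ) :
    JJ k ^ c * J3 k ^ θ * (‖a 0 k‖ + ‖a 1 k‖ + ‖a 2 k‖)
      ≤ 2 * (JJ k ^ α * (‖a 0 k‖ + ‖a 1 k‖) + JJ k ^ b * ‖a 2 k‖) := by
  have hJ := one_le_JJ k
  have hJ3 := one_le_J3 k
  have e1 : JJ k ^ c * J3 k ^ θ ≤ JJ k ^ α := by
    calc _ ≤ JJ k ^ c * JJ k ^ θ := by gcongr; exact J3_le_JJ k
      _ = JJ k ^ (c + θ) := (Real.rpow_add (by linarith) _ _).symm
      _ ≤ _ := Real.rpow_le_rpow_of_exponent_le hJ (by nlinarith)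
  have e2 := weight_le (α := α) (b := b) hJ (by linarith : 0 ≤ J3 k) hθ hθ1 hc
  have e3 : JJ k ^ (α - 1) * J3 k ≤ JJ k ^ b + JJ k ^ (α - 1) * |(k 2 : ℝ)| := by
    calc _ ≤ JJ k ^ (α - 1) * (1 + |(k 2 : ℝ)|) := by gcongr; exact J3_le k
      _ ≤ _ := by
          rw [mul_add, mul_one]
          gcongr
          linarith
  have e4 := vert_wt hd α k
  have e5 := mul_le_mul_of_nonneg_right e1 (add_nonneg (norm_nonneg (a 0 k)) (norm_nonneg (a 1 k)))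
  have e6 := mul_le_mul_of_nonneg_right (e2.trans (add_le_add le_rfl e3)) (norm_nonneg (a 2 k))
  nlinarith

/-- Horizontal weight. -/
noncomputable def uu (σ : ℝ) (k : Fin 3 → ℤ) : ℝ :=
  (1 + (k 0 : ℝ) ^ 2) ^ (-(σ / 4)) * (1 + (k 1 : ℝ) ^ 2) ^ (-(σ / 4))

theorem JJ_le_uu {σ : ℝ} (hσ : 0 ≤ σ) (k : Fin 3 → ℤ) : JJ k ^ (-σ) ≤ uu σ k := by
  have hq := qq_nonneg k
  have e : JJ k ^ (-σ) = (1 + qq k) ^ (-(σ / 4)) * (1 + qq k) ^ (-(σ / 4)) := by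
    rw [← Real.rpow_add (by linarith), ← JJ_sq, ← Real.rpow_two,
      ← Real.rpow_mul (by linarith [one_le_JJ k])]
    congr 1
    ring
  rw [e, uu]
  refine mul_le_mul ?_ ?_ (by positivity) (by positivity)
  · exact Real.rpow_le_rpow_of_nonpos (by positivity) (by linarith [sq_le_qq k 0]) (by linarith)
  · exact Real.rpow_le_rpow_of_nonpos (by positivity) (by linarith [sq_le_qq k 1]) (by linarith)

theorem exists_SB_uw {σ θ : ℝ} (hσ : 1 < σ) (hθ : 1 / 2 < θ) :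
    ∃ S, SB (fun k => (uu σ k * J3 k ^ (-θ)) ^ 2) S := by
  obtain ⟨S1, h1⟩ := exists_SB_int (r := σ / 2) (by linarith)
  obtain ⟨S2, h2⟩ := exists_SB_int hθ
  have h3 := h1.prod h1 (fun z : ℤ × ℤ => z.1) (fun z => z.2) fun _ _ => Prod.ext
  have h4 := h3.prod h2 (fun k : Fin 3 → ℤ => (k 0, k 1)) (fun k => k 2) fun z z' h h' => by
    ext j
    fin_cases j
    · exact congrArg Prod.fst h
    · exact congrArg Prod.snd h
    · exact h'
  refine ⟨_, h4.mono (fun _ => sq_nonneg _) fun k => le_of_eq ?_⟩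
  have e : ∀ (x r : ℝ), 0 ≤ x → (x ^ r) ^ 2 = x ^ (2 * r) := fun x r hx => by
    rw [← Real.rpow_two, ← Real.rpow_mul hx, mul_comm]
  rw [uu, mul_pow, mul_pow, e _ _ (by positivity), e _ _ (by positivity),
    e _ _ (by linarith [one_le_J3 k]), Real.rpow_mul (by linarith [one_le_J3 k] : 0 ≤ J3 k),
    Real.rpow_two, J3,
    Real.sq_sqrt (by positivity), show 2 * -(σ / 4) = -(σ / 2) by ring]

theorem term_le (hd : ∀ k : Fin 3 → ℤ, ∑ j, (k j : ℂ) * a j k = 0) {α c s θ : ℝ} (hα0 : 0 ≤ α)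
    (hα : α ≤ 1) (hc0 : 0 ≤ c) (hc : c ≤ 1) (hac : 1 ≤ α + c) (hs : s ≤ 1) (k m : Fin 3 → ℤ) :
    JJ k ^ (s - 2) * ‖(∑ i, (k i : ℂ) * conj (a i m)) * ∑ j, (k j : ℂ) * a j (k + m)‖
      ≤ 9 * ((uu (α + c - s) k + uu (α + c - s) (k + m) + uu (α + c - s) m)
        * (J3 (k + m) ^ (-θ) * (JJ m ^ α * (‖a 0 m‖ + ‖a 1 m‖)) * (JJ (k + m) ^ c
          * J3 (k + m) ^ θ * (‖a 0 (k + m)‖ + ‖a 1 (k + m)‖ + ‖a 2 (k + m)‖)))
        + (uu (α + c - s) k + uu (α + c - s) m + uu (α + c - s) (k + m))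
        * (J3 m ^ (-θ) * (JJ (k + m) ^ α * (‖a 0 (k + m)‖ + ‖a 1 (k + m)‖)) * (JJ m ^ c
          * J3 m ^ θ * (‖a 0 m‖ + ‖a 1 m‖ + ‖a 2 m‖)))) := by
  have hK := one_le_JJ k
  have hL := one_le_JJ (k + m)
  have hM := one_le_JJ m
  have t1 := JJ_tri (qq_tri1 k m)
  have t2 := JJ_tri (qq_tri2 k m)
  have t3 : JJ k ≤ 2 * (JJ (k + m) + JJ m) := by
    have := JJ_tri (qq_tri2 m k)
    rw [add_comm m k] at this
    refine this.trans (mul_le_mul_of_nonneg_left (max_le (by linarith) (by linarith)) (by norm_num))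
  have hx : ∑ j, (((m j : ℝ)) : ℂ) * conj (a j m) = 0 := by
    have := congrArg (starRingEnd ℂ) (hd m)
    simpa using this
  have hy : ∑ j, ((((k + m) j : ℝ)) : ℂ) * a j (k + m) = 0 := by simpa using hd (k + m)
  have n1 := null_bound (k := fun j => (k j : ℝ)) (l := fun j => ((k + m) j : ℝ))
    (m := fun j => (m j : ℝ)) (fun j => by simp) hx hy (abs_le_JJ k) (abs_le_JJ (k + m))
    (abs_le_JJ m) t3
  simp only [Complex.ofReal_intCast, Complex.norm_conj] at n1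
  have m1 := mult (s := s) hK hL hM t1 t2 hα0 hα hc0 hc hac hs
  have m2 := mult (s := s) hK hM hL t2 t1 hα0 hα hc0 hc hac hs
  rw [add_comm (JJ m), mul_comm (JJ m)] at m2
  have u1 := JJ_le_uu (σ := α + c - s) (by linarith) k
  have u2 := JJ_le_uu (σ := α + c - s) (by linarith) (k + m)
  have u3 := JJ_le_uu (σ := α + c - s) (by linarith) m
  rw [show -(α + c - s) = s - α - c by ring] at u1 u2 u3
  have w1 : ∀ l, J3 l ^ (-θ) * J3 l ^ θ = 1 := fun l => by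
    rw [← Real.rpow_add (by linarith [one_le_J3 l])]
    simp
  generalize ‖(∑ i, (k i : ℂ) * conj (a i m)) * ∑ j, (k j : ℂ) * a j (k + m)‖ = W at *
  have q1 : 0 ≤ (‖a 0 m‖ + ‖a 1 m‖) * (‖a 0 (k + m)‖ + ‖a 1 (k + m)‖ + ‖a 2 (k + m)‖) := by
    positivity
  have q2 : 0 ≤ (‖a 0 m‖ + ‖a 1 m‖ + ‖a 2 m‖) * (‖a 0 (k + m)‖ + ‖a 1 (k + m)‖) := by positivity
  have m1' := m1.trans (mul_le_mul_of_nonneg_right (mul_le_mul_of_nonneg_left
    (add_le_add (add_le_add u1 u2) u3) (by norm_num)) (by positivity))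
  have m2' := m2.trans (mul_le_mul_of_nonneg_right (mul_le_mul_of_nonneg_left
    (add_le_add (add_le_add u1 u3) u2) (by norm_num)) (by positivity))
  have f0 := mul_le_mul_of_nonneg_left n1 (by positivity : 0 ≤ JJ k ^ (s - 2))
  have f1 := mul_le_mul_of_nonneg_right m1' q1
  have f2 := mul_le_mul_of_nonneg_right m2' q2
  have g1 := w1 (k + m)
  have g2 := w1 m
  linear_combination f0 + 3 * f1 + 3 * f2
    - 9 * (uu (α + c - s) k + uu (α + c - s) (k + m) + uu (α + c - s) m)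
      * (JJ m ^ α * JJ (k + m) ^ c * ((‖a 0 m‖ + ‖a 1 m‖)
        * (‖a 0 (k + m)‖ + ‖a 1 (k + m)‖ + ‖a 2 (k + m)‖))) * g1
    - 9 * (uu (α + c - s) k + uu (α + c - s) (k + m) + uu (α + c - s) m)
      * (JJ (k + m) ^ α * JJ m ^ c * ((‖a 0 m‖ + ‖a 1 m‖ + ‖a 2 m‖)
        * (‖a 0 (k + m)‖ + ‖a 1 (k + m)‖))) * g2

theorem mix_inj {x y x' y' : Fin 3 → ℤ} (h : mix x y = mix x' y') :
    x 0 = x' 0 ∧ x 1 = x' 1 ∧ y 2 = y' 2 :=
  ⟨by simpa [mix] using congrFun h 0, by simpa [mix] using congrFun h 1,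
    by simpa [mix] using congrFun h 2⟩

theorem ext3 {x y : Fin 3 → ℤ} (h0 : x 0 = y 0) (h1 : x 1 = y 1) (h2 : x 2 = y 2) : x = y := by
  ext j
  fin_cases j
  exacts [h0, h1, h2]

/-- The anisotropic pressure estimate. -/
theorem exists_pbound {α b s θ c : ℝ} (hθ : 1 / 2 < θ) (hθ1 : θ ≤ 1) (hb : 0 ≤ b) (hbα : b ≤ α)
    (hα : α ≤ 1) (hc : c ≤ b * (1 - θ) - (1 - α) * θ) (hs0 : 0 < s) (hs : s ≤ 1)
    (hσ : 1 < α + c - s) (A : ℝ) : ∃ C : ℝ,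
    ∀ (a : Fin 3 → (Fin 3 → ℤ) → ℂ) (P : (Fin 3 → ℤ) → ℂ),
      (∀ k : Fin 3 → ℤ, ∑ j, (k j : ℂ) * a j k = 0) →
      (∀ k : Fin 3 → ℤ, HasSum (fun m => (∑ i, (k i : ℂ) * conj (a i m))
        * ∑ j, (k j : ℂ) * a j (k + m)) (-(qq k : ℂ) * P k)) →
      SB (fun k => (1 + qq k) ^ α * ‖a 0 k‖ ^ 2) A → SB (fun k => (1 + qq k) ^ α * ‖a 1 k‖ ^ 2) A →
      SB (fun k => (1 + qq k) ^ b * ‖a 2 k‖ ^ 2) A →
      ∀ i : Fin 3, SB (fun k : Fin 3 → ℤ => |(k i : ℝ)| ^ (2 * s) * ‖P k‖ ^ 2) C := by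
  classical
  obtain ⟨S, hS⟩ := exists_SB_uw hσ hθ
  have hS0 := hS.nonneg
  obtain ⟨η, hη⟩ : ∃ η, η = 72 * (80 * |A| + S) + 1 := ⟨_, rfl⟩
  have hη0 : 0 < η := by rw [hη]; positivity
  refine ⟨72 * (η * (4 * A * S + 4 * A * S + 4 * A * (40 * A))),
    fun a P hd hP h0 h1 h2 i => ⟨fun _ => by positivity, fun U => ?_⟩⟩
  have hA := h0.nonneg
  rw [abs_of_nonneg hA] at hη
  have hY := SB_Y h0 h1
  rw [show 2 * (A + A) = 4 * A by ring] at hY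
  have hZ : SB (fun k => (JJ k ^ c * J3 k ^ θ * (‖a 0 k‖ + ‖a 1 k‖ + ‖a 2 k‖)) ^ 2) (40 * A) := by
    have := (SB_YU h0 h1 h2).smul (c := 4) (by norm_num)
    rw [show 4 * (10 * A) = 40 * A by ring] at this
    refine this.mono (fun _ => sq_nonneg _) fun k => ?_
    have hJ := one_le_JJ k
    have hJ3 := one_le_J3 k
    refine (pow_le_pow_left₀ (by positivity) (Z_le hd (by linarith) hθ1 hb hbα hα hc k) 2).trans
      (le_of_eq (by ring))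
  obtain ⟨X, hX⟩ : ∃ X : (Fin 3 → ℤ) → ℝ,
    X = fun k => if k ∈ U ∧ k ≠ 0 then JJ k ^ s * ‖P k‖ else 0 := ⟨_, rfl⟩
  have hX0 : ∀ k, 0 ≤ X k := fun k => by
    have := one_le_JJ k
    rw [hX]
    dsimp only
    split_ifs <;> positivity
  obtain ⟨Q, hQ⟩ : ∃ Q, Q = ∑ k ∈ U, X k ^ 2 := ⟨_, rfl⟩
  have hXQ : SB (fun k => X k ^ 2) Q := by
    refine ⟨fun _ => sq_nonneg _, fun V => ?_⟩
    rw [hQ, ← Finset.sum_filter_ne_zero V]
    refine Finset.sum_le_sum_of_subset_of_nonneg (fun k hk => ?_) fun _ _ _ => sq_nonneg _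
    by_contra hn
    have := (Finset.mem_filter.1 hk).2
    simp [hX, hn] at this
  have hu : ∀ x y, uu (α + c - s) (mix x y) = uu (α + c - s) x := fun x y => by simp [uu, mix]
  have hw : ∀ x y, J3 (mix x y) ^ (-θ) = J3 y ^ (-θ) := fun x y => by simp [J3, mix]
  have hu0 : ∀ x, 0 ≤ uu (α + c - s) x := fun x => by unfold uu; positivity
  have hw0 : ∀ x, 0 ≤ J3 x ^ (-θ) := fun x => by have := one_le_J3 x; positivity
  have hY0 : ∀ k, 0 ≤ JJ k ^ α * (‖a 0 k‖ + ‖a 1 k‖) := fun k => by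
    have := one_le_JJ k; positivity
  have hZ0 : ∀ k, 0 ≤ JJ k ^ c * J3 k ^ θ * (‖a 0 k‖ + ‖a 1 k‖ + ‖a 2 k‖) := fun k => by
    have := one_le_JJ k; have := one_le_J3 k; positivity
  have r1 := tri_role (w := fun x => J3 x ^ (-θ)) hη0 hu hw hu0 hw0 hX0 hY0 hZ0 hS hXQ hY hZ
    (fun z : (Fin 3 → ℤ) × (Fin 3 → ℤ) => z.1) (fun z => z.2) (fun z => z.1 + z.2)
    (fun z z' h h' => by
      obtain ⟨e0, e1, e2⟩ := mix_inj h'
      simp only [Pi.add_apply, h, add_left_inj] at e2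
      exact Prod.ext (ext3 e0 e1 e2) h)
    (fun z z' h h' => Prod.ext (by simpa [h] using h') h)
    (fun z z' h h' => Prod.ext h (by simpa [h] using h'))
    (fun z z' h h' => by
      obtain ⟨e0, e1, e2⟩ := mix_inj h'
      simp only [Pi.add_apply, h, add_right_inj] at e2
      exact Prod.ext h (ext3 e0 e1 e2))
  have r2 := tri_role (w := fun x => J3 x ^ (-θ)) hη0 hu hw hu0 hw0 hX0 hY0 hZ0 hS hXQ hY hZ
    (fun z : (Fin 3 → ℤ) × (Fin 3 → ℤ) => z.1) (fun z => z.1 + z.2) (fun z => z.2)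
    (fun z z' h h' => by
      obtain ⟨e0, e1, e2⟩ := mix_inj h'
      have g0 := congrFun h 0
      have g1 := congrFun h 1
      have g2 := congrFun h 2
      simp only [Pi.add_apply] at g0 g1 g2
      exact Prod.ext (ext3 e0 e1 (by omega)) (ext3 (by omega) (by omega) e2))
    (fun z z' h h' => Prod.ext (by simpa [h'] using h) h')
    (fun z z' h h' => Prod.ext h h')
    (fun z z' h h' => by
      obtain ⟨e0, e1, e2⟩ := mix_inj h'
      simp only [Pi.add_apply, h, add_right_inj] at e0 e1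
      exact Prod.ext h (ext3 e0 e1 e2))
  have r3 := (r1.add r2).smul (c := 18) (by norm_num)
  have key : ∑ k ∈ U, 2 * X k * JJ k ^ (s - 2) * ‖-(qq k : ℂ) * P k‖ ≤ 18 *
      (η * (4 * A * S + 4 * A * S + 4 * A * (40 * A)) + 1 / η * (Q * (40 * A) + Q * (40 * A) + Q * S)
      + (η * (4 * A * S + 4 * A * S + 4 * A * (40 * A))
        + 1 / η * (Q * (40 * A) + Q * (40 * A) + Q * S))) := by
    have hlim := tendsto_finsetSum U fun k _ =>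
      ((show Tendsto (fun V : Finset (Fin 3 → ℤ) => ∑ m ∈ V, (∑ i, (k i : ℂ) * conj (a i m))
        * ∑ j, (k j : ℂ) * a j (k + m)) atTop _ from hP k).norm).const_mul
        (2 * X k * JJ k ^ (s - 2))
    refine le_of_tendsto' hlim fun V => le_trans ?_ (r3.2 (U ×ˢ V))
    rw [Finset.sum_product]
    refine Finset.sum_le_sum fun k _ => ?_
    have hJ := one_le_JJ k
    have hXk := hX0 k
    refine (mul_le_mul_of_nonneg_left (norm_sum_le _ _) (by positivity)).trans ?_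
    rw [Finset.mul_sum]
    refine Finset.sum_le_sum fun m _ => ?_
    have := mul_le_mul_of_nonneg_left (term_le (θ := θ) (c := c) hd (by linarith) hα (by linarith)
      (by nlinarith) (by linarith) hs k m) (by positivity : 0 ≤ 2 * X k)
    dsimp only
    linear_combination this
  have hQ1 : Q ≤ ∑ k ∈ U, 2 * X k * JJ k ^ (s - 2) * ‖-(qq k : ℂ) * P k‖ := by
    rw [hQ]
    refine Finset.sum_le_sum fun k hk => ?_
    have hJ := one_le_JJ k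
    by_cases h0 : k = 0
    · simp [hX, h0]
    have hq : 1 ≤ qq k := by
      obtain ⟨j, hj⟩ := Function.ne_iff.1 h0
      have : (1 : ℝ) ≤ (k j : ℝ) ^ 2 := by
        have : (1 : ℤ) ≤ k j ^ 2 := by
          have : k j ≠ 0 := hj
          nlinarith [Int.one_le_abs this, sq_abs (k j)]
        exact_mod_cast this
      exact this.trans (sq_le_qq k j)
    have e1 : X k = JJ k ^ (s - 2) * (1 + qq k) * ‖P k‖ := by
      rw [hX, ← JJ_sq, ← Real.rpow_two, ← Real.rpow_add (by linarith)]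
      simp [hk, h0]
    rw [norm_mul, norm_neg, Complex.norm_real, Real.norm_of_nonneg (qq_nonneg k), sq]
    have e2 : X k ≤ 2 * JJ k ^ (s - 2) * (qq k * ‖P k‖) := by
      rw [e1]
      have : 0 ≤ JJ k ^ (s - 2) * ‖P k‖ := by positivity
      nlinarith
    nlinarith [mul_le_mul_of_nonneg_left e2 (hX0 k)]
  have hQ0 := hXQ.nonneg
  have hQ2 : 36 * (1 / η * (Q * (40 * A) + Q * (40 * A) + Q * S)) ≤ Q / 2 := by
    rw [one_div, inv_mul_eq_div, ← mul_div_assoc, div_le_iff₀ hη0, hη]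
    nlinarith
  have hQ3 : Q ≤ 72 * (η * (4 * A * S + 4 * A * S + 4 * A * (40 * A))) := by linarith
  refine le_trans ?_ hQ3
  rw [hQ]
  refine Finset.sum_le_sum fun k hk => ?_
  by_cases h0 : k = 0
  · simp [h0, Real.zero_rpow (by positivity : 2 * s ≠ 0), sq_nonneg]
  · have e1 : X k = JJ k ^ s * ‖P k‖ := by simp [hX, hk, h0]
    rw [e1, mul_pow, JJ_rpow_sq]
    exact mul_le_mul_of_nonneg_right (dir_le hs0.le i k) (by positivity)

end Pool.Agent.Lib.MP_fea353_an
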