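import Pool.Agent.Lib.MP_fea353_an.Slice

set_option autoImplicit false

namespace Pool.Agent.Lib.MP_fea353_an

open MeasureTheory Set UnitAddTorus Filter Topology
open scoped ContDiff ENNReal ComplexConjugate

theorem norm_fc_conv_KK {f : T3 → ℝ} (hf : Integrable f mu) (N : ℕ) (k : Fin 3 → ℤ) :
    ‖fc (conv (KK N) f) k‖ ≤ ‖fc f k‖ := by
  rw [fc_conv (cont_KK N) hf, norm_mul]
  exact mul_le_of_le_one_left (norm_nonneg _) (norm_fc_KK N k)

theorem int_sq_conv_le {f : T3 → ℝ} (hf : MemLp f 2 mu) (N : ℕ) :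
    ∫ x, conv (KK N) f x ^ 2 ∂mu ≤ ∫ x, f x ^ 2 ∂mu := by
  have hi : Integrable f mu := hf.integrable (by norm_num)
  refine hasSum_le (fun k => ?_) (hasSum_sq (cont_memLp (cont_conv (cont_KK N) hi) 2))
    (hasSum_sq hf)
  exact pow_le_pow_left₀ (norm_nonneg _) (norm_fc_conv_KK hi N k) 2

theorem int_sq_le_hs {s : ℝ} (hs : 0 ≤ s) {f : T3 → ℝ} (hf : MemLp f 2 mu)
    (h : Summable (hterm s f)) : ∫ x, f x ^ 2 ∂mu ≤ ∑' k, hterm s f k :=
  hasSum_le (fun k => le_mul_of_one_le_left (by positivity) (one_le_wt hs k)) (hasSum_sq hf)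
    h.hasSum

/-- Terms of the directional Sobolev seminorm. -/
noncomputable def dterm (s : ℝ) (i : Fin 3) (f : T3 → ℝ) (k : Fin 3 → ℤ) : ℝ :=
  |(k i : ℝ)| ^ (2 * s) * ‖fc f k‖ ^ 2

theorem dterm_nonneg (s : ℝ) (i : Fin 3) (f : T3 → ℝ) (k : Fin 3 → ℤ) : 0 ≤ dterm s i f k := by
  unfold dterm
  positivity

theorem dterm_le {s : ℝ} (hs : 0 ≤ s) (i : Fin 3) (f : T3 → ℝ) (k : Fin 3 → ℤ) :
    dterm s i f k ≤ hterm s f k :=
  mul_le_mul_of_nonneg_right (dir_le hs i k) (by positivity)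

theorem exists_press {β : ℝ} (hβ : 0 < β) (hβ1 : β < 1) : ∃ C : ℝ, 0 ≤ C ∧
    ∀ (i : Fin 3) (f p : T3 → ℝ) (N : ℕ) (e : ℝ), 0 < e → MemLp f 2 mu → Integrable p mu →
      Summable (dterm β i f) → Summable (dterm (1 - β) i p) → ∀ S : Finset (Fin 3 → ℤ),
      |∫ x, GG e (conv (KK N) f x) * conv (dK N i) p x ∂mu|
        ≤ 7 * (e * (∫ x, f x ^ 2 ∂mu) * ∑ k ∈ S, |(k i : ℝ)| * ‖fc p k‖
          + √(C * ∑' k, dterm β i f k)
            * √(∑' k, dterm (1 - β) i p k - ∑ k ∈ S, dterm (1 - β) i p k)) := by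
  obtain ⟨C, hC0, hC⟩ := exists_comp hβ hβ1
  refine ⟨C, hC0, fun i f p N e he hf hp hsf hsp S => ?_⟩
  have hi : Integrable f mu := hf.integrable (by norm_num)
  have c1 := cont_conv (cont_KK N) hi
  have c2 := cont_conv (cont_dK N i) hp
  obtain ⟨F, hF⟩ : ∃ F : T3 → ℝ, F = fun x => GG e (conv (KK N) f x) := ⟨_, rfl⟩
  have cF : Continuous F := by rw [hF]; fun_prop
  obtain ⟨A, hA⟩ : ∃ A, A = ∑' k, dterm β i f k := ⟨_, rfl⟩
  obtain ⟨B, hB⟩ : ∃ B, B = ∑' k, dterm (1 - β) i p k := ⟨_, rfl⟩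
  obtain ⟨V, hV⟩ : ∃ V, V = ∫ x, f x ^ 2 ∂mu := ⟨_, rfl⟩
  rw [← hA, ← hB, ← hV]
  have hle : ∀ k : Fin 3 → ℤ, |(k i : ℝ)| ^ (2 * β) * ‖fc (conv (KK N) f) k‖ ^ 2
      ≤ dterm β i f k :=
    fun k => mul_le_mul_of_nonneg_left
      (pow_le_pow_left₀ (norm_nonneg _) (norm_fc_conv_KK hi N k) 2) (by positivity)
  have hsu := hsf.of_nonneg_of_le (fun k => by positivity) hle
  have hFA : ∀ U : Finset (Fin 3 → ℤ), ∑ k ∈ U, |(k i : ℝ)| ^ (2 * β) * ‖fc F k‖ ^ 2 ≤ C * A := by
    intro U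
    refine (hC i (conv (KK N) f) F _ (cont_memLp c1 2) (cont_memLp cF 2)
      (fun x y => by rw [hF]; exact GG_lip he _ _) hsu.hasSum U).trans ?_
    exact mul_le_mul_of_nonneg_left (hA ▸ hsu.tsum_le_tsum hle hsf) hC0
  have hF1 : ∀ k, ‖fc F k‖ ≤ e * V := by
    intro k
    refine (norm_fc_le F k).trans ?_
    calc ∫ x, |F x| ∂mu ≤ ∫ x, e * conv (KK N) f x ^ 2 ∂mu :=
          integral_mono (cont_int (by fun_prop)) (cont_int (by fun_prop)) fun x => by
            rw [hF]; exact abs_GG_le he _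
      _ ≤ e * V := by
          rw [integral_const_mul, hV]
          exact mul_le_mul_of_nonneg_left (int_sq_conv_le hf N) he.le
  have hP := hasSum_prod (cont_memLp cF 2) (cont_memLp c2 2)
  have hterm_le : ∀ k, ‖conj (fc F k) * fc (conv (dK N i) p) k‖
      ≤ 7 * (‖fc F k‖ * (|(k i : ℝ)| * ‖fc p k‖)) := by
    intro k
    rw [fc_conv (cont_dK N i) hp, fc_pd (hasPD_KK N i) (cont_KK N) (cont_dK N i)]
    simp only [norm_mul, Complex.norm_conj, Complex.norm_I, Complex.norm_real, Complex.norm_ofNat,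
      Complex.norm_intCast, Real.norm_eq_abs, abs_of_pos Real.pi_pos]
    calc _ ≤ ‖fc F k‖ * (2 * 3.15 * 1 * |(k i : ℝ)| * 1 * ‖fc p k‖) := by
          gcongr
          · exact Real.pi_lt_d2.le
          · exact norm_fc_KK N k
      _ ≤ _ := by
          nlinarith [mul_nonneg (norm_nonneg (fc F k))
            (mul_nonneg (abs_nonneg (k i : ℝ)) (norm_nonneg (fc p k)))]
  have hfin : ∀ U : Finset (Fin 3 → ℤ), ∑ k ∈ U, ‖fc F k‖ * (|(k i : ℝ)| * ‖fc p k‖)
      ≤ e * V * ∑ k ∈ S, |(k i : ℝ)| * ‖fc p k‖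
        + √(C * A) * √(B - ∑ k ∈ S, dterm (1 - β) i p k) := by
    intro U
    classical
    calc _ ≤ ∑ k ∈ S ∪ (U \ S), ‖fc F k‖ * (|(k i : ℝ)| * ‖fc p k‖) :=
          Finset.sum_le_sum_of_subset_of_nonneg
            (by rw [Finset.union_sdiff_self_eq_union]; exact Finset.subset_union_right)
            fun _ _ _ => by positivity
      _ ≤ _ := by
          rw [Finset.sum_union Finset.disjoint_sdiff, Finset.mul_sum]
          refine add_le_add (Finset.sum_le_sum fun k _ =>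
            mul_le_mul_of_nonneg_right (hF1 k) (by positivity)) ?_
          have e1 : ∀ k : Fin 3 → ℤ, ‖fc F k‖ * (|(k i : ℝ)| * ‖fc p k‖)
              = (|(k i : ℝ)| ^ β * ‖fc F k‖) * (|(k i : ℝ)| ^ (1 - β) * ‖fc p k‖) := by
            intro k
            have : |(k i : ℝ)| ^ β * |(k i : ℝ)| ^ (1 - β) = |(k i : ℝ)| := by
              rw [← Real.rpow_add' (abs_nonneg _) (by norm_num)]
              simp
            linear_combination (-(‖fc F k‖ * ‖fc p k‖)) * this
          have e2 : ∀ (s : ℝ) (k : Fin 3 → ℤ) (w : ℝ), (|(k i : ℝ)| ^ s * w) ^ 2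
              = |(k i : ℝ)| ^ (2 * s) * w ^ 2 := by
            intro s k w
            rw [mul_pow, mul_comm 2 s, Real.rpow_mul (abs_nonneg _), Real.rpow_two]
          simp only [e1]
          refine (Real.sum_mul_le_sqrt_mul_sqrt _ _ _).trans ?_
          simp only [e2]
          gcongr
          · exact hFA _
          · rw [le_sub_iff_add_le']
            calc _ = ∑ k ∈ S, dterm (1 - β) i p k + ∑ k ∈ U \ S, dterm (1 - β) i p k := rfl
              _ ≤ B := by
                  rw [← Finset.sum_union Finset.disjoint_sdiff, hB]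
                  exact hsp.sum_le_tsum _ fun k _ => dterm_nonneg _ _ _ _
  have hlim := (show Tendsto (fun U : Finset (Fin 3 → ℤ) =>
    ∑ k ∈ U, conj (fc F k) * fc (conv (dK N i) p) k) atTop _ from hP).norm
  rw [Complex.norm_real, Real.norm_eq_abs, hF] at hlim
  refine le_of_tendsto' hlim fun U => (norm_sum_le _ _).trans ?_
  rw [← hF]
  refine (Finset.sum_le_sum fun k _ => hterm_le k).trans ?_
  rw [← Finset.mul_sum]
  exact mul_le_mul_of_nonneg_left (hfin U) (by norm_num)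

theorem exists_RR {β : ℝ} (hβ : 0 < β) (hβ1 : β < 1) : ∃ C : ℝ, 0 ≤ C ∧
    ∀ (v : Fin 3 → T3 → ℝ) (p : T3 → ℝ), (∀ i, MemLp (v i) 2 mu) → Integrable p mu →
      (∀ i, Summable (dterm β i (v i))) → (∀ i, Summable (dterm (1 - β) i p)) →
      (∀ (N : ℕ) (e A B : ℝ), 0 < e → (∀ i, ∑' k, dterm β i (v i) k ≤ A) →
        (∀ i, √(∑' k, dterm (1 - β) i p k) ≤ B) → |RR N e v p| ≤ C * √A * B) ∧
      ∀ (N : ℕ → ℕ) (e : ℕ → ℝ), (∀ m, 0 < e m) → Tendsto e atTop (𝓝 0) →
        Tendsto (fun m => RR (N m) (e m) v p) atTop (𝓝 0) := by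
  obtain ⟨C, hC0, hC⟩ := exists_press hβ hβ1
  refine ⟨21 * √C, by positivity, fun v p hv hp hsv hsp => ⟨fun N e A B he hA hB => ?_, ?_⟩⟩
  · refine (Finset.abs_sum_le_sum_abs _ _).trans ?_
    calc _ ≤ ∑ i : Fin 3, 7 * (√(C * A) * B) := by
          refine Finset.sum_le_sum fun i _ => ?_
          refine (hC i (v i) p N (2 * e) (by positivity) (hv i) hp (hsv i) (hsp i) ∅).trans ?_
          simp only [Finset.sum_empty, mul_zero, zero_add, sub_zero]
          gcongr
          · exact hA i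
          · exact hB i
      _ = _ := by
          rw [Real.sqrt_mul hC0]
          simp only [Fin.sum_univ_three]
          ring
  · intro N e he he0
    have : (0 : ℝ) = ∑ i : Fin 3, 0 := by simp
    rw [this]
    refine tendsto_finsetSum _ fun i _ => ?_
    rw [Metric.tendsto_nhds]
    intro η hη
    have h1 : Tendsto (fun S : Finset (Fin 3 → ℤ) => 7 * (√(C * ∑' k, dterm β i (v i) k)
        * √(∑' k, dterm (1 - β) i p k - ∑ k ∈ S, dterm (1 - β) i p k))) atTop (𝓝 0) := by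
      have h2 : Tendsto (fun S : Finset (Fin 3 → ℤ) => ∑ k ∈ S, dterm (1 - β) i p k) atTop
          (𝓝 (∑' k, dterm (1 - β) i p k)) := (hsp i).hasSum
      have h3 := (((h2.const_sub (∑' k, dterm (1 - β) i p k)).sqrt).const_mul
        √(C * ∑' k, dterm β i (v i) k)).const_mul 7
      simpa using h3
    obtain ⟨S, hS⟩ := (h1.eventually (gt_mem_nhds (half_pos hη))).exists
    have h4 : Tendsto (fun m => 7 * (2 * e m * (∫ x, v i x ^ 2 ∂mu)
        * ∑ k ∈ S, |(k i : ℝ)| * ‖fc p k‖)) atTop (𝓝 0) := by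
      simpa using (((he0.const_mul 2).mul_const (∫ x, v i x ^ 2 ∂mu)).mul_const
        (∑ k ∈ S, |(k i : ℝ)| * ‖fc p k‖)).const_mul 7
    filter_upwards [h4.eventually (gt_mem_nhds (half_pos hη))] with m hm
    rw [Real.dist_eq, sub_zero]
    have := hC i (v i) p (N m) (2 * e m) (by have := he m; positivity) (hv i) hp (hsv i) (hsp i) S
    linarith

theorem conv_tendsto {f : T3 → ℝ} (hf : MemLp f 2 mu) :
    Tendsto (fun N => ∫ x, (conv (KK N) f x - f x) ^ 2 ∂mu) atTop (𝓝 0) := by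
  have hi : Integrable f mu := hf.integrable (by norm_num)
  have e : ∀ N, ∫ x, (conv (KK N) f x - f x) ^ 2 ∂mu
      = ∑' k, ‖fc (KK N) k - 1‖ ^ 2 * ‖fc f k‖ ^ 2 := by
    intro N
    have c1 := cont_conv (cont_KK N) hi
    have h1 : MemLp (fun x => conv (KK N) f x - f x) 2 mu := (cont_memLp c1 2).sub hf
    rw [← (hasSum_sq h1).tsum_eq]
    congr 1
    ext k
    rw [fc_sub (cont_int c1) hi, fc_conv (cont_KK N) hi, ← mul_pow, ← norm_mul, sub_mul, one_mul]
  simp only [e]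
  have h := tendsto_tsum_of_dominated_convergence (𝓕 := atTop)
    (f := fun (N : ℕ) k => ‖fc (KK N) k - 1‖ ^ 2 * ‖fc f k‖ ^ 2) (g := fun _ => 0)
    ((hasSum_sq hf).summable.mul_left 4) (fun k => ?_) (Eventually.of_forall fun N k => ?_)
  · simpa using h
  · have h1 : Tendsto (fun N : ℕ => ‖fc (KK N) k - 1‖) atTop (𝓝 0) := by
      refine squeeze_zero' (Eventually.of_forall fun _ => norm_nonneg _) ?_
        (tendsto_const_div_atTop_nhds_zero_nat (1 + 8 * ∑ j, (k j : ℝ) ^ 2))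
      filter_upwards [eventually_ge_atTop 1] with N hN using fc_KK_sub hN k
    simpa using (h1.pow 2).mul_const (‖fc f k‖ ^ 2)
  · rw [Real.norm_of_nonneg (by positivity)]
    refine mul_le_mul_of_nonneg_right ?_ (by positivity)
    have : ‖fc (KK N) k - 1‖ ≤ 2 := by
      refine (norm_sub_le _ _).trans ?_
      have := norm_fc_KK N k
      rw [norm_one]
      linarith
    nlinarith [norm_nonneg (fc (KK N) k - 1)]

theorem int_bt_le {f : T3 → ℝ} (hf : MemLp f 2 mu) {e : ℝ} (he : 0 < e) :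
    Integrable (fun x => bt e (f x)) mu := by
  refine (hf.integrable_sq.div_const 2).mono' ((cont_bt e).comp_aestronglyMeasurable hf.1)
    (Eventually.of_forall fun x => ?_)
  rw [Real.norm_of_nonneg (bt_nonneg _ _)]
  exact bt_le he _

theorem EE_one {f : T3 → ℝ} (hf : MemLp f 2 mu) {N : ℕ → ℕ} (hN : Tendsto N atTop atTop)
    {e : ℕ → ℝ} (he : ∀ m, 0 < e m) (he0 : Tendsto e atTop (𝓝 0)) :
    Tendsto (fun m => ∫ x, bt (e m) (conv (KK (N m)) f x) ∂mu) atTop
      (𝓝 (∫ x, f x ^ 2 / 2 ∂mu)) := by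
  have hi : Integrable f mu := hf.integrable (by norm_num)
  have h1 : Tendsto (fun m => ∫ x, bt (e m) (f x) ∂mu) atTop (𝓝 (∫ x, f x ^ 2 / 2 ∂mu)) := by
    refine tendsto_integral_of_dominated_convergence (fun x => f x ^ 2 / 2)
      (fun m => (int_bt_le hf (he m)).1) (hf.integrable_sq.div_const 2)
      (fun m => Eventually.of_forall fun x => ?_)
      (Eventually.of_forall fun x => bt_tendsto he he0 _)
    rw [Real.norm_of_nonneg (bt_nonneg _ _)]
    exact bt_le (he m) _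
  have h2 : Tendsto (fun m => ∫ x, bt (e m) (conv (KK (N m)) f x) ∂mu
      - ∫ x, bt (e m) (f x) ∂mu) atTop (𝓝 0) := by
    rw [Metric.tendsto_nhds]
    intro δ hδ
    obtain ⟨V, hV⟩ : ∃ V, V = ∫ x, f x ^ 2 ∂mu := ⟨_, rfl⟩
    have hV0 : 0 ≤ V := hV ▸ integral_nonneg fun x => sq_nonneg _
    obtain ⟨η, hη⟩ : ∃ η, η = δ / (4 * V + 4) := ⟨_, rfl⟩
    have hη0 : 0 < η := by rw [hη]; positivity
    have hη1 : η * (2 * V) ≤ δ / 2 := by
      rw [hη, div_mul_eq_mul_div, div_le_div_iff₀ (by positivity) (by positivity)]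
      nlinarith
    have h3 := (((conv_tendsto hf).comp hN).div_const η)
    rw [zero_div] at h3
    filter_upwards [h3.eventually (gt_mem_nhds (half_pos hδ))] with m hm
    have c1 := cont_conv (cont_KK (N m)) hi
    have m1 : MemLp (conv (KK (N m)) f) 2 mu := cont_memLp c1 2
    have i1 : Integrable (fun x => (conv (KK (N m)) f x - f x) ^ 2 / η) mu :=
      (m1.sub hf).integrable_sq.div_const _
    have i2 : Integrable (fun x => η * (conv (KK (N m)) f x ^ 2 + f x ^ 2)) mu :=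
      (m1.integrable_sq.add hf.integrable_sq).const_mul _
    rw [Real.dist_eq, sub_zero, ← integral_sub (int_bt_le m1 (he m)) (int_bt_le hf (he m))]
    calc _ ≤ ∫ x, ((conv (KK (N m)) f x - f x) ^ 2 / η
          + η * (conv (KK (N m)) f x ^ 2 + f x ^ 2)) ∂mu :=
          abs_integral_le_integral_abs.trans (integral_mono_of_nonneg
            (Eventually.of_forall fun y => abs_nonneg _) (i1.add i2)
            (Eventually.of_forall fun x => bt_sub_le (he m) hη0 _ _))
      _ < δ / 2 + δ / 2 := by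
          rw [integral_add i1 i2, integral_div, integral_const_mul,
            integral_add m1.integrable_sq hf.integrable_sq]
          refine add_lt_add_of_lt_of_le hm (le_trans ?_ hη1)
          have := int_sq_conv_le hf (N m)
          gcongr
          linarith
      _ = δ := by ring
  simpa using h2.add h1

theorem energy_eq {v : Fin 3 → T3 → ℝ} (hv : ∀ i, MemLp (v i) 2 mu) :
    energy (fun x i => v i x) = ∑ i, ∫ x, v i x ^ 2 / 2 ∂mu := by
  unfold energy
  rw [integral_finsetSum _ fun i _ => (hv i).integrable_sq, Finset.mul_sum]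
  refine Finset.sum_congr rfl fun i _ => ?_
  rw [integral_div]
  ring

theorem EE_tendsto {v : Fin 3 → T3 → ℝ} (hv : ∀ i, MemLp (v i) 2 mu) {N : ℕ → ℕ}
    (hN : Tendsto N atTop atTop) {e : ℕ → ℝ} (he : ∀ m, 0 < e m) (he0 : Tendsto e atTop (𝓝 0)) :
    Tendsto (fun m => EE (N m) (e m) v) atTop (𝓝 (energy fun x i => v i x)) := by
  rw [energy_eq hv]
  exact tendsto_finsetSum _ fun i _ => EE_one (hv i) hN he he0

theorem EE_le {v : Fin 3 → T3 → ℝ} (hv : ∀ i, MemLp (v i) 2 mu) (N : ℕ) {e : ℝ} (he : 0 < e)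
    {A : ℝ} (hA : ∀ i, ∫ x, v i x ^ 2 ∂mu ≤ A) : |EE N e v| ≤ 2 * A := by
  have hA0 : 0 ≤ A := le_trans (integral_nonneg fun x => sq_nonneg _) (hA 0)
  rw [EE, abs_of_nonneg (Finset.sum_nonneg fun i _ => integral_nonneg fun x => bt_nonneg _ _)]
  calc _ ≤ ∑ i : Fin 3, A / 2 := by
        refine Finset.sum_le_sum fun i _ => ?_
        have c1 := cont_conv (cont_KK N) ((hv i).integrable (by norm_num))
        calc _ ≤ ∫ x, conv (KK N) (v i) x ^ 2 / 2 ∂mu :=
              integral_mono (cont_int (by fun_prop)) (cont_int (by fun_prop)) fun x => bt_le he _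
          _ ≤ _ := by
              rw [integral_div]
              linarith [int_sq_conv_le (hv i) N, hA i]
    _ ≤ _ := by
        simp only [Fin.sum_univ_three]
        linarith

end Pool.Agent.Lib.MP_fea353_an
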