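import Pool.Agent.Lib.MP_fea353_an.Comp

set_option autoImplicit false

namespace Pool.Agent.Lib.MP_fea353_an

open MeasureTheory Set UnitAddTorus Filter Topology
open scoped ContDiff ENNReal ComplexConjugate

noncomputable def ta (e s : ℝ) : ℝ := Real.sin (e * s) / e
noncomputable def bt (e s : ℝ) : ℝ := ta e s ^ 2 / 2
noncomputable def GG (e s : ℝ) : ℝ := s - ta e s

@[fun_prop] theorem cont_ta (e : ℝ) : Continuous (ta e) := by unfold ta; fun_prop
@[fun_prop] theorem cont_bt (e : ℝ) : Continuous (bt e) := by unfold bt; fun_prop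
@[fun_prop] theorem cont_GG (e : ℝ) : Continuous (GG e) := by unfold GG; fun_prop

theorem hasDerivAt_bt {e : ℝ} (he : 0 < e) (s : ℝ) : HasDerivAt (bt e) (ta (2 * e) s) s := by
  have h1 : HasDerivAt (fun s => Real.sin (e * s) / e) (Real.cos (e * s) * (e * 1) / e) s :=
    ((hasDerivAt_id s).const_mul e).sin.div_const e
  have h2 := (h1.fun_pow 2).div_const 2
  refine HasDerivAt.congr_deriv h2 ?_
  rw [ta, mul_assoc 2 e s, Real.sin_two_mul]
  norm_num
  field_simp

theorem abs_ta_le {e : ℝ} (he : 0 < e) (s : ℝ) : |ta e s| ≤ 1 / e := by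
  rw [ta, abs_div, abs_of_pos he]
  gcongr
  exact Real.abs_sin_le_one _

theorem ta_lip {e : ℝ} (he : 0 < e) (a b : ℝ) : |ta e a - ta e b| ≤ |a - b| := by
  rw [ta, ta, ← sub_div, abs_div, abs_of_pos he, div_le_iff₀ he]
  refine (Real.abs_sin_sub_sin_le _ _).trans (le_of_eq ?_)
  rw [← mul_sub, abs_mul, abs_of_pos he, mul_comm]

theorem abs_ta_le' {e : ℝ} (he : 0 < e) (s : ℝ) : |ta e s| ≤ |s| := by
  simpa [ta] using ta_lip he s 0

theorem GG_lip {e : ℝ} (he : 0 < e) (a b : ℝ) : |GG e a - GG e b| ≤ 2 * |a - b| := by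
  have e1 : GG e a - GG e b = (a - b) - (ta e a - ta e b) := by unfold GG; ring
  rw [e1]
  refine (abs_sub _ _).trans ?_
  linarith [ta_lip he a b]

theorem abs_sub_sin (x : ℝ) : |x - Real.sin x| ≤ x ^ 2 := by
  have key : ∀ x : ℝ, 0 ≤ x → |x - Real.sin x| ≤ x ^ 2 := by
    intro x hx
    rw [abs_of_nonneg (sub_nonneg.2 (Real.sin_le hx))]
    rcases le_total x 2 with h | h
    · have := Real.sin_ge_sub_cube hx
      nlinarith [sq_nonneg x]
    · nlinarith [Real.neg_one_le_sin x]
  rcases le_total 0 x with h | h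
  · exact key x h
  · have := key (-x) (by linarith)
    rw [Real.sin_neg, neg_sub_neg, abs_sub_comm] at this
    simpa using this

theorem abs_GG_le {e : ℝ} (he : 0 < e) (s : ℝ) : |GG e s| ≤ e * s ^ 2 := by
  have e1 : GG e s = (e * s - Real.sin (e * s)) / e := by unfold GG ta; field_simp
  rw [e1, abs_div, abs_of_pos he, div_le_iff₀ he]
  exact (abs_sub_sin _).trans (le_of_eq (by ring))

theorem bt_nonneg (e s : ℝ) : 0 ≤ bt e s := by unfold bt; positivity

theorem bt_le {e : ℝ} (he : 0 < e) (s : ℝ) : bt e s ≤ s ^ 2 / 2 := by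
  have := sq_le_sq.2 (abs_ta_le' he s)
  unfold bt
  linarith

theorem bt_sub_le {e : ℝ} (he : 0 < e) {η : ℝ} (hη : 0 < η) (a b : ℝ) :
    |bt e a - bt e b| ≤ (a - b) ^ 2 / η + η * (a ^ 2 + b ^ 2) := by
  have e1 : bt e a - bt e b = (ta e a - ta e b) * ((ta e a + ta e b) / 2) := by unfold bt; ring
  have h1 := ta_lip he a b
  have h2 : |(ta e a + ta e b) / 2| ≤ (|a| + |b|) / 2 := by
    rw [abs_div, abs_two]
    gcongr
    exact (abs_add_le _ _).trans (add_le_add (abs_ta_le' he a) (abs_ta_le' he b))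
  rw [e1, abs_mul]
  refine (mul_le_mul h1 h2 (abs_nonneg _) (abs_nonneg _)).trans ?_
  rw [← sq_abs (a - b), ← sq_abs a, ← sq_abs b]
  generalize |a - b| = w
  generalize |a| = x
  generalize |b| = y
  rw [← sub_nonneg]
  have : w ^ 2 / η + η * (x ^ 2 + y ^ 2) - w * ((x + y) / 2)
      = ((w - η * (x + y) / 4) ^ 2 + η ^ 2 * (7 * (x + y) ^ 2 / 16 + (x - y) ^ 2 / 2)) / η := by
    field_simp
    ring
  rw [this]
  positivity

theorem bt_tendsto {e : ℕ → ℝ} (he : ∀ m, 0 < e m) (he0 : Tendsto e atTop (𝓝 0)) (s : ℝ) :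
    Tendsto (fun m => bt (e m) s) atTop (𝓝 (s ^ 2 / 2)) := by
  have h1 : Tendsto (fun m => GG (e m) s) atTop (𝓝 0) := by
    refine squeeze_zero_norm (fun m => abs_GG_le (he m) s) ?_
    simpa using he0.mul_const (s ^ 2)
  have h2 : Tendsto (fun m => (s - GG (e m) s) ^ 2 / 2) atTop (𝓝 ((s - 0) ^ 2 / 2)) :=
    ((h1.const_sub s).pow 2).div_const 2
  simpa [GG, bt] using h2

/-- Fubini for the quadratic increments. -/
theorem incr_fubini {W f : T3 → ℝ} (hW : Continuous W) (hf : MemLp f 2 mu) :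
    Integrable (fun x => ∫ y, W (x - y) * (f y - f x) ^ 2 ∂mu) mu ∧
    ∫ x, ∫ y, W (x - y) * (f y - f x) ^ 2 ∂mu ∂mu
      = ∫ h, W h * ∫ x, (f (x + h) - f x) ^ 2 ∂mu ∂mu := by
  obtain ⟨C, hC⟩ := cont_bdd hW
  have h1 : MemLp (fun z : T3 × T3 => f (z.1 - z.2)) 2 (mu.prod mu) :=
    hf.comp_measurePreserving (measurePreserving_fst.comp (measurePreserving_sub_prod mu mu))
  have h2 : MemLp (fun z : T3 × T3 => f z.1) 2 (mu.prod mu) :=
    hf.comp_measurePreserving measurePreserving_fst
  have h3 : Integrable (fun z : T3 × T3 => W z.2 * (f (z.1 - z.2) - f z.1) ^ 2) (mu.prod mu) :=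
    (h1.sub h2).integrable_sq.bdd_mul (by fun_prop : Continuous _).aestronglyMeasurable
      (Eventually.of_forall fun z => hC _)
  have e : ∀ x, ∫ y, W (x - y) * (f y - f x) ^ 2 ∂mu
      = ∫ h, W h * (f (x - h) - f x) ^ 2 ∂mu := by
    intro x
    rw [← integral_sub_left_eq_self _ mu x]
    simp only [sub_sub_cancel]
  simp only [e]
  refine ⟨h3.integral_prod_left, ?_⟩
  rw [integral_integral_swap h3]
  congr 1
  ext h
  rw [integral_const_mul, ← integral_add_right_eq_self (μ := mu) _ h]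
  congr 2
  ext x
  rw [add_sub_cancel_right]
  ring

theorem incr_dK {f : T3 → ℝ} (hf : MemLp f 2 mu) {N : ℕ} (hN : 1 ≤ N) (j : Fin 3) :
    ∫ x, ∫ y, |dK N j (x - y)| * (f y - f x) ^ 2 ∂mu ∂mu ≤ 400 * tl N f := by
  have h1 : (1 : ℝ) ≤ N := by exact_mod_cast hN
  rw [(incr_fubini (W := fun h => |dK N j h|) (by fun_prop) hf).2]
  have ht := tl_nonneg N f
  calc _ ≤ ∫ h, 4 / N * tl N f * (|dK N j h| * (1 + N ^ 2 * sig h)) ∂mu := by
        refine integral_mono_of_nonneg (Eventually.of_forall fun h => ?_)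
          (cont_int (by fun_prop)) (Eventually.of_forall fun h => ?_)
        · exact mul_nonneg (abs_nonneg _) (integral_nonneg fun x => sq_nonneg _)
        · refine (mul_le_mul_of_nonneg_left (incr_le hf hN h) (abs_nonneg _)).trans (le_of_eq ?_)
          ring
    _ ≤ 4 / N * tl N f * (100 * N) := by
        rw [integral_const_mul]
        exact mul_le_mul_of_nonneg_left (int_dK hN j) (by positivity)
    _ = _ := by field_simp; ring

theorem int_mul2 {f g : T3 → ℝ} (hf : MemLp f 2 mu) (hg : MemLp g 2 mu) :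
    Integrable (fun x => f x * g x) mu := hf.integrable_mul hg

/-- The commutator identity and bound at a point. -/
theorem comm_point {v : Fin 3 → T3 → ℝ} (hv : ∀ j, MemLp (v j) 2 mu)
    (hd : ∀ k : Fin 3 → ℤ, ∑ j, (k j : ℂ) * fc (v j) k = 0) (N : ℕ) (i : Fin 3) (x : T3) :
    |∑ j, conv (dK N j) (fun y => v i y * v j y) x - ∑ j, v j x * conv (dK N j) (v i) x|
      ≤ ∑ j, ((∫ y, |dK N j (x - y)| * (v i y - v i x) ^ 2 ∂mu)
        + ∫ y, |dK N j (x - y)| * (v j y - v j x) ^ 2 ∂mu) / 2 := by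
  have hi : ∀ j, Integrable (v j) mu := fun j => (hv j).integrable (by norm_num)
  have h0 : ∀ j, ∫ y, dK N j (x - y) ∂mu = 0 := by
    intro j
    rw [integral_sub_left_eq_self _ mu x]
    exact integral_pd (hasPD_KK N j) (cont_KK N) (cont_dK N j)
  have h1 : ∑ j, conv (dK N j) (v j) x = 0 := by
    have := div_pair hv hd (fun j => hasPD_reflect (hasPD_KK N j) x) (by fun_prop)
      (fun j => by fun_prop)
    simp only [mul_neg, integral_neg, Finset.sum_neg_distrib, neg_eq_zero] at this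
    simpa only [conv, mul_comm] using this
  have h2 : ∀ j, ∫ y, dK N j (x - y) * ((v i y - v i x) * (v j y - v j x)) ∂mu
      = conv (dK N j) (fun y => v i y * v j y) x - v j x * conv (dK N j) (v i) x
        - v i x * conv (dK N j) (v j) x + v i x * v j x * ∫ y, dK N j (x - y) ∂mu := by
    intro j
    have i1 : Integrable (fun y => dK N j (x - y) * (v i y * v j y)) mu :=
      cont_mul_int (by fun_prop) (int_mul2 (hv i) (hv j))
    have i2 : Integrable (fun y => v j x * (dK N j (x - y) * v i y)) mu :=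
      (cont_mul_int (by fun_prop) (hi i)).const_mul _
    have i3 : Integrable (fun y => v i x * (dK N j (x - y) * v j y)) mu :=
      (cont_mul_int (by fun_prop) (hi j)).const_mul _
    have i4 : Integrable (fun y => v i x * v j x * dK N j (x - y)) mu := cont_int (by fun_prop)
    have i12 : Integrable (fun y => dK N j (x - y) * (v i y * v j y)
        - v j x * (dK N j (x - y) * v i y)) mu := i1.sub i2
    have i123 : Integrable (fun y => dK N j (x - y) * (v i y * v j y)
        - v j x * (dK N j (x - y) * v i y) - v i x * (dK N j (x - y) * v j y)) mu := i12.sub i3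
    simp only [conv]
    rw [← integral_const_mul, ← integral_const_mul, ← integral_const_mul, ← integral_sub i1 i2,
      ← integral_sub i12 i3, ← integral_add i123 i4]
    congr 1
    ext y
    ring
  have h3 : ∑ j, conv (dK N j) (fun y => v i y * v j y) x - ∑ j, v j x * conv (dK N j) (v i) x
      = ∑ j, ∫ y, dK N j (x - y) * ((v i y - v i x) * (v j y - v j x)) ∂mu := by
    simp only [h2, h0, mul_zero, add_zero, Finset.sum_sub_distrib, ← Finset.mul_sum, h1, sub_zero]
  rw [h3]
  refine (Finset.abs_sum_le_sum_abs _ _).trans (Finset.sum_le_sum fun j _ => ?_)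
  have i5 : ∀ l, Integrable (fun y => |dK N j (x - y)| * (v l y - v l x) ^ 2) mu := fun l =>
    cont_mul_int (by fun_prop) ((hv l).sub (memLp_const _)).integrable_sq
  rw [← integral_add (i5 i) (i5 j), ← integral_div]
  refine abs_integral_le_integral_abs.trans (integral_mono_of_nonneg
    (Eventually.of_forall fun y => abs_nonneg _) (((i5 i).add (i5 j)).div_const _)
    (Eventually.of_forall fun y => ?_))
  simp only [abs_mul]
  rw [← sq_abs (v i y - v i x), ← sq_abs (v j y - v j x)]
  nlinarith [mul_nonneg (abs_nonneg (dK N j (x - y)))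
    (sq_nonneg (|v i y - v i x| - |v j y - v j x|))]

noncomputable def gg (N : ℕ) (v : Fin 3 → T3 → ℝ) (p : T3 → ℝ) (i : Fin 3) (x : T3) : ℝ :=
  ∑ j, conv (dK N j) (fun y => v i y * v j y) x + conv (dK N i) p x

noncomputable def EE (N : ℕ) (e : ℝ) (v : Fin 3 → T3 → ℝ) : ℝ :=
  ∑ i, ∫ x, bt e (conv (KK N) (v i) x) ∂mu

noncomputable def HH (N : ℕ) (e : ℝ) (v : Fin 3 → T3 → ℝ) (p : T3 → ℝ) : ℝ :=
  ∑ i, ∫ x, ta (2 * e) (conv (KK N) (v i) x) * gg N v p i x ∂mu

noncomputable def RR (N : ℕ) (e : ℝ) (v : Fin 3 → T3 → ℝ) (p : T3 → ℝ) : ℝ :=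
  ∑ i, ∫ x, GG (2 * e) (conv (KK N) (v i) x) * conv (dK N i) p x ∂mu

theorem transport_le {v : Fin 3 → T3 → ℝ} (hv : ∀ j, MemLp (v j) 2 mu)
    (hd : ∀ k : Fin 3 → ℤ, ∑ j, (k j : ℂ) * fc (v j) k = 0) {N : ℕ} (hN : 1 ≤ N) {e : ℝ}
    (he : 0 < e) (i : Fin 3) :
    |∫ x, ta (2 * e) (conv (KK N) (v i) x) * ∑ j, conv (dK N j) (fun y => v i y * v j y) x ∂mu|
      ≤ 100 / e * ∑ j, (tl N (v i) + tl N (v j)) := by
  have hi : ∀ j, Integrable (v j) mu := fun j => (hv j).integrable (by norm_num)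
  have c1 := cont_conv (cont_KK N) (hi i)
  have c2 := fun j => cont_conv (cont_dK N j) (hi i)
  have c3 := fun j => cont_conv (cont_dK N j) (int_mul2 (hv i) (hv j))
  have h1 : ∑ j, ∫ x, v j x * (ta (2 * e) (conv (KK N) (v i) x) * conv (dK N j) (v i) x) ∂mu
      = 0 := by
    refine div_pair hv hd (g := fun x => bt e (conv (KK N) (v i) x)) (fun j x => ?_) (by fun_prop)
      (fun j => by fun_prop)
    have := (hasDerivAt_bt he _).comp (0 : ℝ)
      (hasPD_conv (hasPD_KK N j) (cont_KK N) (cont_dK N j) (hi i) x)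
    refine HasDerivAt.congr_deriv this ?_
    simp
  have i1 : ∀ j, Integrable
      (fun x => v j x * (ta (2 * e) (conv (KK N) (v i) x) * conv (dK N j) (v i) x)) mu :=
    fun j => int_mul_cont (hi j) (by fun_prop)
  rw [← integral_finsetSum _ fun j _ => i1 j] at h1
  have i2 : Integrable (fun x => ta (2 * e) (conv (KK N) (v i) x)
      * ∑ j, conv (dK N j) (fun y => v i y * v j y) x) mu := cont_int (by fun_prop)
  rw [← sub_zero (∫ x, _ ∂mu), ← h1, ← integral_sub i2 (integrable_finsetSum _ fun j _ => i1 j)]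
  have i3 : ∀ j l, Integrable (fun x => ∫ y, |dK N j (x - y)| * (v l y - v l x) ^ 2 ∂mu) mu :=
    fun j l => (incr_fubini (W := fun h => |dK N j h|) (by fun_prop) (hv l)).1
  have i4 : ∀ j, Integrable (fun x => ((∫ y, |dK N j (x - y)| * (v i y - v i x) ^ 2 ∂mu)
      + ∫ y, |dK N j (x - y)| * (v j y - v j x) ^ 2 ∂mu) / 2) mu :=
    fun j => ((i3 j i).add (i3 j j)).div_const _
  calc _ ≤ ∫ x, 1 / (2 * e) * ∑ j, ((∫ y, |dK N j (x - y)| * (v i y - v i x) ^ 2 ∂mu)
        + ∫ y, |dK N j (x - y)| * (v j y - v j x) ^ 2 ∂mu) / 2 ∂mu := by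
        refine abs_integral_le_integral_abs.trans (integral_mono_of_nonneg
          (Eventually.of_forall fun y => abs_nonneg _)
          ((integrable_finsetSum _ fun j _ => i4 j).const_mul _)
          (Eventually.of_forall fun x => ?_))
        have e1 : ta (2 * e) (conv (KK N) (v i) x) * ∑ j, conv (dK N j) (fun y => v i y * v j y) x
            - ∑ j, v j x * (ta (2 * e) (conv (KK N) (v i) x) * conv (dK N j) (v i) x)
            = ta (2 * e) (conv (KK N) (v i) x) * (∑ j, conv (dK N j) (fun y => v i y * v j y) x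
              - ∑ j, v j x * conv (dK N j) (v i) x) := by
          simp only [Fin.sum_univ_three]
          ring
        simp only [e1, abs_mul]
        exact mul_le_mul (abs_ta_le (by positivity) _) (comm_point hv hd N i x) (abs_nonneg _)
          (by positivity)
    _ ≤ 1 / (2 * e) * ∑ j, (400 * tl N (v i) + 400 * tl N (v j)) / 2 := by
        rw [integral_const_mul, integral_finsetSum _ fun j _ => i4 j]
        refine mul_le_mul_of_nonneg_left (Finset.sum_le_sum fun j _ => ?_) (by positivity)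
        rw [integral_div, integral_add (i3 j i) (i3 j j)]
        gcongr
        · exact incr_dK (hv i) hN j
        · exact incr_dK (hv j) hN j
    _ = _ := by
        simp only [Fin.sum_univ_three]
        field_simp
        ring

/-- The renormalised flux, up to the pressure remainder, is controlled by the tails. -/
theorem HH_add_RR {v : Fin 3 → T3 → ℝ} (hv : ∀ j, MemLp (v j) 2 mu)
    (hd : ∀ k : Fin 3 → ℤ, ∑ j, (k j : ℂ) * fc (v j) k = 0) {p : T3 → ℝ} (hp : Integrable p mu)
    {N : ℕ} (hN : 1 ≤ N) {e : ℝ} (he : 0 < e) :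
    |HH N e v p + RR N e v p| ≤ 600 / e * ∑ i, tl N (v i) := by
  have hi : ∀ j, Integrable (v j) mu := fun j => (hv j).integrable (by norm_num)
  have c1 := fun i => cont_conv (cont_KK N) (hi i)
  have c2 := fun j => cont_conv (cont_dK N j) hp
  have c3 := fun i j => cont_conv (cont_dK N j) (int_mul2 (hv i) (hv j))
  have h1 : ∑ i, ∫ x, conv (KK N) (v i) x * conv (dK N i) p x ∂mu = 0 := by
    refine div_pair (fun i => cont_memLp (c1 i) 2) (fun k => ?_)
      (fun j => hasPD_conv (hasPD_KK N j) (cont_KK N) (cont_dK N j) hp)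
      (cont_conv (cont_KK N) hp) c2
    simp only [fc_conv (cont_KK N) (hi _), mul_left_comm _ (fc (KK N) k), ← Finset.mul_sum, hd k,
      mul_zero]
  have h2 : HH N e v p + RR N e v p = ∑ i, ∫ x, ta (2 * e) (conv (KK N) (v i) x)
      * ∑ j, conv (dK N j) (fun y => v i y * v j y) x ∂mu := by
    rw [← add_zero (∑ i, ∫ x, _ * ∑ j, _ ∂mu), ← h1, HH, RR, ← Finset.sum_add_distrib,
      ← Finset.sum_add_distrib]
    refine Finset.sum_congr rfl fun i _ => ?_
    unfold gg
    rw [← integral_add (cont_int (by fun_prop)) (cont_int (by fun_prop)),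
      ← integral_add (cont_int (by fun_prop)) (cont_int (by fun_prop))]
    congr 1
    ext x
    unfold GG
    ring
  rw [h2]
  refine (Finset.abs_sum_le_sum_abs _ _).trans
    ((Finset.sum_le_sum fun i _ => transport_le hv hd hN he i).trans (le_of_eq ?_))
  simp only [Fin.sum_univ_three]
  ring

end Pool.Agent.Lib.MP_fea353_an
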