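import Pool.Agent.Lib.MP_fea353_an.Comp

set_option autoImplicit false

namespace Pool.Agent.Lib.MP_fea353_an

open Filter Topology

/-- Nonnegative family with all finite sums bounded by `A`. -/
def SB {ι : Type*} (f : ι → ℝ) (A : ℝ) : Prop := (∀ x, 0 ≤ f x) ∧ ∀ U : Finset ι, ∑ x ∈ U, f x ≤ A

theorem SB.nonneg {ι : Type*} {f : ι → ℝ} {A : ℝ} (h : SB f A) : 0 ≤ A := by simpa using h.2 ∅

theorem SB.add {ι : Type*} {f g : ι → ℝ} {A B : ℝ} (hf : SB f A) (hg : SB g B) :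
    SB (fun x => f x + g x) (A + B) :=
  ⟨fun x => add_nonneg (hf.1 x) (hg.1 x), fun U => by
    rw [Finset.sum_add_distrib]; exact add_le_add (hf.2 U) (hg.2 U)⟩

theorem SB.smul {ι : Type*} {f : ι → ℝ} {A c : ℝ} (hc : 0 ≤ c) (hf : SB f A) :
    SB (fun x => c * f x) (c * A) :=
  ⟨fun x => mul_nonneg hc (hf.1 x), fun U => by
    rw [← Finset.mul_sum]; exact mul_le_mul_of_nonneg_left (hf.2 U) hc⟩

theorem SB.mono {ι : Type*} {f g : ι → ℝ} {A : ℝ} (hg : SB g A) (h0 : ∀ x, 0 ≤ f x)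
    (h : ∀ x, f x ≤ g x) : SB f A :=
  ⟨h0, fun U => (Finset.sum_le_sum fun x _ => h x).trans (hg.2 U)⟩

theorem SB.prod {ι κ ν : Type*} {f : ι → ℝ} {g : κ → ℝ} {A B : ℝ} (hf : SB f A) (hg : SB g B)
    (a : ν → ι) (b : ν → κ) (hi : ∀ z z', a z = a z' → b z = b z' → z = z') :
    SB (fun z => f (a z) * g (b z)) (A * B) := by
  classical
  refine ⟨fun z => mul_nonneg (hf.1 _) (hg.1 _), fun U => ?_⟩
  calc ∑ z ∈ U, f (a z) * g (b z) = ∑ y ∈ U.image fun z => (a z, b z), f y.1 * g y.2 := by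
        rw [Finset.sum_image fun z _ z' _ h => hi z z' (congrArg Prod.fst h) (congrArg Prod.snd h)]
    _ ≤ ∑ y ∈ U.image a ×ˢ U.image b, f y.1 * g y.2 := by
        refine Finset.sum_le_sum_of_subset_of_nonneg (fun y hy => ?_)
          fun y _ _ => mul_nonneg (hf.1 _) (hg.1 _)
        obtain ⟨z, hz, rfl⟩ := Finset.mem_image.1 hy
        exact Finset.mem_product.2 ⟨Finset.mem_image_of_mem _ hz, Finset.mem_image_of_mem _ hz⟩
    _ = (∑ x ∈ U.image a, f x) * ∑ y ∈ U.image b, g y := by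
        rw [Finset.sum_product, Finset.sum_mul_sum]
    _ ≤ A * B := mul_le_mul (hf.2 _) (hg.2 _) (Finset.sum_nonneg fun _ _ => hg.1 _) hf.nonneg

theorem SB.of_summable {ι : Type*} {f : ι → ℝ} {A : ℝ} (h0 : ∀ x, 0 ≤ f x)
    (h : Summable f ∧ ∑' x, f x ≤ A) : SB f A :=
  ⟨h0, fun U => (h.1.sum_le_tsum U fun x _ => h0 x).trans h.2⟩

theorem SB.summable {ι : Type*} {f : ι → ℝ} {A : ℝ} (h : SB f A) :
    Summable f ∧ ∑' x, f x ≤ A :=
  ⟨summable_of_sum_le h.1 h.2, (summable_of_sum_le h.1 h.2).tsum_le_of_sum_le h.2⟩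

theorem exists_SB_int {r : ℝ} (hr : 1 / 2 < r) :
    ∃ S, SB (fun n : ℤ => (1 + (n : ℝ) ^ 2) ^ (-r)) S := by
  refine ⟨_, SB.of_summable (fun n => by positivity) ⟨?_, le_rfl⟩⟩
  refine (Real.summable_abs_int_rpow (b := 2 * r) (by linarith)).of_norm_bounded_eventually ?_
  filter_upwards [eventually_cofinite_ne 0] with n hn
  have h1 : (0 : ℝ) < |(n : ℝ)| := abs_pos.2 (by exact_mod_cast hn)
  rw [Real.norm_of_nonneg (by positivity), show -(2 * r) = 2 * -r by ring,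
    Real.rpow_mul h1.le, Real.rpow_two, sq_abs]
  exact Real.rpow_le_rpow_of_nonpos (by rw [← sq_abs]; positivity) (by linarith) (by linarith)

theorem am_gm {η : ℝ} (hη : 0 < η) (a b : ℝ) : a * b ≤ η * a ^ 2 + b ^ 2 / η := by
  rw [← sub_nonneg]
  have : η * a ^ 2 + b ^ 2 / η - a * b = ((η * a - b / 2) ^ 2 + 3 / 4 * b ^ 2) / η := by
    field_simp
    ring
  rw [this]
  positivity

/-- Horizontal part of `x`, vertical part of `y`. -/
def mix (x y : Fin 3 → ℤ) : Fin 3 → ℤ := ![x 0, x 1, y 2]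

/-- The trilinear Schur test. -/
theorem tri_role {ν : Type*} {u w X Y Z : (Fin 3 → ℤ) → ℝ} {S Q A B η : ℝ} (hη : 0 < η)
    (hu : ∀ x y, u (mix x y) = u x) (hw : ∀ x y, w (mix x y) = w y)
    (hu0 : ∀ x, 0 ≤ u x) (hw0 : ∀ x, 0 ≤ w x) (hX0 : ∀ x, 0 ≤ X x) (hY0 : ∀ x, 0 ≤ Y x)
    (hZ0 : ∀ x, 0 ≤ Z x) (hS : SB (fun x => (u x * w x) ^ 2) S) (hX : SB (fun x => X x ^ 2) Q)
    (hY : SB (fun x => Y x ^ 2) A) (hZ : SB (fun x => Z x ^ 2) B) (k m l : ν → Fin 3 → ℤ)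
    (h1 : ∀ z z', m z = m z' → mix (k z) (l z) = mix (k z') (l z') → z = z')
    (h2 : ∀ z z', m z = m z' → l z = l z' → z = z')
    (h3 : ∀ z z', k z = k z' → l z = l z' → z = z')
    (h4 : ∀ z z', k z = k z' → mix (m z) (l z) = mix (m z') (l z') → z = z') :
    SB (fun z => X (k z) * ((u (k z) + u (l z) + u (m z)) * (w (l z) * Y (m z) * Z (l z))))
      (η * (A * S + A * S + A * B) + 1 / η * (Q * B + Q * B + Q * S)) := by
  have s1 := (((hY.prod hS m (fun z => mix (k z) (l z)) h1).add (hY.prod hS m l h2)).add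
    (hY.prod hZ m l h2)).smul hη.le
  have s2 := (((hX.prod hZ k l h3).add (hX.prod hZ k l h3)).add
    (hX.prod hS k (fun z => mix (m z) (l z)) h4)).smul (c := 1 / η) (by positivity)
  refine (s1.add s2).mono (fun z => ?_) fun z => ?_
  · have := hu0 (k z); have := hu0 (l z); have := hu0 (m z); have := hw0 (l z)
    have := hX0 (k z); have := hY0 (m z); have := hZ0 (l z)
    positivity
  · simp only [hu, hw]
    have e1 := am_gm hη (Y (m z) * (u (k z) * w (l z))) (X (k z) * Z (l z))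
    have e2 := am_gm hη (Y (m z) * (u (l z) * w (l z))) (X (k z) * Z (l z))
    have e3 := am_gm hη (Y (m z) * Z (l z)) (X (k z) * (u (m z) * w (l z)))
    simp only [div_eq_mul_inv] at *
    linear_combination e1 + e2 + e3

theorem mult_low {K L M a c s : ℝ} (hL : 1 ≤ L) (hM : 1 ≤ M) (h1 : L ≤ K) (h2 : M ≤ 2 * K)
    (ha0 : 0 ≤ a) (ha : a ≤ 1) (hs : s ≤ 1) :
    L * M * K ^ (s - 2) ≤ 2 * L ^ (s - a - c) * (M ^ a * L ^ c) := by
  have hK : 0 < K := by linarith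
  have hL0 : 0 < L := by linarith
  have hM0 : 0 < M := by linarith
  have e1 : M = M ^ a * M ^ (1 - a) := by rw [← Real.rpow_add hM0]; simp
  have e2 : M ^ (1 - a) ≤ 2 * K ^ (1 - a) := by
    calc M ^ (1 - a) ≤ (2 * K) ^ (1 - a) := Real.rpow_le_rpow hM0.le h2 (by linarith)
      _ = 2 ^ (1 - a) * K ^ (1 - a) := Real.mul_rpow (by norm_num) hK.le
      _ ≤ 2 ^ (1 : ℝ) * K ^ (1 - a) := by
          gcongr
          · norm_num
          · linarith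
      _ = _ := by rw [Real.rpow_one]
  have e3 : K ^ (1 - a) * K ^ (s - 2) ≤ L ^ (s - 1 - a) := by
    rw [← Real.rpow_add hK, show 1 - a + (s - 2) = s - 1 - a by ring]
    exact Real.rpow_le_rpow_of_nonpos hL0 h1 (by linarith)
  have e4 : L * L ^ (s - 1 - a) = L ^ (s - a - c) * L ^ c := by
    rw [← Real.rpow_add hL0, show s - a - c + c = 1 + (s - 1 - a) by ring, Real.rpow_add hL0,
      Real.rpow_one]
  calc L * M * K ^ (s - 2) = L * M ^ a * (M ^ (1 - a) * K ^ (s - 2)) := by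
        conv_lhs => rw [e1]
        ring
    _ ≤ L * M ^ a * (2 * K ^ (1 - a) * K ^ (s - 2)) := by gcongr
    _ ≤ L * M ^ a * (2 * L ^ (s - 1 - a)) := by rw [mul_assoc 2]; gcongr
    _ = 2 * M ^ a * (L * L ^ (s - 1 - a)) := by ring
    _ = _ := by rw [e4]; ring

theorem mult {K L M a c s : ℝ} (hK : 1 ≤ K) (hL : 1 ≤ L) (hM : 1 ≤ M) (h1 : L ≤ 2 * max K M)
    (h2 : M ≤ 2 * max K L) (ha0 : 0 ≤ a) (ha : a ≤ 1) (hc0 : 0 ≤ c) (hc : c ≤ 1)
    (hac : 1 ≤ a + c) (hs : s ≤ 1) :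
    min (K * (L + M)) (L * M) * K ^ (s - 2)
      ≤ 3 * (K ^ (s - a - c) + L ^ (s - a - c) + M ^ (s - a - c)) * (M ^ a * L ^ c) := by
  have hK0 : 0 < K := by linarith
  have hL0 : 0 < L := by linarith
  have hM0 : 0 < M := by linarith
  have pK : 0 < K ^ (s - a - c) := by positivity
  have pL : 0 < L ^ (s - a - c) := by positivity
  have pM : 0 < M ^ (s - a - c) := by positivity
  have pW : 0 < M ^ a * L ^ c := by positivity
  by_cases hc1 : K ≤ L ∧ K ≤ M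
  · obtain ⟨r, hr⟩ : ∃ r, r = min L M := ⟨_, rfl⟩
    have r1 : r ≤ L := hr ▸ min_le_left _ _
    have r2 : r ≤ M := hr ▸ min_le_right _ _
    have r3 : K ≤ r := hr ▸ le_min hc1.1 hc1.2
    have r0 : 0 < r := by linarith
    rw [max_eq_right hc1.2] at h1
    rw [max_eq_right hc1.1] at h2
    have r4 : L + M ≤ 3 * r := by
      rcases le_total L M with h | h
      · rw [hr, min_eq_left h]; linarith
      · rw [hr, min_eq_right h]; linarith
    have e1 : K * K ^ (s - 2) = K ^ (s - a - c) * K ^ (a + c - 1) := by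
      rw [← Real.rpow_add hK0, show s - a - c + (a + c - 1) = 1 + (s - 2) by ring,
        Real.rpow_add hK0, Real.rpow_one]
    have e2 : r ^ (a + c - 1) * r = r ^ a * r ^ c := by
      rw [← Real.rpow_add r0, ← Real.rpow_add_one r0.ne']
      congr 1
      ring
    calc _ ≤ K * (L + M) * K ^ (s - 2) := by gcongr; exact min_le_left _ _
      _ = K ^ (s - a - c) * (K ^ (a + c - 1) * (L + M)) := by rw [← mul_assoc, ← e1]; ring
      _ ≤ K ^ (s - a - c) * (r ^ (a + c - 1) * (3 * r)) := by gcongr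
      _ = 3 * K ^ (s - a - c) * (r ^ a * r ^ c) := by rw [← e2]; ring
      _ ≤ 3 * K ^ (s - a - c) * (M ^ a * L ^ c) := by gcongr
      _ ≤ _ := by gcongr; linarith
  · refine le_trans (mul_le_mul_of_nonneg_right (min_le_right _ _) (by positivity)) ?_
    rcases le_total L M with h | h
    · have h3 : L ≤ K := by
        by_contra h4
        exact hc1 ⟨by linarith, by linarith⟩
      rw [max_eq_left h3] at h2
      refine (mult_low (c := c) hL hM h3 h2 ha0 ha hs).trans ?_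
      gcongr ?_ * _
      linarith
    · have h3 : M ≤ K := by
        by_contra h4
        exact hc1 ⟨by linarith, by linarith⟩
      rw [max_eq_left h3] at h1
      have := mult_low (c := a) hM hL h3 h1 hc0 hc hs
      rw [mul_comm M L, mul_comm (L ^ c), sub_right_comm] at this
      refine this.trans ?_
      gcongr ?_ * _
      linarith

theorem lin2 {c0 c1 C : ℝ} (h0 : |c0| ≤ C) (h1 : |c1| ≤ C) (z0 z1 : ℂ) :
    ‖c0 * z0 + c1 * z1‖ ≤ C * (‖z0‖ + ‖z1‖) := by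
  refine (norm_add_le _ _).trans ?_
  simp only [norm_mul, Complex.norm_real, Real.norm_eq_abs, mul_add]
  gcongr

theorem lin3 {c0 c1 c2 C : ℝ} (h0 : |c0| ≤ C) (h1 : |c1| ≤ C) (h2 : |c2| ≤ C) (z0 z1 z2 : ℂ) :
    ‖c0 * z0 + c1 * z1 + c2 * z2‖ ≤ C * (‖z0‖ + ‖z1‖ + ‖z2‖) := by
  refine (norm_add_le _ _).trans ?_
  rw [mul_add _ (_ + _)]
  refine add_le_add (lin2 h0 h1 _ _) ?_
  simp only [norm_mul, Complex.norm_real, Real.norm_eq_abs]
  gcongr

/-- The null structure of the pressure source for divergence free fields. -/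
theorem null_bound {k l m : Fin 3 → ℝ} {x y : Fin 3 → ℂ} {K L M : ℝ}
    (hl : ∀ j, l j = k j + m j) (hx : ∑ j, (m j : ℂ) * x j = 0) (hy : ∑ j, (l j : ℂ) * y j = 0)
    (hK : ∀ j, |k j| ≤ K) (hL : ∀ j, |l j| ≤ L) (hM : ∀ j, |m j| ≤ M) (hKLM : K ≤ 2 * (L + M)) :
    ‖(∑ j, (k j : ℂ) * x j) * ∑ j, (k j : ℂ) * y j‖ ≤ 3 * min (K * (L + M)) (L * M) *
      ((‖x 0‖ + ‖x 1‖) * (‖y 0‖ + ‖y 1‖ + ‖y 2‖) + (‖x 0‖ + ‖x 1‖ + ‖x 2‖) * (‖y 0‖ + ‖y 1‖)) := by
  have hK0 : 0 ≤ K := (abs_nonneg _).trans (hK 0)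
  have hL0 : 0 ≤ L := (abs_nonneg _).trans (hL 0)
  have hM0 : 0 ≤ M := (abs_nonneg _).trans (hM 0)
  have hl' : ∀ j, (l j : ℂ) = k j + m j := fun j => by rw [hl j]; push_cast; ring
  simp only [Fin.sum_univ_three] at *
  have n0 := norm_nonneg (x 0); have n1 := norm_nonneg (x 1); have n2 := norm_nonneg (x 2)
  have n3 := norm_nonneg (y 0); have n4 := norm_nonneg (y 1); have n5 := norm_nonneg (y 2)
  have one : ∀ {c C : ℝ} (z : ℂ), |c| ≤ C → ‖c * z‖ ≤ C * ‖z‖ := fun z h => by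
    rw [norm_mul, Complex.norm_real, Real.norm_eq_abs]
    gcongr
  rw [mul_min_of_nonneg _ _ (by norm_num : (0 : ℝ) ≤ 3), min_mul_of_nonneg _ _ (by positivity)]
  refine le_min ?_ ?_
  · have e : ((k 0 : ℂ) * x 0 + k 1 * x 1 + k 2 * x 2) * (k 0 * y 0 + k 1 * y 1 + k 2 * y 2)
        = (k 0 * x 0 + k 1 * x 1) * (k 0 * y 0 + k 1 * y 1 + k 2 * y 2)
          + (k 2 * x 2) * (k 0 * y 0 + k 1 * y 1)
          + (-(k 2 * x 2) * (l 0 * y 0 + l 1 * y 1) + (m 0 * x 0 + m 1 * x 1) * (k 2 * y 2)) := by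
      linear_combination (k 2 * x 2) * hy - (k 2 * y 2) * hx - (k 2 * x 2 * y 2) * hl' 2
    rw [e]
    refine (norm_add₃_le.trans (add_le_add le_rfl (norm_add_le _ _))).trans ?_
    simp only [norm_mul (_ + _), neg_mul, norm_neg, norm_mul (_ * _)]
    calc _ ≤ K * (‖x 0‖ + ‖x 1‖) * (K * (‖y 0‖ + ‖y 1‖ + ‖y 2‖))
          + K * ‖x 2‖ * (K * (‖y 0‖ + ‖y 1‖)) + (K * ‖x 2‖ * (L * (‖y 0‖ + ‖y 1‖))
          + M * (‖x 0‖ + ‖x 1‖) * (K * ‖y 2‖)) := by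
          gcongr
          exacts [lin2 (hK 0) (hK 1) _ _, lin3 (hK 0) (hK 1) (hK 2) _ _ _, one _ (hK 2),
            lin2 (hK 0) (hK 1) _ _, one _ (hK 2), lin2 (hL 0) (hL 1) _ _, lin2 (hM 0) (hM 1) _ _,
            one _ (hK 2)]
      _ ≤ K * (‖x 0‖ + ‖x 1‖) * (2 * (L + M) * (‖y 0‖ + ‖y 1‖ + ‖y 2‖))
          + K * (‖x 0‖ + ‖x 1‖ + ‖x 2‖) * (2 * (L + M) * (‖y 0‖ + ‖y 1‖))
          + (K * (‖x 0‖ + ‖x 1‖ + ‖x 2‖) * ((L + M) * (‖y 0‖ + ‖y 1‖))
          + (L + M) * (‖x 0‖ + ‖x 1‖) * (K * (‖y 0‖ + ‖y 1‖ + ‖y 2‖))) := by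
          gcongr <;> linarith
      _ = _ := by ring
  · have e : ((k 0 : ℂ) * x 0 + k 1 * x 1 + k 2 * x 2) * (k 0 * y 0 + k 1 * y 1 + k 2 * y 2)
        = -((l 0 * x 0 + l 1 * x 1) * (m 0 * y 0 + m 1 * y 1 + m 2 * y 2)
          + (l 2 * x 2) * (m 0 * y 0 + m 1 * y 1)
          + (m 0 * x 0 + m 1 * x 1) * (l 0 * y 0 + l 1 * y 1)) := by
      have e1 : (k 0 : ℂ) * x 0 + k 1 * x 1 + k 2 * x 2 = l 0 * x 0 + l 1 * x 1 + l 2 * x 2 := by
        linear_combination -hx - x 0 * hl' 0 - x 1 * hl' 1 - x 2 * hl' 2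
      have e2 : (k 0 : ℂ) * y 0 + k 1 * y 1 + k 2 * y 2 = -(m 0 * y 0 + m 1 * y 1 + m 2 * y 2) := by
        linear_combination hy - y 0 * hl' 0 - y 1 * hl' 1 - y 2 * hl' 2
      rw [e1, e2]
      linear_combination (-(l 2 * y 2)) * hx + (m 0 * x 0 + m 1 * x 1) * hy
    rw [e, norm_neg]
    refine norm_add₃_le.trans ?_
    simp only [norm_mul (_ + _), norm_mul (_ * _)]
    calc _ ≤ L * (‖x 0‖ + ‖x 1‖) * (M * (‖y 0‖ + ‖y 1‖ + ‖y 2‖))
          + L * ‖x 2‖ * (M * (‖y 0‖ + ‖y 1‖)) + M * (‖x 0‖ + ‖x 1‖) * (L * (‖y 0‖ + ‖y 1‖)) := by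
          gcongr
          exacts [lin2 (hL 0) (hL 1) _ _, lin3 (hM 0) (hM 1) (hM 2) _ _ _, one _ (hL 2),
            lin2 (hM 0) (hM 1) _ _, lin2 (hM 0) (hM 1) _ _, lin2 (hL 0) (hL 1) _ _]
      _ = L * M * ((‖x 0‖ + ‖x 1‖) * (‖y 0‖ + ‖y 1‖ + ‖y 2‖)
          + (‖x 0‖ + ‖x 1‖ + ‖x 2‖) * (‖y 0‖ + ‖y 1‖)) := by ring
      _ ≤ _ := by
          refine mul_le_mul_of_nonneg_right ?_ (by positivity)
          nlinarith [mul_nonneg hL0 hM0]

end Pool.Agent.Lib.MP_fea353_an
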