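import Pool.Agent.Lib.MP_fea353_an.Core
import Pool.Agent.Lib.MP_fea353_an.PBound

set_option autoImplicit false

namespace Pool.Agent.Lib.MP_fea353_an

open MeasureTheory Set UnitAddTorus Filter Topology
open scoped ContDiff ENNReal ComplexConjugate

theorem hasSum_prodC {F G : T3 → ℂ} (hF : MemLp F 2 mu) (hG : MemLp G 2 mu) :
    HasSum (fun k => conj (mFourierCoeff F k) * mFourierCoeff G k)
      (∫ x, conj (F x) * G x ∂mu) := by
  have h := hasSum_prod_mFourierCoeff (d := Fin 3) (hF.toLp _) (hG.toLp _)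
  have e : ∀ {u : T3 → ℂ} (hu : MemLp u 2 mu) (k : Fin 3 → ℤ),
      mFourierCoeff (hu.toLp _ : T3 → ℂ) k = mFourierCoeff u k := by
    intro u hu k
    refine integral_congr_ae (μ := mu) ?_
    filter_upwards [hu.coeFn_toLp] with x hx
    rw [hx]
  have e2 : (fun k => conj (mFourierCoeff F k) * mFourierCoeff G k)
      = fun k => conj (mFourierCoeff (hF.toLp _ : T3 → ℂ) k)
        * mFourierCoeff (hG.toLp _ : T3 → ℂ) k := by
    ext k
    rw [e hF, e hG]
  have e3 : ∫ x, conj (F x) * G x ∂mu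
      = ∫ x, conj ((hF.toLp _ : T3 → ℂ) x) * (hG.toLp _ : T3 → ℂ) x ∂mu := by
    refine integral_congr_ae (μ := mu) ?_
    filter_upwards [hF.coeFn_toLp, hG.coeFn_toLp] with x hx hy
    rw [hx, hy]
  rw [e2, e3]
  exact h

theorem hasSum_fc_mul {f g : T3 → ℝ} (hf : MemLp f 2 mu) (hg : MemLp g 2 mu) (k : Fin 3 → ℤ) :
    HasSum (fun m => conj (fc f m) * fc g (k + m)) (fc (fun x => f x * g x) k) := by
  have hf' : MemLp (fun x => (f x : ℂ)) 2 mu := hf.ofReal (K := ℂ)
  have hg' : MemLp (fun x => mFourier (-k) x * (g x : ℂ)) 2 mu := by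
    refine MemLp.of_le (hg.ofReal (K := ℂ))
      ((mFourier (-k)).continuous.aestronglyMeasurable.mul (hg.ofReal (K := ℂ)).1)
      (Eventually.of_forall fun x => ?_)
    simp [norm_mF]
  have h := hasSum_prodC hf' hg'
  have e1 : ∀ m, mFourierCoeff (fun x => mFourier (-k) x * (g x : ℂ)) m = fc g (k + m) := by
    intro m
    rw [fc_eq]
    refine integral_congr_ae (μ := mu) (Eventually.of_forall fun x => ?_)
    simp only [neg_add, mFourier_add, smul_eq_mul]
    ring
  have e2 : ∫ x, conj (f x : ℂ) * (mFourier (-k) x * (g x : ℂ)) ∂mu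
      = fc (fun x => f x * g x) k := by
    rw [fc_eq]
    congr 1
    ext x
    simp only [Complex.conj_ofReal, Complex.ofReal_mul]
    ring
  simp only [e1, e2] at h
  exact h

theorem int_L_mF {f : T3 → ℝ} (hf : Integrable f mu) (L : ℂ →L[ℝ] ℝ) (c : ℂ) (k : Fin 3 → ℤ) :
    ∫ y, f y * L (c * mFourier (-k) y) ∂mu = L (c * fc f k) := by
  rw [fc_eq, ← integral_const_mul, ← L.integral_comp_comm ((int_fc hf _).const_mul _)]
  congr 1
  ext y
  rw [← smul_eq_mul (f y), ← map_smul]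
  congr 1
  rw [Complex.real_smul]
  ring

variable {T : ℝ} {v : ℝ → T3 → Fin 3 → ℝ} {p : ℝ → T3 → ℝ}

theorem WeakEuler.mom_test (h : WeakEuler T v p) (i : Fin 3) {g : T3 → ℝ} {g' : Fin 3 → T3 → ℝ}
    (hg : Sm g) (hd : ∀ j, HasPD j g (g' j)) (hc0 : Continuous g) (hc : ∀ j, Continuous (g' j))
    {φ : ℝ → ℝ} (hφ : Test1 T φ) :
    (∫ t in Ioo 0 T, deriv φ t * ∫ y, v t y i * g y ∂mu)
      + ∫ t in Ioo 0 T, φ t * (∑ j, ∫ y, v t y i * v t y j * g' j y ∂mu
        + ∫ y, p t y * g' i y ∂mu) = 0 := by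
  have h1 := h.momentum _ (isTest_mul hφ hg) i
  have e2 : ∀ z : ℝ × T3, deriv (fun t => φ t * g z.2) z.1 = deriv φ z.1 * g z.2 :=
    fun z => ((hφ.hasDerivAt _).mul_const _).deriv
  simp only [pd_mul (hd _), e2] at h1
  have i1 := int_st_mul (h.int1 i) hφ.cont_deriv hc0
  have i2 := fun j => int_st_mul (h.int2 i j) hφ.cont (hc j)
  have i3 := int_st_mul h.pInt hφ.cont (hc i)
  have j2 := fun j => int_slice (h.int2 i j) (hc j)
  have j3 := int_slice h.pInt (hc i)
  have i23 : Integrable (fun z : ℝ × T3 => ∑ j, φ z.1 * (v z.1 z.2 i * v z.1 z.2 j * g' j z.2)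
      + φ z.1 * (p z.1 z.2 * g' i z.2)) (st T) := (integrable_finsetSum _ fun j _ => i2 j).add i3
  have h2 : ∫ z, deriv φ z.1 * (v z.1 z.2 i * g z.2) ∂(st T)
      + ∫ z, (∑ j, φ z.1 * (v z.1 z.2 i * v z.1 z.2 j * g' j z.2)
        + φ z.1 * (p z.1 z.2 * g' i z.2)) ∂(st T) = 0 := by
    rw [← integral_add i1 i23, ← h1]
    congr 1
    ext z
    simp only [Fin.sum_univ_three]
    ring
  rw [integral_add (integrable_finsetSum _ fun j _ => i2 j) i3,
    integral_finsetSum _ fun j _ => i2 j, integral_st_mul (h.int1 i) hφ.cont_deriv hc0,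
    integral_st_mul h.pInt hφ.cont (hc i)] at h2
  simp only [integral_st_mul (h.int2 i _) hφ.cont (hc _)] at h2
  simp only [mul_add, Finset.mul_sum]
  rw [integral_add (integrable_finsetSum _ fun j _ => cont_mul_intT hφ.cont (j2 j))
    (cont_mul_intT hφ.cont j3), integral_finsetSum _ fun j _ => cont_mul_intT hφ.cont (j2 j)]
  exact h2

/-- The pressure equation in Fourier variables. -/
theorem WeakEuler.ae_press (h : WeakEuler T v p) :
    ∀ᵐ t ∂(volume.restrict (Ioo 0 T)), ∀ k : Fin 3 → ℤ,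
      ∑ i, ∑ j, (k i : ℂ) * (k j : ℂ) * fc (fun x => v t x i * v t x j) k
        = -(qq k : ℂ) * fc (p t) k := by
  rw [ae_all_iff]
  intro k
  obtain ⟨c, hc⟩ : ∃ c : Fin 3 → ℂ, c = fun j => 2 * Real.pi * Complex.I * (-k) j := ⟨_, rfl⟩
  have hmF : ∀ j, HasPD j (fun x => mFourier (-k) x) (fun x => c j * mFourier (-k) x) :=
    fun j => by rw [hc]; exact hasPD_mF j (-k)
  have key : ∀ L : ℂ →L[ℝ] ℝ, ∀ᵐ t ∂(volume.restrict (Ioo 0 T)),
      L (∑ i, (∑ j, c i * c j * fc (fun x => v t x i * v t x j) k + c i * c i * fc (p t) k))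
        = 0 := by
    intro L
    have cc1 : ∀ z : ℂ, Continuous fun x : T3 => L (z * mFourier (-k) x) := fun z => by fun_prop
    have h0 := h.div_test (g := fun x => L (mFourier (-k) x))
      (g' := fun j x => L (c j * mFourier (-k) x)) (L.contDiff.comp (contDiff_mF (-k)))
      (fun j x => L.hasFDerivAt.comp_hasDerivAt (0 : ℝ) (hmF j x)) (fun j => cc1 _)
    have j1 := fun i => int_slice (h.int1 i) (cc1 (c i))
    have j2 : ∀ i, Integrable (fun t => ∑ j, ∫ y, v t y i * v t y j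
        * L (c i * c j * mFourier (-k) y) ∂mu + ∫ y, p t y * L (c i * c i * mFourier (-k) y) ∂mu)
        (volume.restrict (Ioo 0 T)) := fun i =>
      (integrable_finsetSum _ fun j _ => int_slice (h.int2 i j) (cc1 _)).add
        (int_slice h.pInt (cc1 _))
    have h1 := ae_zero_of_test (integrable_finsetSum Finset.univ fun i _ => j2 i) fun φ hφ => by
      have h2 := fun i => h.mom_test i (g := fun x => L (c i * mFourier (-k) x))
        (g' := fun j x => L (c i * c j * mFourier (-k) x))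
        (L.contDiff.comp (contDiff_const.mul (contDiff_mF (-k))))
        (fun j x => by
          have := L.hasFDerivAt.comp_hasDerivAt (0 : ℝ) ((hmF j x).const_mul (c i))
          rw [← mul_assoc] at this
          exact this) (cc1 _) (fun j => cc1 _) hφ
      have h3 := Finset.sum_congr (rfl : Finset.univ = Finset.univ) fun i _ => h2 i
      rw [Finset.sum_add_distrib,
        ← integral_finsetSum _ fun i _ => cont_mul_intT hφ.cont_deriv (j1 i),
        ← integral_finsetSum _ fun i _ => cont_mul_intT hφ.cont (j2 i)] at h3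
      simp only [← Finset.mul_sum, Finset.sum_const_zero] at h3
      have h4 : ∫ t in Ioo 0 T, deriv φ t * ∑ i, ∫ y, v t y i * L (c i * mFourier (-k) y) ∂mu
          = 0 := by
        refine integral_eq_zero_of_ae ?_
        filter_upwards [h0] with t ht
        rw [ht, mul_zero, Pi.zero_apply]
      rw [h4, zero_add] at h3
      exact h3
    filter_upwards [h1, h.ae_memLp, h.pInt.prod_right_ae] with t ht hm hp
    rw [← ht, map_sum]
    refine Finset.sum_congr rfl fun i _ => ?_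
    rw [map_add, map_sum, int_L_mF hp]
    congr 1
    exact Finset.sum_congr rfl fun j _ => (int_L_mF (int_mul2 (hm i) (hm j)) L _ k).symm
  filter_upwards [key Complex.reCLM, key Complex.imCLM] with t h1 h2
  have h3 : ∑ i, (∑ j, c i * c j * fc (fun x => v t x i * v t x j) k + c i * c i * fc (p t) k)
      = 0 := Complex.ext h1 h2
  have h4 : (2 * Real.pi * Complex.I : ℂ) ^ 2 ≠ 0 := pow_ne_zero 2 Complex.two_pi_I_ne_zero
  refine mul_left_cancel₀ h4 ?_
  rw [← sub_eq_zero, ← h3, hc]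
  simp only [Fin.sum_univ_three, Pi.neg_apply, Int.cast_neg, qq]
  push_cast
  ring

theorem two_component {a b : ℝ} (hb : 1 / 2 ≤ b) (hba : b ≤ a) (ha : a ≤ 1)
    (hab : 2 * (1 - a) < (3 * a + b - 3) * (1 - a + b)) (h : WeakEuler T v p)
    (hv : ∃ C : ℝ≥0∞, C < ⊤ ∧ ∀ᵐ t ∂(volume.restrict (Ioo 0 T)),
      HsNormSq a (fun x => v t x 0) ≤ C ∧ HsNormSq a (fun x => v t x 1) ≤ C ∧
        HsNormSq b (fun x => v t x 2) ≤ C) :
    ∃ E, ∀ᵐ t ∂(volume.restrict (Ioo 0 T)), energy (v t) = E := by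
  obtain ⟨C, hC, hv⟩ := hv
  obtain ⟨D, hD⟩ : ∃ D, D = 1 - a + b := ⟨_, rfl⟩
  have hD0 : 0 < D := by linarith
  have hD1 : D ≤ 1 := by linarith
  obtain ⟨s0, hs0⟩ : ∃ s0, s0 = (1 - a) / D := ⟨_, rfl⟩
  have e0 : s0 * D = 1 - a := by rw [hs0]; field_simp
  have p0 : 0 ≤ s0 := by rw [hs0]; exact div_nonneg (by linarith) hD0.le
  obtain ⟨δ, hδ⟩ : ∃ δ, δ = ((3 * a + b - 3) / 2 - s0) / 4 := ⟨_, rfl⟩
  have hδ0 : 0 < δ := by
    rw [← hD, ← e0] at hab
    have : 2 * s0 < 3 * a + b - 3 := by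
      by_contra hn
      nlinarith [not_lt.1 hn]
    linarith
  have hδ1 : s0 + 4 * δ ≤ 1 / 2 := by linarith
  obtain ⟨Cp, hCp⟩ := exists_pbound (α := a) (b := b) (s := s0 + 2 * δ) (θ := 1 / 2 + δ)
    (c := b - (1 / 2 + δ) * D) (by linarith) (by linarith) (by linarith) hba ha
    (by rw [hD]; linarith) (by linarith) (by linarith) (by nlinarith) C.toReal
  refine h.core (γ := 1 - (s0 + 2 * δ)) (by linarith) (by linarith) (A := 10 * C.toReal)
    (B := fun _ => √Cp) (integrable_const _) ?_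
  filter_upwards [hv, h.ae_memLp, h.ae_div, h.ae_press] with t ⟨h0, h1, h2⟩ hm hd hp i
  have g0 := hs_le hC h0
  have g1 := hs_le hC h1
  have g2 := hs_le hC h2
  have s0' := SB.of_summable (hterm_nonneg _ _) g0
  have s1' := SB.of_summable (hterm_nonneg _ _) g1
  have s2' := SB.of_summable (hterm_nonneg _ _) g2
  have hCC : C.toReal ≤ 10 * C.toReal := by linarith [ENNReal.toReal_nonneg (a := C)]
  refine ⟨?_, ?_, ?_⟩
  · have key : ∀ {s : ℝ} {f : T3 → ℝ}, 1 / 2 ≤ s →
        (Summable (hterm s f) ∧ ∑' k, hterm s f k ≤ C.toReal) →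
        Summable (hterm (1 / 2) f) ∧ ∑' k, hterm (1 / 2) f k ≤ 10 * C.toReal := fun hs hf =>
      sum_le_of_le (hterm_nonneg _ _) (hterm_mono hs _) ⟨hf.1, hf.2.trans hCC⟩
    fin_cases i
    exacts [key (by linarith) g0, key (by linarith) g1, key hb g2]
  · exact (SB_dir (a := fun j k => fc (fun x => v t x j) k) hd (by linarith) (by linarith)
      (by nlinarith) (by nlinarith) s0' s1' s2' i).summable
  · have hP : ∀ k : Fin 3 → ℤ, HasSum (fun m => (∑ i, (k i : ℂ) * conj (fc (fun x => v t x i) m))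
        * ∑ j, (k j : ℂ) * fc (fun x => v t x j) (k + m)) (-(qq k : ℂ) * fc (p t) k) := by
      intro k
      rw [← hp k]
      have := hasSum_sum (s := Finset.univ) fun i _ => hasSum_sum (s := Finset.univ) fun j _ =>
        (hasSum_fc_mul (hm i) (hm j) k).mul_left ((k i : ℂ) * (k j : ℂ))
      refine this.congr_fun fun m => ?_
      simp only [Fin.sum_univ_three]
      ring
    have := (hCp (fun j k => fc (fun x => v t x j) k) (fc (p t)) hd hP s0' s1' s2' i).summable
    rw [sub_sub_cancel]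
    exact ⟨this.1, Real.sqrt_le_sqrt this.2⟩

end Pool.Agent.Lib.MP_fea353_an
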