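import Pool.Agent.Lib.MP_fea353_an.Press
import Pool.Agent.Lib.MP_fea353_an.OneD

set_option autoImplicit false

namespace Pool.Agent.Lib.MP_fea353_an

open MeasureTheory Set UnitAddTorus Filter Topology
open scoped ContDiff ENNReal ComplexConjugate

instance (T : ℝ) : IsFiniteMeasure (st T) := by unfold st; infer_instance

theorem isTest_mul {T : ℝ} {φ : ℝ → ℝ} (hφ : Test1 T φ) {g : T3 → ℝ} (hg : Sm g) :
    IsTest T fun t y => φ t * g y := by
  obtain ⟨hs, a, b, ha, hb, hz⟩ := hφ
  refine ⟨(hs.comp contDiff_fst).mul (hg.comp contDiff_snd), a, b, ha, hb, fun t ht => ?_⟩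
  ext y
  simp [hz t ht]

theorem pd_mul {j : Fin 3} {g g' : T3 → ℝ} (h : HasPD j g g') (c : ℝ) (y : T3) :
    pd j (fun y => c * g y) y = c * g' y := ((h y).const_mul c).deriv

theorem int_st_mul {T : ℝ} {F : ℝ × T3 → ℝ} (hF : Integrable F (st T)) {a : ℝ → ℝ}
    (ha : Continuous a) {b : T3 → ℝ} (hb : Continuous b) :
    Integrable (fun z : ℝ × T3 => a z.1 * (F z * b z.2)) (st T) := by
  obtain ⟨C, -, hC⟩ := cont_bdd_Ioo T ha
  obtain ⟨D, hD⟩ := cont_bdd hb
  refine (hF.mul_bdd (c := D) (by fun_prop : Continuous _).aestronglyMeasurable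
    (Eventually.of_forall fun z => hD _)).bdd_mul (c := C)
    (by fun_prop : Continuous _).aestronglyMeasurable ?_
  exact (Measure.quasiMeasurePreserving_fst (μ := volume.restrict (Ioo 0 T)) (ν := mu)).ae hC

theorem int_slice {T : ℝ} {F : ℝ × T3 → ℝ} (hF : Integrable F (st T)) {b : T3 → ℝ}
    (hb : Continuous b) :
    Integrable (fun t => ∫ y, F (t, y) * b y ∂mu) (volume.restrict (Ioo 0 T)) := by
  have := (int_st_mul hF (a := fun _ => 1) continuous_const hb).integral_prod_left
  simpa using this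

theorem integral_st_mul {T : ℝ} {F : ℝ × T3 → ℝ} (hF : Integrable F (st T)) {a : ℝ → ℝ}
    (ha : Continuous a) {b : T3 → ℝ} (hb : Continuous b) :
    ∫ z, a z.1 * (F z * b z.2) ∂(st T) = ∫ t in Ioo 0 T, a t * ∫ y, F (t, y) * b y ∂mu := by
  have := integral_prod _ (int_st_mul hF ha hb)
  simp only [integral_const_mul] at this
  exact this

theorem int_conv_st {T : ℝ} {F : ℝ × T3 → ℝ} (hF : Integrable F (st T)) {W : T3 → ℝ}
    (hW : Continuous W) :
    Integrable (fun z : ℝ × T3 => conv W (fun y => F (z.1, y)) z.2) (st T) := by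
  obtain ⟨D, hD⟩ := cont_bdd hW
  have h1 : MeasurePreserving (Prod.map Prod.fst id : (ℝ × T3) × T3 → ℝ × T3)
      ((st T).prod mu) (st T) :=
    (measurePreserving_fst (μ := volume.restrict (Ioo 0 T)) (ν := mu)).prod
      (MeasurePreserving.id mu)
  have h2 : Integrable (fun w : (ℝ × T3) × T3 => W (w.1.2 - w.2) * F (w.1.1, w.2))
      ((st T).prod mu) :=
    (h1.integrable_comp_of_integrable hF).bdd_mul (c := D)
      (by fun_prop : Continuous _).aestronglyMeasurable (Eventually.of_forall fun z => hD _)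
  exact h2.integral_prod_left

variable {T : ℝ} {v : ℝ → T3 → Fin 3 → ℝ} {p : ℝ → T3 → ℝ}

theorem WeakEuler.int1 (h : WeakEuler T v p) (i : Fin 3) :
    Integrable (fun z : ℝ × T3 => v z.1 z.2 i) (st T) := (h.memL2 i).integrable (by norm_num)

theorem WeakEuler.int2 (h : WeakEuler T v p) (i j : Fin 3) :
    Integrable (fun z : ℝ × T3 => v z.1 z.2 i * v z.1 z.2 j) (st T) :=
  (h.memL2 i).integrable_mul (h.memL2 j)

theorem WeakEuler.ae_memLp (h : WeakEuler T v p) :
    ∀ᵐ t ∂(volume.restrict (Ioo 0 T)), ∀ i, MemLp (fun x => v t x i) 2 mu := by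
  rw [ae_all_iff]
  intro i
  filter_upwards [(h.int1 i).prod_right_ae, (h.memL2 i).integrable_sq.prod_right_ae] with t h1 h2
  exact (memLp_two_iff_integrable_sq h1.1).2 h2

theorem WeakEuler.div_test (h : WeakEuler T v p) {g : T3 → ℝ} {g' : Fin 3 → T3 → ℝ} (hg : Sm g)
    (hd : ∀ j, HasPD j g (g' j)) (hc : ∀ j, Continuous (g' j)) :
    ∀ᵐ t ∂(volume.restrict (Ioo 0 T)), ∑ j, ∫ y, v t y j * g' j y ∂mu = 0 := by
  refine ae_zero_of_test (integrable_finsetSum _ fun j _ => int_slice (h.int1 j) (hc j))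
    fun φ hφ => ?_
  have h1 := h.divFree _ (isTest_mul hφ hg)
  simp only [pd_mul (hd _), mul_left_comm _ (φ _)] at h1
  rw [integral_finsetSum _ fun j _ => int_st_mul (h.int1 j) hφ.cont (hc j)] at h1
  simp only [integral_st_mul (h.int1 _) hφ.cont (hc _)] at h1
  simp only [Finset.mul_sum]
  rw [integral_finsetSum _ fun j _ => cont_mul_intT hφ.cont (int_slice (h.int1 j) (hc j))]
  exact h1

theorem WeakEuler.ae_div (h : WeakEuler T v p) :
    ∀ᵐ t ∂(volume.restrict (Ioo 0 T)), ∀ k : Fin 3 → ℤ,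
      ∑ j, (k j : ℂ) * fc (fun x => v t x j) k = 0 := by
  rw [ae_all_iff]
  intro k
  have key : ∀ L : ℂ →L[ℝ] ℝ, ∀ᵐ t ∂(volume.restrict (Ioo 0 T)),
      L (∑ j, (2 * Real.pi * Complex.I * (-k) j) * fc (fun x => v t x j) k) = 0 := by
    intro L
    have h1 := h.div_test (g := fun x => L (mFourier (-k) x))
      (g' := fun j x => L ((2 * Real.pi * Complex.I * (-k) j) * mFourier (-k) x))
      (L.contDiff.comp (contDiff_mF (-k)))
      (fun j x => L.hasFDerivAt.comp_hasDerivAt (0 : ℝ) (hasPD_mF j (-k) x))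
      (fun j => by fun_prop)
    filter_upwards [h1, h.ae_memLp] with t ht hm
    rw [← ht, map_sum]
    refine Finset.sum_congr rfl fun j _ => ?_
    rw [fc_eq, ← integral_const_mul, ← L.integral_comp_comm
      ((int_fc ((hm j).integrable (by norm_num)) _).const_mul _)]
    congr 1
    ext y
    rw [← smul_eq_mul (v t y j), ← map_smul]
    congr 1
    rw [Complex.real_smul]
    ring
  filter_upwards [key Complex.reCLM, key Complex.imCLM] with t h1 h2
  have h3 : ∑ j, (2 * Real.pi * Complex.I * (-k) j) * fc (fun x => v t x j) k = 0 :=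
    Complex.ext h1 h2
  have h4 : (2 * Real.pi * Complex.I : ℂ) ≠ 0 := Complex.two_pi_I_ne_zero
  refine (mul_eq_zero.1 ?_).resolve_left h4
  rw [← neg_eq_zero, ← h3]
  simp only [Fin.sum_univ_three, Pi.neg_apply, Int.cast_neg]
  ring

theorem WeakEuler.int_u (h : WeakEuler T v p) (N : ℕ) (i : Fin 3) :
    Integrable (fun z : ℝ × T3 => conv (KK N) (fun y => v z.1 y i) z.2) (st T) :=
  int_conv_st (h.int1 i) (cont_KK N)

theorem WeakEuler.int_g (h : WeakEuler T v p) (N : ℕ) (i : Fin 3) :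
    Integrable (fun z : ℝ × T3 => gg N (fun j y => v z.1 y j) (p z.1) i z.2) (st T) :=
  (integrable_finsetSum _ fun j _ => int_conv_st (h.int2 i j) (cont_dK N j)).add
    (int_conv_st h.pInt (cont_dK N i))

theorem WeakEuler.point (h : WeakEuler T v p) (N : ℕ) (i : Fin 3) (x : T3) {e : ℝ} (he : 0 < e)
    {φ : ℝ → ℝ} (hφ : Test1 T φ) :
    ∫ t in Ioo 0 T, deriv φ t * bt e (conv (KK N) (fun y => v t y i) x)
      = ∫ t in Ioo 0 T, φ t * (ta (2 * e) (conv (KK N) (fun y => v t y i) x)
        * gg N (fun j y => v t y j) (p t) i x) := by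
  have c1 : Continuous fun y => KK N (x - y) := by fun_prop
  have c2 : ∀ j, Continuous fun y => dK N j (x - y) := fun j => by fun_prop
  have j1 := int_slice (h.int1 i) c1
  have j2 := fun j => int_slice (h.int2 i j) (c2 j)
  have j3 := int_slice h.pInt (c2 i)
  have e1 : ∀ (W f : T3 → ℝ), conv W f x = ∫ y, f y * W (x - y) ∂mu := fun W f => by
    simp only [conv, mul_comm]
  refine weak_chain (L := 1 / (2 * e)) ?_ ?_ (fun ψ hψ => ?_) (hasDerivAt_bt he)
    (abs_ta_le (by positivity)) hφ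
  · simpa only [e1] using j1
  · simp only [gg, e1]
    exact (integrable_finsetSum _ fun j _ => j2 j).add j3
  have h1 := h.momentum _ (isTest_mul hψ (sm_KK N x)) i
  have e2 : ∀ z : ℝ × T3, deriv (fun t => ψ t * KK N (x - z.2)) z.1
      = deriv ψ z.1 * KK N (x - z.2) := fun z => ((hψ.hasDerivAt _).mul_const _).deriv
  simp only [pd_mul (hasPD_reflect (hasPD_KK N _) x), e2] at h1
  have i1 := int_st_mul (h.int1 i) hψ.cont_deriv c1
  have i2 := fun j => int_st_mul (h.int2 i j) hψ.cont (c2 j)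
  have i3 := int_st_mul h.pInt hψ.cont (c2 i)
  have i23 : Integrable (fun z : ℝ × T3 => ∑ j, ψ z.1 * (v z.1 z.2 i * v z.1 z.2 j
      * dK N j (x - z.2)) + ψ z.1 * (p z.1 z.2 * dK N i (x - z.2))) (st T) :=
    (integrable_finsetSum _ fun j _ => i2 j).add i3
  have h2 : ∫ z, deriv ψ z.1 * (v z.1 z.2 i * KK N (x - z.2)) ∂(st T)
      = ∫ z, (∑ j, ψ z.1 * (v z.1 z.2 i * v z.1 z.2 j * dK N j (x - z.2))
        + ψ z.1 * (p z.1 z.2 * dK N i (x - z.2))) ∂(st T) := by
    rw [← sub_eq_zero, ← integral_sub i1 i23, ← h1]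
    congr 1
    ext z
    simp only [Fin.sum_univ_three]
    ring
  rw [integral_add (integrable_finsetSum _ fun j _ => i2 j) i3,
    integral_finsetSum _ fun j _ => i2 j, integral_st_mul (h.int1 i) hψ.cont_deriv c1,
    integral_st_mul h.pInt hψ.cont (c2 i)] at h2
  simp only [integral_st_mul (h.int2 i _) hψ.cont (c2 _)] at h2
  simp only [gg, e1, mul_add, Finset.mul_sum]
  rw [integral_add (integrable_finsetSum _ fun j _ => cont_mul_intT hψ.cont (j2 j))
    (cont_mul_intT hψ.cont j3), integral_finsetSum _ fun j _ => cont_mul_intT hψ.cont (j2 j)]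
  exact h2

theorem WeakEuler.int_bt (h : WeakEuler T v p) (N : ℕ) (i : Fin 3) {e : ℝ} (he : 0 < e) :
    Integrable (fun z : ℝ × T3 => bt e (conv (KK N) (fun y => v z.1 y i) z.2)) (st T) := by
  refine Integrable.of_bound ((cont_bt e).comp_aestronglyMeasurable (h.int_u N i).1)
    ((1 / e) ^ 2 / 2) (Eventually.of_forall fun z => ?_)
  rw [Real.norm_of_nonneg (bt_nonneg _ _), bt, ← sq_abs]
  gcongr
  exact abs_ta_le he _

theorem WeakEuler.int_tg (h : WeakEuler T v p) (N : ℕ) (i : Fin 3) {e : ℝ} (he : 0 < e) :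
    Integrable (fun z : ℝ × T3 => ta (2 * e) (conv (KK N) (fun y => v z.1 y i) z.2)
      * gg N (fun j y => v z.1 y j) (p z.1) i z.2) (st T) :=
  (h.int_g N i).bdd_mul (c := 1 / (2 * e))
    ((cont_ta _).comp_aestronglyMeasurable (h.int_u N i).1)
    (Eventually.of_forall fun _ => abs_ta_le (by positivity) _)

theorem WeakEuler.int_EE (h : WeakEuler T v p) (N : ℕ) {e : ℝ} (he : 0 < e) :
    Integrable (fun t => EE N e fun j y => v t y j) (volume.restrict (Ioo 0 T)) :=
  integrable_finsetSum _ fun i _ => (h.int_bt N i he).integral_prod_left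

theorem WeakEuler.int_HH (h : WeakEuler T v p) (N : ℕ) {e : ℝ} (he : 0 < e) :
    Integrable (fun t => HH N e (fun j y => v t y j) (p t)) (volume.restrict (Ioo 0 T)) :=
  integrable_finsetSum _ fun i _ => (h.int_tg N i he).integral_prod_left

theorem WeakEuler.meas_RR (h : WeakEuler T v p) (N : ℕ) (e : ℝ) :
    AEStronglyMeasurable (fun t => RR N e (fun j y => v t y j) (p t))
      (volume.restrict (Ioo 0 T)) := by
  refine Finset.aestronglyMeasurable_fun_sum _ fun i _ => ?_
  have h1 : AEStronglyMeasurable (fun z : ℝ × T3 => GG (2 * e) (conv (KK N) (fun y => v z.1 y i) z.2)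
      * conv (dK N i) (p z.1) z.2) (st T) :=
    ((cont_GG _).comp_aestronglyMeasurable (h.int_u N i).1).mul
      (int_conv_st h.pInt (cont_dK N i)).1
  exact h1.integral_prod_right'

/-- The renormalised energy balance of the smoothed solution. -/
theorem WeakEuler.balance (h : WeakEuler T v p) (N : ℕ) {e : ℝ} (he : 0 < e)
    {φ : ℝ → ℝ} (hφ : Test1 T φ) :
    ∫ t in Ioo 0 T, deriv φ t * EE N e (fun j y => v t y j)
      = ∫ t in Ioo 0 T, φ t * HH N e (fun j y => v t y j) (p t) := by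
  simp only [EE, HH, Finset.mul_sum]
  rw [integral_finsetSum _ fun i _ =>
      cont_mul_intT hφ.cont_deriv (h.int_bt N i he).integral_prod_left,
    integral_finsetSum _ fun i _ => cont_mul_intT hφ.cont (h.int_tg N i he).integral_prod_left]
  refine Finset.sum_congr rfl fun i _ => ?_
  have i1 := int_st_mul (h.int_bt N i he) hφ.cont_deriv (b := fun _ => 1) continuous_const
  have i2 := int_st_mul (h.int_tg N i he) hφ.cont (b := fun _ => 1) continuous_const
  simp only [mul_one] at i1 i2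
  simp only [← integral_const_mul]
  refine (integral_integral_swap (f := fun t x => deriv φ t
    * bt e (conv (KK N) (fun y => v t y i) x)) i1).trans (Eq.trans ?_
    (integral_integral_swap (f := fun t x => φ t * (ta (2 * e) (conv (KK N) (fun y => v t y i) x)
      * gg N (fun j y => v t y j) (p t) i x)) i2).symm)
  congr 1
  ext x
  exact h.point N i x he hφ

end Pool.Agent.Lib.MP_fea353_an
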